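import Pool.Agent.Obst.Concrete

/-!
# The links of the concrete design say that there is a clique
-/

namespace Pool.Agent.Obst

namespace Con

variable {n k : ℕ} {adj : ℕ → ℕ → Prop}

lemma XN_link (hk : 3 ≤ k) {l : ℕ} (hl : l < 3 * M k) :
    XN k (col k 0 l) + XN k (col k 1 l) = 2 * XN k (col k 2 l) := by
  have hM := M_pos hk
  have h1 := l_mod hk l
  have h2 := pi_lt (τ := l / M k) (by omega : 0 < k) h1
  have e0 : col k 0 l = l % M k := by simp [col]
  have e1 : col k 1 l = M k + pi k (l / M k) (l % M k) := by simp [col]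
  have e2 : col k 2 l = 2 * M k + l := by simp [col]
  rw [e0, e1, e2]
  unfold XN
  rw [if_pos h1, if_neg (by omega), if_pos (by omega), if_neg (by omega), if_neg (by omega),
    if_pos (by omega)]
  rw [Nat.add_sub_cancel_left, Nat.add_sub_cancel_left]
  ring

/-- The condition of a link in terms of heights. -/
lemma link_dt (hk : 3 ≤ k) {l : ℕ} (hl : l < 3 * M k) (y0 y1 y2 : ℕ) :
    dt ((XN k (col k 0 l) : ℝ), (y0 : ℝ)) ((XN k (col k 1 l) : ℝ), (y1 : ℝ))
      ((XN k (col k 2 l) : ℝ), (y2 : ℝ)) = 0 ↔ y0 + y1 = 2 * y2 := by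
  have h1 := XN_link hk hl
  have h2 : XN k (col k 0 l) ≠ XN k (col k 1 l) := fun h =>
    col_ne hk (by omega) (by omega) (by omega : 0 ≠ 1) (XN_inj hk h)
  rw [dt_cast, Int.cast_eq_zero]
  generalize XN k (col k 0 l) = a at *
  generalize XN k (col k 1 l) = b at *
  generalize XN k (col k 2 l) = c at *
  have h3 : (a : ℤ) + b = 2 * c := by exact_mod_cast h1
  have h4 : (b : ℤ) - a ≠ 0 := by omega
  have key : 2 * (((b : ℤ) - a) * ((y2 : ℤ) - y0) - ((c : ℤ) - a) * ((y1 : ℤ) - y0)) =
      ((b : ℤ) - a) * (2 * y2 - y0 - y1) := by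
    have : (2 : ℤ) * c - 2 * a = b - a := by linarith
    calc 2 * (((b : ℤ) - a) * ((y2 : ℤ) - y0) - ((c : ℤ) - a) * ((y1 : ℤ) - y0))
        = 2 * ((b : ℤ) - a) * ((y2 : ℤ) - y0) - (2 * (c : ℤ) - 2 * a) * ((y1 : ℤ) - y0) := by ring
      _ = _ := by rw [this]; ring
  constructor
  · intro h
    rw [h, mul_zero] at key
    rcases mul_eq_zero.1 key.symm with h5 | h5
    · exact absurd h5 h4
    · omega
  · intro h
    have h5 : (2 : ℤ) * y2 - y0 - y1 = 0 := by omega
    rw [h5, mul_zero] at key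
    omega

lemma link_iff (hk : 3 ≤ k) (hn : 0 < n) {l : ℕ} (hl : l < 3 * M k) {d0 d1 d2 : ℕ}
    (hd2 : d2 < n * n) :
    YdN n k adj (col k 0 l) d0 + YdN n k adj (col k 1 l) d1 = 2 * YdN n k adj (col k 2 l) d2 ↔
    d0 < n ∧ d1 < n ∧ val n k adj l d2 ∧
      vv n (d2 / n) + vv n d1 = vv n d0 + vv n (d2 % n) := by
  classical
  have hM := M_pos hk
  have h1 := l_mod hk l
  have h2 := pi_lt (τ := l / M k) (by omega : 0 < k) h1
  have e0 : col k 0 l = l % M k := by simp [col]
  have e1 : col k 1 l = M k + pi k (l / M k) (l % M k) := by simp [col]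
  have e2 : col k 2 l = 2 * M k + l := by simp [col]
  have f0 : YdN n k adj (col k 0 l) d0 = 2 * (N1 n k * H k (l % M k)) +
      (if d0 < n then 8 * vv n d0 else 8 * d0 + 1) := by
    rw [e0]
    unfold YdN scale rc eps
    rw [if_pos h1, if_pos h1, if_pos h1]
    ring
  have f1 : YdN n k adj (col k 1 l) d1 = 2 * (N3 n k * H k (pi k (l / M k) (l % M k))) +
      (if d1 < n then 8 * (VV n - vv n d1) else 8 * d1 + 2) := by
    rw [e1]
    have a1 : ¬ (M k + pi k (l / M k) (l % M k) < M k) := by omega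
    have a2 : M k + pi k (l / M k) (l % M k) < 2 * M k := by omega
    unfold YdN scale rc eps
    rw [if_neg a1, if_neg a1, if_neg a1, if_pos a2, if_pos a2, if_pos a2,
      Nat.add_sub_cancel_left]
    ring
  have f2 : YdN n k adj (col k 2 l) d2 = N3 n k * H k (pi k (l / M k) (l % M k)) +
      (N1 n k * H k (l % M k) + (if val n k adj l d2 then
        4 * (VV n + vv n (d2 / n) - vv n (d2 % n)) else 4 * d2 + 2)) := by
    rw [e2]
    have a1 : ¬ (2 * M k + l < M k) := by omega
    have a2 : ¬ (2 * M k + l < 2 * M k) := by omega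
    have a3 : 2 * M k + l < 5 * M k := by omega
    unfold YdN scale rc eps
    rw [if_neg a1, if_neg a1, if_neg a1, if_neg a2, if_neg a2, if_neg a2, if_pos a3,
      if_pos a3, if_pos a3, Nat.add_sub_cancel_left]
  rw [f0, f1, f2]
  have g1 : vv n (d2 % n) ≤ VV n := vv_le (Nat.mod_lt _ hn)
  by_cases c0 : d0 < n
  · rw [if_pos c0]
    by_cases c1 : d1 < n
    · rw [if_pos c1]
      have g2 := vv_le c1
      by_cases c2 : val n k adj l d2
      · rw [if_pos c2]
        constructor
        · intro h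
          exact ⟨c0, c1, c2, by omega⟩
        · rintro ⟨-, -, -, h⟩
          omega
      · rw [if_neg c2]
        constructor
        · intro h; exfalso; omega
        · rintro ⟨-, -, h, -⟩; exact absurd h c2
    · rw [if_neg c1]
      constructor
      · intro h; exfalso
        split_ifs at h <;> omega
      · rintro ⟨-, h, -⟩; exact absurd h c1
  · rw [if_neg c0]
    constructor
    · intro h; exfalso
      split_ifs at h <;> omega
    · rintro ⟨h, -⟩; exact absurd h c0

/-- A clique (in the form of a map on `{0, …, k - 1}`). -/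
def IsClq (n k : ℕ) (adj : ℕ → ℕ → Prop) (x : ℕ → ℕ) : Prop :=
  (∀ u < k, x u < n) ∧ ∀ u < k, ∀ v < k, u ≠ v → adj (x u) (x v)

/-- The links are satisfied. -/
def LinksOK (n k : ℕ) (adj : ℕ → ℕ → Prop) (d : ℕ → ℕ) : Prop :=
  ∀ l < 3 * M k, dt ((XN k (col k 0 l) : ℝ), (YdN n k adj (col k 0 l) (d (col k 0 l)) : ℝ))
    ((XN k (col k 1 l) : ℝ), (YdN n k adj (col k 1 l) (d (col k 1 l)) : ℝ))
    ((XN k (col k 2 l) : ℝ), (YdN n k adj (col k 2 l) (d (col k 2 l)) : ℝ)) = 0

/-- From satisfied links to a clique. -/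
lemma clique_of_links (hk : 3 ≤ k) (hn : 0 < n) (hirr : Irr n adj) {d : ℕ → ℕ}
    (hd : ∀ q < Qc k, d q < n * n) (h : LinksOK n k adj d) : ∃ x, IsClq n k adj x := by
  have hM := M_pos hk
  have hQ := Qc_ge k
  have hl : ∀ l < 3 * M k, d (col k 0 l) < n ∧ d (col k 1 l) < n ∧
      val n k adj l (d (col k 2 l)) ∧
      vv n (d (col k 2 l) / n) + vv n (d (col k 1 l)) =
        vv n (d (col k 0 l)) + vv n (d (col k 2 l) % n) := by
    intro l hl
    have h1 := h l hl
    rw [link_dt hk hl, link_iff hk hn hl (hd _ (col_lt hk hl 2))] at h1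
    exact h1
  -- equality links
  have heq : ∀ l < 3 * M k, ¬ (l < M k ∧ l / k ≠ l % k) → d (col k 0 l) = d (col k 1 l) := by
    intro l hl' hne
    obtain ⟨h1, h2, h3, h4⟩ := hl l hl'
    rcases h3 with ⟨a, b, -⟩ | ⟨-, h3⟩
    · exact absurd ⟨a, b⟩ hne
    · rw [h3, Nat.zero_div, Nat.zero_mod] at h4
      exact vv_inj (n := n) (by omega)
  -- adjacency links
  have hadj : ∀ l < M k, l / k ≠ l % k → adj (d (col k 0 l)) (d (col k 1 l)) := by
    intro l hl' hne
    obtain ⟨h1, h2, h3, h4⟩ := hl l (by omega)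
    rcases h3 with ⟨-, -, h3⟩ | ⟨a, -⟩
    · have hdn : d (col k 2 l) / n < n := Nat.div_lt_of_lt_mul (hd _ (col_lt hk (by omega) 2))
      have hdm : d (col k 2 l) % n < n := Nat.mod_lt _ hn
      have hne' : d (col k 2 l) / n ≠ d (col k 2 l) % n := by
        intro hh
        rw [hh] at h3
        exact hirr _ hdm h3
      obtain ⟨g1, g2⟩ := vv_gol h1 h2 hdn hdm hne' (by omega)
      rw [g1, g2]
      exact h3
    · exact absurd ⟨hl', hne⟩ a
  have hkk : ∀ u v, u < k → v < k → u * k + v < M k := by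
    intro u v hu hv
    unfold M
    calc u * k + v < u * k + k := by omega
      _ = (u + 1) * k := by ring
      _ ≤ k * k := Nat.mul_le_mul_right _ hu
  -- values at the columns
  have c0 : ∀ u v, u < k → v < k → ∀ τ < 3, col k 0 (τ * M k + (u * k + v)) = u * k + v := by
    intro u v hu hv τ _
    have e : (τ * M k + (u * k + v)) % M k = u * k + v := mod_aux (hkk u v hu hv)
    simp [col, e]
  have c1 : ∀ u v, u < k → v < k → ∀ τ < 3, τ ≠ 0 → col k 1 (τ * M k + (u * k + v)) =
      M k + (((v + τ) % k) * k + u) := by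
    intro u v hu hv τ _ hτ
    have e : (τ * M k + (u * k + v)) % M k = u * k + v := mod_aux (hkk u v hu hv)
    have e' : (τ * M k + (u * k + v)) / M k = τ := div_aux (hkk u v hu hv)
    have e1 : col k 1 (τ * M k + (u * k + v)) = M k + pi k τ (u * k + v) := by
      simp only [col, e, e']; simp
    rw [e1]
    unfold pi
    rw [if_neg hτ, mod_aux hv, div_aux hv]
  have c10 : ∀ u v, u < k → v < k → col k 1 (u * k + v) = M k + (u * k + v) := by
    intro u v hu hv
    have e : (u * k + v) % M k = u * k + v := Nat.mod_eq_of_lt (hkk u v hu hv)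
    have e' : (u * k + v) / M k = 0 := Nat.div_eq_of_lt (hkk u v hu hv)
    simp only [col, e, e']; simp [pi]
  have c00 : ∀ u v, u < k → v < k → col k 0 (u * k + v) = u * k + v := by
    intro u v hu hv
    have := c0 u v hu hv 0 (by omega)
    rwa [zero_mul, zero_add] at this
  -- f(u,v) = g(v+τ, u)
  have hfg : ∀ u v, u < k → v < k → ∀ τ < 3, τ ≠ 0 →
      d (u * k + v) = d (M k + (((v + τ) % k) * k + u)) := by
    intro u v hu hv τ hτ hτ0
    have hlt := hkk u v hu hv
    have hτM : τ * M k ≤ 2 * M k := Nat.mul_le_mul_right _ (by omega)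
    have hτM' : M k ≤ τ * M k := Nat.le_mul_of_pos_left _ (by omega)
    have := heq (τ * M k + (u * k + v)) (by omega) (by omega)
    rw [c0 u v hu hv τ hτ, c1 u v hu hv τ hτ hτ0] at this
    exact this
  -- f(u, ·) is constant
  have hstep : ∀ u v, u < k → v < k → d (u * k + v) = d (u * k + (v + 1) % k) := by
    intro u v hu hv
    have hv' : (v + 1) % k < k := Nat.mod_lt _ (by omega)
    have h1 := hfg u v hu hv 2 (by omega) (by omega)
    have h2 := hfg u ((v + 1) % k) hu hv' 1 (by omega) (by omega)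
    rw [h1, h2, Nat.mod_add_mod]
  have hconst : ∀ u, u < k → ∀ v, v < k → d (u * k + v) = d (u * k + 0) := by
    intro u hu v
    induction v with
    | zero => intro _; rfl
    | succ v ih =>
      intro hv
      have h1 := hstep u v hu (by omega)
      rw [Nat.mod_eq_of_lt hv] at h1
      rw [← h1]
      exact ih (by omega)
  have hg : ∀ w u, w < k → u < k → d (M k + (w * k + u)) = d (u * k + 0) := by
    intro w u hw hu
    by_cases h0 : w = 0
    · have h1 := hfg u (k - 1) hu (by omega) 1 (by omega) (by omega)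
      rw [show k - 1 + 1 = k by omega, Nat.mod_self] at h1
      rw [h0, ← h1]
      exact hconst u hu _ (by omega)
    · have h1 := hfg u (w - 1) hu (by omega) 1 (by omega) (by omega)
      rw [show w - 1 + 1 = w by omega, Nat.mod_eq_of_lt hw] at h1
      rw [← h1]
      exact hconst u hu _ (by omega)
  refine ⟨fun u => d (u * k + 0), ?_, ?_⟩
  · intro u hu
    have h1 := (hl (u * k + 0) (by have := hkk u 0 hu (by omega); omega)).1
    rw [c00 u 0 hu (by omega)] at h1
    exact h1
  · intro u hu v hv huv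
    have hlt := hkk u v hu hv
    have h1 := hadj (u * k + v) hlt (by rw [div_aux hv, mod_aux hv]; exact huv)
    rw [c00 u v hu hv, c10 u v hu hv, hg u v hu hv, hconst u hu v hv] at h1
    exact h1

open Classical in
/-- The choice of domain points attached to a clique. -/
noncomputable def dOf (n k : ℕ) (x : ℕ → ℕ) (q : ℕ) : ℕ :=
  if q < M k then x (q / k)
  else if q < 2 * M k then x ((q - M k) % k)
  else if q < 5 * M k then
    (if q - 2 * M k < M k ∧ (q - 2 * M k) / k ≠ (q - 2 * M k) % k then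
      x ((q - 2 * M k) / k) * n + x ((q - 2 * M k) % k) else 0)
  else 0

lemma dOf_lt (hk : 3 ≤ k) (hn : 0 < n) {x : ℕ → ℕ} (hx : ∀ u < k, x u < n) (q : ℕ) :
    dOf n k x q < n * n := by
  classical
  have hnn : n ≤ n * n := Nat.le_mul_of_pos_left _ hn
  have hk0 : 0 < k := by omega
  unfold dOf
  split_ifs with h1 h2 h3 h4
  · exact lt_of_lt_of_le (hx _ (Nat.div_lt_of_lt_mul h1)) hnn
  · exact lt_of_lt_of_le (hx _ (Nat.mod_lt _ hk0)) hnn
  · have e1 := hx _ (Nat.div_lt_of_lt_mul h4.1 : (q - 2 * M k) / k < k)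
    have e2 := hx _ (Nat.mod_lt (q - 2 * M k) hk0)
    calc x ((q - 2 * M k) / k) * n + x ((q - 2 * M k) % k)
        < x ((q - 2 * M k) / k) * n + n := by omega
      _ = (x ((q - 2 * M k) / k) + 1) * n := by ring
      _ ≤ n * n := Nat.mul_le_mul_right _ e1
  · exact Nat.mul_pos hn hn
  · exact Nat.mul_pos hn hn

/-- From a clique to satisfied links. -/
lemma links_of_clique (hk : 3 ≤ k) (hn : 0 < n) {x : ℕ → ℕ} (hx : IsClq n k adj x) :
    LinksOK n k adj (dOf n k x) := by
  classical
  obtain ⟨hx1, hx2⟩ := hx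
  have hM := M_pos hk
  have hQ := Qc_ge k
  have hk0 : 0 < k := by omega
  intro l hl
  rw [link_dt hk hl, link_iff hk hn hl (dOf_lt hk hn hx1 _)]
  have h1 := l_mod hk l
  have h2 := pi_lt (τ := l / M k) (by omega : 0 < k) h1
  have e0 : col k 0 l = l % M k := by simp [col]
  have e1 : col k 1 l = M k + pi k (l / M k) (l % M k) := by simp [col]
  have e2 : col k 2 l = 2 * M k + l := by simp [col]
  have d0 : dOf n k x (col k 0 l) = x ((l % M k) / k) := by
    rw [e0]; unfold dOf; rw [if_pos h1]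
  have d1 : dOf n k x (col k 1 l) = x ((pi k (l / M k) (l % M k)) % k) := by
    rw [e1]; unfold dOf; rw [if_neg (by omega), if_pos (by omega), Nat.add_sub_cancel_left]
  have d2 : dOf n k x (col k 2 l) = (if l < M k ∧ l / k ≠ l % k then
      x (l / k) * n + x (l % k) else 0) := by
    rw [e2]; unfold dOf
    rw [if_neg (by omega), if_neg (by omega), if_pos (by omega), Nat.add_sub_cancel_left]
  rw [d0, d1, d2]
  have hq0 : l % M k / k < k := Nat.div_lt_of_lt_mul h1
  refine ⟨hx1 _ hq0, hx1 _ (Nat.mod_lt _ hk0), ?_⟩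
  by_cases hc : l < M k ∧ l / k ≠ l % k
  · rw [if_pos hc]
    have hlM : l % M k = l := Nat.mod_eq_of_lt hc.1
    have hlD : l / M k = 0 := Nat.div_eq_of_lt hc.1
    have hdk : l / k < k := Nat.div_lt_of_lt_mul hc.1
    have hmk : l % k < k := Nat.mod_lt _ hk0
    have hp : pi k 0 l = l := by simp [pi]
    rw [hlM, hlD, hp, div_aux (hx1 _ hmk), mod_aux (hx1 _ hmk)]
    refine ⟨Or.inl ⟨hc.1, hc.2, ?_⟩, by ring⟩
    rw [div_aux (hx1 _ hmk), mod_aux (hx1 _ hmk)]
    exact hx2 _ hdk _ hmk hc.2
  · rw [if_neg hc, Nat.zero_div, Nat.zero_mod]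
    refine ⟨Or.inr ⟨hc, rfl⟩, ?_⟩
    have : l % M k / k = pi k (l / M k) (l % M k) % k := by
      unfold pi
      by_cases h0 : l / M k = 0
      · rw [if_pos h0]
        have hlM : l < M k := by
          by_contra hcon
          push Not at hcon
          have := (Nat.one_le_div_iff hM).2 hcon
          omega
        rw [Nat.mod_eq_of_lt hlM]
        by_contra hne
        exact hc ⟨hlM, hne⟩
      · rw [if_neg h0, mod_aux hq0]
    rw [this, Nat.add_comm]

/-- The value of the parameter attached to `k`. -/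
def KK (k : ℕ) : ℕ := 31 + 16 * (5 * (k * k) + k * k * k)

lemma KK_eq (k : ℕ) : KK k = 31 + 16 * Qc k := rfl

/-- The main equivalence. -/
theorem main_iff (Obs : Finset Config) (hObs : ∀ S, Avoids Obs S ↔
    Free PatA S ∧ Free PatB S ∧ Free PatC S) (hk : 3 ≤ k) (hn : 0 < n) (hirr : Irr n adj) :
    AVOIDS Obs (des n k adj hk hn hirr).S ≤ KK k ∧
    KK k ≤ AVOIDS Obs (des n k adj hk hn hirr).S + 3 * (k * k) ∧
    (AVOIDS Obs (des n k adj hk hn hirr).S = KK k ↔ ∃ x, IsClq n k adj x) := by
  classical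
  set Ω := des n k adj hk hn hirr with hΩ
  have hQ : Ω.Q = Qc k := rfl
  have hL : Ω.L = 3 * M k := rfl
  have hQ5 := Qc_ge k
  have upper : AVOIDS Obs Ω.S ≤ KK k := by
    apply AVOIDS_le
    intro S' hS' hav
    have := Design.card_le hS' ((hObs S').1 hav).1
    rw [hQ] at this
    exact this
  refine ⟨upper, ?_, ?_⟩
  · -- lower bound
    set T : Finset ℕ := (Finset.range (Qc k)).filter (fun q => ¬ (2 * M k ≤ q ∧ q < 5 * M k))
      with hT
    have hT1 : ∀ q ∈ T, q < Ω.Q := by
      intro q hq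
      rw [hT, Finset.mem_filter, Finset.mem_range] at hq
      exact hq.1
    have hT2 : ∀ q ∈ T, (fun _ => 0 : ℕ → ℕ) q < Ω.D := fun q _ => Nat.mul_pos hn hn
    have hcard : T.card = Qc k - 3 * M k := by
      have e1 : T = Finset.range (2 * M k) ∪ Finset.Ico (5 * M k) (Qc k) := by
        ext q
        rw [hT, Finset.mem_filter, Finset.mem_range, Finset.mem_union, Finset.mem_range,
          Finset.mem_Ico]
        omega
      rw [e1, Finset.card_union_of_disjoint, Finset.card_range, Nat.card_Ico]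
      · omega
      · rw [Finset.disjoint_left]
        intro q hq hq'
        rw [Finset.mem_range] at hq
        rw [Finset.mem_Ico] at hq'
        omega
    have hav : Avoids Obs (Ω.Sol T fun _ => 0) := by
      rw [hObs]
      refine ⟨Design.free_A hT1 hT2, Design.free_B hT1 hT2 ?_, Design.free_C hT1 hT2⟩
      intro l hl _ _ h2
      exfalso
      rw [hT, Finset.mem_filter] at h2
      apply h2.2
      have e2 : Ω.col 2 l = 2 * M k + l := by show col k 2 l = _; simp [col]
      rw [e2]
      rw [hL] at hl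
      omega
    have h1 := le_AVOIDS (Design.Sol_sub hT1 hT2) hav
    rw [Design.card_Sol hT1 hT2, hcard, hQ] at h1
    have h2 : KK k = 31 + 16 * Qc k := rfl
    have h3 : M k = k * k := rfl
    omega
  · constructor
    · intro h
      obtain ⟨S', hS', hav, hc⟩ := exists_of_le_AVOIDS (by unfold KK; omega) h.ge
      obtain ⟨hA, hB, hC⟩ := (hObs S').1 hav
      obtain ⟨d, hd, hlk⟩ := Design.sound hS' hA hB hC hc
      exact clique_of_links hk hn hirr hd hlk
    · rintro ⟨x, hx⟩
      apply le_antisymm upper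
      have hT1 : ∀ q ∈ Finset.range (Qc k), q < Ω.Q := fun q hq => Finset.mem_range.1 hq
      have hT2 : ∀ q ∈ Finset.range (Qc k), dOf n k x q < Ω.D := fun q _ =>
        dOf_lt hk hn hx.1 q
      have hav : Avoids Obs (Ω.Sol (Finset.range (Qc k)) (dOf n k x)) := by
        rw [hObs]
        refine ⟨Design.free_A hT1 hT2, Design.free_B hT1 hT2 ?_, Design.free_C hT1 hT2⟩
        intro l hl _ _ _
        exact links_of_clique hk hn hx l hl
      have h1 := le_AVOIDS (Design.Sol_sub hT1 hT2) hav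
      rw [Design.card_Sol hT1 hT2, Finset.card_range, hQ] at h1
      have h2 : KK k = 31 + 16 * Qc k := rfl
      omega

end Con

end Pool.Agent.Obst
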