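import Pool.Agent.Obst.Sound

/-!
# Avoiding subsets of a design from partial solutions
-/

namespace Pool.Agent.Obst

open Function

namespace Design

variable {Ω : Design}

section

variable {T : Finset ℕ} {d : ℕ → ℕ}

/-- Being an anchor. -/
def IsAnc (Ω : Design) (z : ℝ × ℝ) : Prop := ∃ q < Ω.Q, ∃ s < 15, z = Ω.anc q s

/-- Being a chosen domain point of the class `κ`. -/
def IsDomC (Ω : Design) (T : Finset ℕ) (d : ℕ → ℕ) (κ : ℕ) (z : ℝ × ℝ) : Prop :=
  ∃ q ∈ T, Ω.cls q = κ ∧ z = Ω.dom q (d q)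

open Classical in
/-- The frame, all anchors, and one domain point in each column from `T`. -/
noncomputable def Sol (Ω : Design) (T : Finset ℕ) (d : ℕ → ℕ) : Config := Ω.FF ∪ Ω.colset T d

lemma mem_Sol {z : ℝ × ℝ} : z ∈ Ω.Sol T d ↔ Ω.InF z ∨ (∃ q < Ω.Q, ∃ s < 15, z = Ω.anc q s) ∨
    (∃ q ∈ T, z = Ω.dom q (d q)) := by
  classical
  unfold Sol colset
  rw [Finset.mem_union, Finset.mem_union, mem_FF, Finset.mem_image, Finset.mem_image]
  constructor
  · rintro (h | ⟨⟨q, s⟩, h1, rfl⟩ | ⟨q, h1, rfl⟩)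
    · exact Or.inl h
    · rw [Finset.mem_product, Finset.mem_range, Finset.mem_range] at h1
      exact Or.inr (Or.inl ⟨q, h1.1, s, h1.2, rfl⟩)
    · exact Or.inr (Or.inr ⟨q, h1, rfl⟩)
  · rintro (h | ⟨q, hq, s, hs, rfl⟩ | ⟨q, hq, rfl⟩)
    · exact Or.inl h
    · exact Or.inr (Or.inl ⟨(q, s), by simp [hq, hs], rfl⟩)
    · exact Or.inr (Or.inr ⟨q, hq, rfl⟩)

variable (hT : ∀ q ∈ T, q < Ω.Q) (hd : ∀ q ∈ T, d q < Ω.D)

include hT hd

lemma Sol_sub : Ω.Sol T d ⊆ Ω.S := by
  intro z hz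
  rw [mem_Sol] at hz
  rw [mem_S]
  rcases hz with h | h | ⟨q, hq, rfl⟩
  · exact Or.inl h
  · exact Or.inr (Or.inl h)
  · exact Or.inr (Or.inr ⟨q, hT q hq, d q, hd q hq, rfl⟩)

lemma card_Sol : (Ω.Sol T d).card = 31 + 15 * Ω.Q + T.card := by
  classical
  unfold Sol colset
  rw [Finset.card_union_of_disjoint, Finset.card_union_of_disjoint, card_FF,
    Finset.card_image_of_injOn, Finset.card_image_of_injOn, Finset.card_product,
    Finset.card_range, Finset.card_range]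
  · ring
  · intro q hq q' hq' h
    exact Ω.X_inj q (hT q hq) q' (hT q' hq') (congrArg Prod.fst h)
  · rintro ⟨q, s⟩ h1 ⟨q', s'⟩ h2 h
    rw [Finset.mem_coe, Finset.mem_product, Finset.mem_range, Finset.mem_range] at h1 h2
    have e1 : q = q' := Ω.X_inj q h1.1 q' h2.1 (congrArg Prod.fst h)
    subst e1
    have e2 : s = s' := Ω.Ya_inj q h1.1 s h1.2 s' h2.2 (congrArg Prod.snd h)
    subst e2
    rfl
  · rw [Finset.disjoint_left]
    intro z hz hz'
    obtain ⟨⟨q, s⟩, h1, rfl⟩ := Finset.mem_image.1 hz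
    obtain ⟨q', h2, h3⟩ := Finset.mem_image.1 hz'
    rw [Finset.mem_product, Finset.mem_range, Finset.mem_range] at h1
    exact Ω.anc_ne_dom h1.1 h1.2 (hT q' h2) (hd q' h2) h3.symm
  · rw [Finset.disjoint_left]
    intro z hz hz'
    have h1 := InF.x_le Ω (Ω.mem_FF.1 hz)
    rcases Finset.mem_union.1 hz' with h2 | h2
    · obtain ⟨⟨q, s⟩, h3, rfl⟩ := Finset.mem_image.1 h2
      rw [Finset.mem_product, Finset.mem_range, Finset.mem_range] at h3
      have := Ω.X_gt q h3.1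
      have h4 : Ω.X q ≤ Ω.x0 := h1
      linarith
    · obtain ⟨q, h3, rfl⟩ := Finset.mem_image.1 h2
      have := Ω.X_gt q (hT q h3)
      have h4 : Ω.X q ≤ Ω.x0 := h1
      linarith

/-- Points of a solution on the vertical line of the frame. -/
lemma Sol_x0 {z : ℝ × ℝ} (hz : z ∈ Ω.Sol T d) (h : z.1 = Ω.x0) :
    z = Ω.pO ∨ ∃ t < 15, z = Ω.pP t := by
  rcases mem_Sol.1 hz with (h1 | h1 | ⟨t, ht, rfl⟩) | ⟨q, hq, s, hs, rfl⟩ | ⟨q, hq, rfl⟩
  · exact Or.inl h1
  · exact Or.inr h1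
  · have h2 : (0 : ℝ) ≤ (t : ℕ) := Nat.cast_nonneg _
    have h3 : Ω.x0 - (t + 1) = Ω.x0 := h
    linarith
  · have := Ω.X_gt q hq
    have h4 : Ω.X q = Ω.x0 := h
    linarith
  · have := Ω.X_gt q (hT q hq)
    have h4 : Ω.X q = Ω.x0 := h
    linarith

/-- Points of a solution on the horizontal line of the frame. -/
lemma Sol_Th {z : ℝ × ℝ} (hz : z ∈ Ω.Sol T d) (h : z.2 = Ω.Th) :
    z = Ω.pO ∨ ∃ t < 15, z = Ω.pQ t := by
  rcases mem_Sol.1 hz with (h1 | ⟨t, ht, rfl⟩ | h1) | ⟨q, hq, s, hs, rfl⟩ | ⟨q, hq, rfl⟩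
  · exact Or.inl h1
  · have h2 : (0 : ℝ) ≤ (t : ℕ) := Nat.cast_nonneg _
    have h3 : Ω.Th + (t + 1) = Ω.Th := h
    linarith
  · exact Or.inr h1
  · have := Ω.Ya_gt q hq s hs
    have h4 : Ω.Ya q s = Ω.Th := h
    linarith
  · have := Ω.Yd_lt q (hT q hq) _ (hd q hq)
    have h4 : Ω.Yd q (d q) = Ω.Th := h
    linarith

lemma Sol_X {z : ℝ × ℝ} (hz : z ∈ Ω.Sol T d) {q : ℕ} (hq : q < Ω.Q) (h : z.1 = Ω.X q) :
    (∃ s < 15, z = Ω.anc q s) ∨ (q ∈ T ∧ z = Ω.dom q (d q)) := by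
  rcases mem_Sol.1 hz with h1 | ⟨q', hq', s, hs, rfl⟩ | ⟨q', hq', rfl⟩
  · have := InF.x_le Ω h1
    have := Ω.X_gt q hq
    linarith
  · have : q' = q := Ω.X_inj q' hq' q hq h
    subst this
    exact Or.inl ⟨s, hs, rfl⟩
  · have : q' = q := Ω.X_inj q' (hT q' hq') q hq h
    subst this
    exact Or.inr ⟨hq', rfl⟩

/-- Number of points on each of the rich lines. -/
lemma card_x0 (R : Config) (hR : R ⊆ Ω.Sol T d) (h : ∀ z ∈ R, z.1 = Ω.x0) : R.card ≤ 16 := by
  classical
  have hsub : R ⊆ insert Ω.pO ((Finset.range 15).image Ω.pP) := by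
    intro z hz
    rcases Sol_x0 hT hd (hR hz) (h z hz) with rfl | ⟨t, ht, rfl⟩
    · exact Finset.mem_insert_self _ _
    · exact Finset.mem_insert_of_mem (Finset.mem_image_of_mem _ (Finset.mem_range.2 ht))
  calc R.card ≤ _ := Finset.card_le_card hsub
    _ ≤ _ := Finset.card_insert_le _ _
    _ ≤ 15 + 1 := by
      apply Nat.add_le_add_right
      exact Finset.card_image_le.trans (by rw [Finset.card_range])

lemma card_Th (R : Config) (hR : R ⊆ Ω.Sol T d) (h : ∀ z ∈ R, z.2 = Ω.Th) : R.card ≤ 16 := by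
  classical
  have hsub : R ⊆ insert Ω.pO ((Finset.range 15).image Ω.pQ) := by
    intro z hz
    rcases Sol_Th hT hd (hR hz) (h z hz) with rfl | ⟨t, ht, rfl⟩
    · exact Finset.mem_insert_self _ _
    · exact Finset.mem_insert_of_mem (Finset.mem_image_of_mem _ (Finset.mem_range.2 ht))
  calc R.card ≤ _ := Finset.card_le_card hsub
    _ ≤ _ := Finset.card_insert_le _ _
    _ ≤ 15 + 1 := by
      apply Nat.add_le_add_right
      exact Finset.card_image_le.trans (by rw [Finset.card_range])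

lemma card_X (R : Config) (hR : R ⊆ Ω.Sol T d) {q : ℕ} (hq : q < Ω.Q)
    (h : ∀ z ∈ R, z.1 = Ω.X q) : R.card ≤ 16 := by
  classical
  have hsub : R ⊆ insert (Ω.dom q (d q)) ((Finset.range 15).image (Ω.anc q)) := by
    intro z hz
    rcases Sol_X hT hd (hR hz) hq (h z hz) with ⟨s, hs, rfl⟩ | ⟨-, rfl⟩
    · exact Finset.mem_insert_of_mem (Finset.mem_image_of_mem _ (Finset.mem_range.2 hs))
    · exact Finset.mem_insert_self _ _
  calc R.card ≤ _ := Finset.card_le_card hsub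
    _ ≤ _ := Finset.card_insert_le _ _
    _ ≤ 15 + 1 := by
      apply Nat.add_le_add_right
      exact Finset.card_image_le.trans (by rw [Finset.card_range])

/-- Collinear subsets with at least sixteen points lie on the rich lines. -/
theorem rich {R : Config} (hR : R ⊆ Ω.Sol T d) (hcol : ∀ a ∈ R, ∀ b ∈ R, ∀ c ∈ R, dt a b c = 0)
    (hcard : 16 ≤ R.card) : (∀ z ∈ R, z.1 = Ω.x0) ∨ (∀ z ∈ R, z.2 = Ω.Th) ∨
      ∃ q < Ω.Q, ∀ z ∈ R, z.1 = Ω.X q := by
  classical
  by_cases hvert : ∀ z ∈ R, ∀ z' ∈ R, z.1 = z'.1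
  · obtain ⟨z0, hz0⟩ := Finset.card_pos.1 (by omega : 0 < R.card)
    rcases mem_Sol.1 (hR hz0) with (rfl | ⟨t, ht, rfl⟩ | ⟨t, ht, rfl⟩) | ⟨q, hq, s, hs, rfl⟩ |
      ⟨q, hq, rfl⟩
    · left; intro z hz; exact hvert z hz _ hz0
    · left; intro z hz; exact hvert z hz _ hz0
    · exfalso
      have h1 : ∀ z ∈ R, z = Ω.pQ t := by
        intro z hz
        have h2 : z.1 = Ω.x0 - (t + 1) := hvert z hz _ hz0
        have h0 : (0 : ℝ) ≤ (t : ℕ) := Nat.cast_nonneg _
        rcases mem_Sol.1 (hR hz) with (rfl | ⟨t', ht', rfl⟩ | ⟨t', ht', rfl⟩) |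
          ⟨q, hq, s, hs, rfl⟩ | ⟨q, hq, rfl⟩
        · have h3 : Ω.x0 = Ω.x0 - (t + 1) := h2
          linarith
        · have h3 : Ω.x0 = Ω.x0 - (t + 1) := h2
          linarith
        · have h3 : Ω.x0 - (t' + 1) = Ω.x0 - (t + 1) := h2
          have h4 : (t' : ℝ) = t := by linarith
          have h5 : t' = t := by exact_mod_cast h4
          rw [h5]
        · have h3 : Ω.X q = Ω.x0 - (t + 1) := h2
          have := Ω.X_gt q hq
          linarith
        · have h3 : Ω.X q = Ω.x0 - (t + 1) := h2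
          have := Ω.X_gt q (hT q hq)
          linarith
      have h2 : R.card ≤ 1 := Finset.card_le_one.2 fun a ha b hb => (h1 a ha).trans (h1 b hb).symm
      omega
    · right; right; exact ⟨q, hq, fun z hz => hvert z hz _ hz0⟩
    · right; right; exact ⟨q, hT q hq, fun z hz => hvert z hz _ hz0⟩
  · push Not at hvert
    obtain ⟨u, hu, v, hv, huv⟩ := hvert
    -- abscissae are distinct
    have hinj : ∀ z ∈ R, ∀ z' ∈ R, z.1 = z'.1 → z = z' := by
      intro z hz z' hz' h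
      by_contra hne
      have h2 : z'.2 - z.2 ≠ 0 := by
        intro h3
        exact hne (Prod.ext h (by linarith))
      obtain ⟨w, hw, hwz⟩ : ∃ w ∈ R, w.1 ≠ z.1 := by
        by_cases h3 : u.1 = z.1
        · exact ⟨v, hv, fun h4 => huv (h3.trans h4.symm)⟩
        · exact ⟨u, hu, h3⟩
      have h3 := hcol z hz z' hz' w hw
      unfold dt at h3
      rw [← h, sub_self, zero_mul, zero_sub, neg_eq_zero, mul_eq_zero] at h3
      rcases h3 with h3 | h3
      · exact hwz (by linarith)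
      · exact h2 h3
    by_cases hth : ∃ z ∈ R, ∃ z' ∈ R, z ≠ z' ∧ z.2 = Ω.Th ∧ z'.2 = Ω.Th
    · right; left
      obtain ⟨z, hz, z', hz', hne, h1, h2⟩ := hth
      intro w hw
      have h3 := hcol z hz z' hz' w hw
      unfold dt at h3
      rw [h1, h2, sub_self, mul_zero, sub_zero, mul_eq_zero] at h3
      rcases h3 with h3 | h3
      · exact absurd (hinj z hz z' hz' (by linarith)) hne
      · linarith
    · exfalso
      push Not at hth
      -- count
      set R0 := R.filter (fun z => z.1 = Ω.x0) with hR0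
      set R1 := R.filter (fun z => z.2 = Ω.Th) with hR1
      set R2 := R.filter (fun z => IsAnc Ω z) with hR2
      set R3 : ℕ → Config := fun κ => R.filter (fun z => IsDomC Ω T d κ z)
        with hR3
      have h0 : R0.card ≤ 1 := by
        rw [Finset.card_le_one]
        intro a ha b hb
        rw [hR0, Finset.mem_filter] at ha hb
        exact hinj a ha.1 b hb.1 (ha.2.trans hb.2.symm)
      have h1 : R1.card ≤ 1 := by
        rw [Finset.card_le_one]
        intro a ha b hb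
        rw [hR1, Finset.mem_filter] at ha hb
        by_contra hne
        exact hth a ha.1 b hb.1 hne ha.2 hb.2
      have hqne : ∀ q q' s s', Ω.anc q s ∈ R → Ω.anc q' s' ∈ R → Ω.anc q s ≠ Ω.anc q' s' →
          q ≠ q' := by
        intro q q' s s' ha hb hne hqq
        subst hqq
        exact hne (hinj _ ha _ hb rfl)
      have h2 : R2.card ≤ 3 := by
        by_contra hcon
        push Not at hcon
        obtain ⟨a, ha⟩ := Finset.card_pos.1 (by omega : 0 < R2.card)
        have he : 2 < (R2.erase a).card := by rw [Finset.card_erase_of_mem ha]; omega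
        obtain ⟨b, c, e, hb, hc, he', hbc, hbe, hce⟩ := Finset.two_lt_card_iff.1 he
        rw [Finset.mem_erase] at hb hc he'
        rw [hR2, Finset.mem_filter] at ha hb hc he'
        obtain ⟨haR, qa, hqa, sa, hsa, rfl⟩ := ha
        obtain ⟨hab, hbR, qb, hqb, sb, hsb, rfl⟩ := hb
        obtain ⟨hac, hcR, qc, hqc, sc, hsc, rfl⟩ := hc
        obtain ⟨hae, heR, qe, hqe, se, hse, rfl⟩ := he'
        have nab := hqne _ _ _ _ haR hbR hab.symm
        have nac := hqne _ _ _ _ haR hcR hac.symm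
        have nae := hqne _ _ _ _ haR heR hae.symm
        have nbc := hqne _ _ _ _ hbR hcR hbc
        have nbe := hqne _ _ _ _ hbR heR hbe
        have nce := hqne _ _ _ _ hcR heR hce
        obtain ⟨r1, r2⟩ := Ω.anc_coll qa hqa qb hqb qc hqc nab nac nbc sa hsa sb hsb sc hsc
          (hcol _ haR _ hbR _ hcR)
        obtain ⟨-, r3⟩ := Ω.anc_coll qa hqa qb hqb qe hqe nab nae nbe sa hsa sb hsb se hse
          (hcol _ haR _ hbR _ heR)
        obtain ⟨-, ta, hta, ea⟩ := Ω.row_col qa hqa qb hqb nab sa hsa sb hsb r1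
        obtain ⟨-, tb, htb, eb⟩ := Ω.row_col qb hqb qa hqa nab.symm sb hsb sa hsa r1.symm
        obtain ⟨-, tc, htc, ec⟩ := Ω.row_col qc hqc qa hqa nac.symm sc hsc sa hsa r2.symm
        obtain ⟨-, te, hte, ee⟩ := Ω.row_col qe hqe qa hqa nae.symm se hse sa hsa r3.symm
        rw [← r1] at eb
        rw [← r2] at ec
        rw [← r3] at ee
        have m1 : ta ≠ tb := fun h => nab (ea.trans (h ▸ eb.symm))
        have m2 : ta ≠ tc := fun h => nac (ea.trans (h ▸ ec.symm))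
        have m3 : ta ≠ te := fun h => nae (ea.trans (h ▸ ee.symm))
        have m4 : tb ≠ tc := fun h => nbc (eb.trans (h ▸ ec.symm))
        have m5 : tb ≠ te := fun h => nbe (eb.trans (h ▸ ee.symm))
        have m6 : tc ≠ te := fun h => nce (ec.trans (h ▸ ee.symm))
        omega
      have h3 : ∀ κ, (R3 κ).card ≤ 2 := by
        intro κ
        by_contra hcon
        push Not at hcon
        obtain ⟨a, b, c, ha, hb, hc, hab, hac, hbc⟩ := Finset.two_lt_card_iff.1 hcon
        rw [hR3, Finset.mem_filter] at ha hb hc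
        obtain ⟨haR, qa, hqa, ka, rfl⟩ := ha
        obtain ⟨hbR, qb, hqb, kb, rfl⟩ := hb
        obtain ⟨hcR, qc, hqc, kc, rfl⟩ := hc
        refine Ω.cls_gen qa (hT _ hqa) qb (hT _ hqb) qc (hT _ hqc) ?_ ?_ ?_ (ka.trans kb.symm)
          (ka.trans kc.symm) _ (hd _ hqa) _ (hd _ hqb) _ (hd _ hqc) (hcol _ haR _ hbR _ hcR)
        · rintro rfl; exact hab rfl
        · rintro rfl; exact hac rfl
        · rintro rfl; exact hbc rfl
      have hcov : R ⊆ R0 ∪ (R1 ∪ (R2 ∪ (Finset.range 5).biUnion R3)) := by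
        intro z hz
        simp only [Finset.mem_union, Finset.mem_biUnion, Finset.mem_range]
        rcases mem_Sol.1 (hR hz) with (rfl | ⟨t, ht, rfl⟩ | ⟨t, ht, rfl⟩) |
          ⟨q, hq, s, hs, rfl⟩ | ⟨q, hq, rfl⟩
        · left; rw [hR0, Finset.mem_filter]; exact ⟨hz, rfl⟩
        · left; rw [hR0, Finset.mem_filter]; exact ⟨hz, rfl⟩
        · right; left; rw [hR1, Finset.mem_filter]; exact ⟨hz, rfl⟩
        · right; right; left; rw [hR2, Finset.mem_filter]; exact ⟨hz, q, hq, s, hs, rfl⟩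
        · right; right; right
          refine ⟨Ω.cls q, Ω.cls_lt q (hT q hq), ?_⟩
          rw [hR3, Finset.mem_filter]
          exact ⟨hz, q, hq, rfl, rfl⟩
      have h4 : ((Finset.range 5).biUnion R3).card ≤ 10 := by
        calc _ ≤ ∑ κ ∈ Finset.range 5, (R3 κ).card := Finset.card_biUnion_le
          _ ≤ ∑ κ ∈ Finset.range 5, 2 := Finset.sum_le_sum fun κ _ => h3 κ
          _ = 10 := by simp
      have h5 := Finset.card_le_card hcov
      have h6 := Finset.card_union_le R0 (R1 ∪ (R2 ∪ (Finset.range 5).biUnion R3))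
      have h7 := Finset.card_union_le R1 (R2 ∪ (Finset.range 5).biUnion R3)
      have h8 := Finset.card_union_le R2 ((Finset.range 5).biUnion R3)
      omega

/-- Collinear families with sixteen points. -/
lemma rich_fam {κ : Type} [Fintype κ] (hκ : 16 ≤ Fintype.card κ) {f : κ → ℝ × ℝ}
    (hf : Injective f) (hfS : ∀ i, f i ∈ Ω.Sol T d) (hcol : CollFam f) :
    (∀ i, (f i).1 = Ω.x0) ∨ (∀ i, (f i).2 = Ω.Th) ∨ ∃ q < Ω.Q, ∀ i, (f i).1 = Ω.X q := by
  classical
  have hmem : ∀ i, f i ∈ Finset.univ.image f := fun i =>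
    Finset.mem_image_of_mem f (Finset.mem_univ i)
  have h1 := rich hT hd (R := Finset.univ.image f) (by
      intro z hz
      obtain ⟨i, -, rfl⟩ := Finset.mem_image.1 hz
      exact hfS i) (by
      intro a ha b hb c hc
      obtain ⟨i, -, rfl⟩ := Finset.mem_image.1 ha
      obtain ⟨j, -, rfl⟩ := Finset.mem_image.1 hb
      obtain ⟨l, -, rfl⟩ := Finset.mem_image.1 hc
      exact ori_eq_zero.1 (hcol i j l)) (by
      rw [Finset.card_image_of_injective _ hf, Finset.card_univ]; exact hκ)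
  rcases h1 with h1 | h1 | ⟨q, hq, h1⟩
  · exact Or.inl fun i => h1 _ (hmem i)
  · exact Or.inr (Or.inl fun i => h1 _ (hmem i))
  · exact Or.inr (Or.inr ⟨q, hq, fun i => h1 _ (hmem i)⟩)

lemma free_A : Free PatA (Ω.Sol T d) := by
  classical
  intro P hP hPS hcol
  set R := Finset.univ.image P with hR
  have hRc : R.card = 17 := by rw [hR, Finset.card_image_of_injective _ hP]; simp
  have hRS : R ⊆ Ω.Sol T d := by
    intro z hz
    obtain ⟨i, -, rfl⟩ := Finset.mem_image.1 hz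
    exact hPS i
  have hmem : ∀ z ∈ R, ∃ i, P i = z := fun z hz => by
    obtain ⟨i, -, hi⟩ := Finset.mem_image.1 hz
    exact ⟨i, hi⟩
  rcases rich_fam hT hd (κ := Fin 17) (by simp) hP hPS hcol with h | h | ⟨q, hq, h⟩
  · have := card_x0 hT hd R hRS (fun z hz => by obtain ⟨i, rfl⟩ := hmem z hz; exact h i)
    omega
  · have := card_Th hT hd R hRS (fun z hz => by obtain ⟨i, rfl⟩ := hmem z hz; exact h i)
    omega
  · have := card_X hT hd R hRS hq (fun z hz => by obtain ⟨i, rfl⟩ := hmem z hz; exact h i)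
    omega

/-- Recognition of the frame. -/
lemma frame_rec {F : IF → ℝ × ℝ} (hF : Injective F) (hFS : ∀ i, F i ∈ Ω.Sol T d)
    (hfr : IsFrame F) : (∀ i, (fP F i).1 = Ω.x0) ∧ (∀ i, (fQ F i).2 = Ω.Th) ∧
      (F (iQ 0)).1 < Ω.x0 := by
  obtain ⟨h1, h2, h3⟩ := hfr
  rw [ori_eq_neg_one] at h3
  have hPi : Injective (fP F) := by
    intro i j h
    rcases i with i | i <;> rcases j with j | j <;> simp only [fP, Sum.elim_inl, Sum.elim_inr] at h
    · rfl
    · have := hF h; simp [iO, iP] at this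
    · have := hF h; simp [iO, iP] at this
    · have := hF h; simp [iP] at this; rw [this]
  have hQi : Injective (fQ F) := by
    intro i j h
    rcases i with i | i <;> rcases j with j | j <;> simp only [fQ, Sum.elim_inl, Sum.elim_inr] at h
    · rfl
    · have := hF h; simp [iO, iQ] at this
    · have := hF h; simp [iO, iQ] at this
    · have := hF h; simp [iQ] at this; rw [this]
  have hPS : ∀ i, fP F i ∈ Ω.Sol T d := by
    intro i; rcases i with i | i <;> exact hFS _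
  have hQS : ∀ i, fQ F i ∈ Ω.Sol T d := by
    intro i; rcases i with i | i <;> exact hFS _
  have hne : F (iQ 0) ≠ F iO := fun h => by have := hF h; simp [iQ, iO] at this
  have hneP : F (iP 0) ≠ F iO := fun h => by have := hF h; simp [iP, iO] at this
  have cP := rich_fam hT hd (κ := Unit ⊕ Fin 15) (by simp) hPi hPS h1
  have cQ := rich_fam hT hd (κ := Unit ⊕ Fin 15) (by simp) hQi hQS h2
  -- a point of the solution on a column has height different from `Th`
  have hcolTh : ∀ z ∈ Ω.Sol T d, ∀ q < Ω.Q, z.1 = Ω.X q → z.2 ≠ Ω.Th := by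
    intro z hz q hq h4 h5
    rcases Sol_Th hT hd hz h5 with rfl | ⟨t, ht, rfl⟩
    · have := Ω.X_gt q hq
      have h6 : Ω.x0 = Ω.X q := h4
      linarith
    · have := Ω.X_gt q hq
      have h6 : Ω.x0 - (t + 1) = Ω.X q := h4
      have h0 : (0 : ℝ) ≤ (t : ℕ) := Nat.cast_nonneg _
      linarith
  rcases cP with cP | cP | ⟨q, hq, cP⟩
  · rcases cQ with cQ | cQ | ⟨q, hq, cQ⟩
    · exfalso
      have e := dt_same_x (p := F iO) (q := F (iP 0)) (r := F (iQ 0)) (cP (Sum.inl ()))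
        (cP (Sum.inr 0)) (cQ (Sum.inr 0))
      rw [e] at h3
      exact lt_irrefl _ h3
    · refine ⟨cP, cQ, ?_⟩
      rcases Sol_Th hT hd (hFS (iQ 0)) (cQ (Sum.inr 0)) with h4 | ⟨t, ht, h4⟩
      · exfalso
        apply hne
        rw [h4]
        rcases Sol_x0 hT hd (hFS iO) (cP (Sum.inl ())) with h5 | ⟨t, ht, h5⟩
        · exact h5.symm
        · exfalso
          have h6 : (F iO).2 = Ω.Th := cQ (Sum.inl ())
          rw [h5] at h6
          have h7 : Ω.Th + (t + 1) = Ω.Th := h6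
          have h0 : (0 : ℝ) ≤ (t : ℕ) := Nat.cast_nonneg _
          linarith
      · rw [h4]
        show Ω.x0 - (t + 1) < Ω.x0
        have h0 : (0 : ℝ) ≤ (t : ℕ) := Nat.cast_nonneg _
        linarith
    · exfalso
      have e1 : (F iO).1 = Ω.x0 := cP (Sum.inl ())
      have e2 : (F iO).1 = Ω.X q := cQ (Sum.inl ())
      have := Ω.X_gt q hq
      linarith
  · rcases cQ with cQ | cQ | ⟨q, hq, cQ⟩
    · exfalso
      have e1 : (F iO).1 = Ω.x0 := cQ (Sum.inl ())
      have e2 : (F iO).2 = Ω.Th := cP (Sum.inl ())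
      have eO : F iO = Ω.pO := Prod.ext e1 e2
      rcases Sol_Th hT hd (hFS (iP 0)) (cP (Sum.inr 0)) with h4 | ⟨t, ht, h4⟩
      · exact hneP (h4.trans eO.symm)
      · rcases Sol_x0 hT hd (hFS (iQ 0)) (cQ (Sum.inr 0)) with h5 | ⟨t', ht', h5⟩
        · exact hne (h5.trans eO.symm)
        · rw [eO, h4, h5] at h3
          unfold dt pO pQ pP at h3
          have h0 : (0 : ℝ) ≤ (t : ℕ) := Nat.cast_nonneg _
          have h0' : (0 : ℝ) ≤ (t' : ℕ) := Nat.cast_nonneg _
          simp only at h3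
          nlinarith
    · exfalso
      have e := dt_same_y (p := F iO) (q := F (iP 0)) (r := F (iQ 0)) (cP (Sum.inl ()))
        (cP (Sum.inr 0)) (cQ (Sum.inr 0))
      rw [e] at h3
      exact lt_irrefl _ h3
    · exfalso
      exact hcolTh _ (hFS iO) q hq (cQ (Sum.inl ())) (cP (Sum.inl ()))
  · rcases cQ with cQ | cQ | ⟨q', hq', cQ⟩
    · exfalso
      have e1 : (F iO).1 = Ω.x0 := cQ (Sum.inl ())
      have e2 : (F iO).1 = Ω.X q := cP (Sum.inl ())
      have := Ω.X_gt q hq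
      linarith
    · exfalso
      exact hcolTh _ (hFS iO) q hq (cP (Sum.inl ())) (cQ (Sum.inl ()))
    · exfalso
      have e1 : (F iO).1 = Ω.X q := cP (Sum.inl ())
      have e2 : (F iO).1 = Ω.X q' := cQ (Sum.inl ())
      have e3 : (F (iQ 0)).1 = Ω.X q := (cQ (Sum.inr 0)).trans (e2.symm.trans e1)
      have e := dt_same_x (p := F iO) (q := F (iP 0)) (r := F (iQ 0)) (cP (Sum.inl ()))
        (cP (Sum.inr 0)) e3
      rw [e] at h3
      exact lt_irrefl _ h3

/-- A line of a pattern is a column. -/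
lemma line_rec {g : ℕ} {P : IP g → ℝ × ℝ} (hP : Injective P) (hPS : ∀ i, P i ∈ Ω.Sol T d)
    (hfr : IsFrame fun i => P (Sum.inl i)) (t : Fin g)
    (hcol : CollFam fun s => P (Sum.inr (t, s))) :
    ∃ q < Ω.Q, ∀ s, (P (Sum.inr (t, s))).1 = Ω.X q := by
  classical
  obtain ⟨c1, c2, -⟩ := frame_rec hT hd (F := fun i => P (Sum.inl i))
    (fun i j h => Sum.inl_injective (hP h)) (fun i => hPS _) hfr
  have hinj : Injective fun s => P (Sum.inr (t, s)) := by
    intro s s' h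
    have := hP h
    simpa using this
  rcases rich_fam hT hd (κ := Fin 16) (by simp) hinj (fun s => hPS _) hcol with h | h | h
  · exfalso
    -- seventeen points on the vertical line of the frame
    set f : (Unit ⊕ Fin 15) ⊕ Fin 16 → ℝ × ℝ :=
      Sum.elim (fP fun i => P (Sum.inl i)) (fun s => P (Sum.inr (t, s))) with hf
    have hfi : Injective f := by
      intro i j hij
      rcases i with (i | i) | i <;> rcases j with (j | j) | j
      · rfl
      all_goals
        simp only [hf, fP, Sum.elim_inl, Sum.elim_inr] at hij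
        have := hP hij
        simp [iO, iP] at this
      all_goals rw [this]
    have h1 := card_x0 hT hd (Finset.univ.image f) (by
        intro z hz
        obtain ⟨i, -, rfl⟩ := Finset.mem_image.1 hz
        rcases i with (i | i) | i <;> exact hPS _) (by
        intro z hz
        obtain ⟨i, -, rfl⟩ := Finset.mem_image.1 hz
        rcases i with i | i
        · exact c1 i
        · exact h i)
    rw [Finset.card_image_of_injective _ hfi, Finset.card_univ] at h1
    simp at h1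
  · exfalso
    set f : (Unit ⊕ Fin 15) ⊕ Fin 16 → ℝ × ℝ :=
      Sum.elim (fQ fun i => P (Sum.inl i)) (fun s => P (Sum.inr (t, s))) with hf
    have hfi : Injective f := by
      intro i j hij
      rcases i with (i | i) | i <;> rcases j with (j | j) | j
      · rfl
      all_goals
        simp only [hf, fQ, Sum.elim_inl, Sum.elim_inr] at hij
        have := hP hij
        simp [iO, iQ] at this
      all_goals rw [this]
    have h1 := card_Th hT hd (Finset.univ.image f) (by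
        intro z hz
        obtain ⟨i, -, rfl⟩ := Finset.mem_image.1 hz
        rcases i with (i | i) | i <;> exact hPS _) (by
        intro z hz
        obtain ⟨i, -, rfl⟩ := Finset.mem_image.1 hz
        rcases i with i | i
        · exact c2 i
        · exact h i)
    rw [Finset.card_image_of_injective _ hfi, Finset.card_univ] at h1
    simp at h1
  · exact h

lemma low_rec {g : ℕ} {P : IP g → ℝ × ℝ} (hP : Injective P) (hPS : ∀ i, P i ∈ Ω.Sol T d)
    (hfr : IsFrame fun i => P (Sum.inl i)) {y : ℝ × ℝ} (hy : Low (fun i => P (Sum.inl i)) y) :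
    y.2 < Ω.Th := by
  obtain ⟨c1, c2, c3⟩ := frame_rec hT hd (F := fun i => P (Sum.inl i))
    (fun i j h => Sum.inl_injective (hP h)) (fun i => hPS _) hfr
  unfold Low at hy
  rw [ori_eq_neg_one] at hy
  have e1 : (P (Sum.inl iO)).1 = Ω.x0 := c1 (Sum.inl ())
  have e2 : (P (Sum.inl iO)).2 = Ω.Th := c2 (Sum.inl ())
  have e3 : (P (Sum.inl (iQ 0))).2 = Ω.Th := c2 (Sum.inr 0)
  unfold dt at hy
  rw [e1, e2, e3, sub_self, mul_zero, sub_zero] at hy
  have e4 : (P (Sum.inl (iQ 0))).1 - Ω.x0 < 0 := by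
    have : (P (Sum.inl (iQ 0))).1 < Ω.x0 := c3
    linarith
  by_contra hcon
  push Not at hcon
  have := mul_nonpos_of_nonpos_of_nonneg e4.le (by linarith : 0 ≤ y.2 - Ω.Th)
  linarith

/-- Low points of a line of a pattern are the domain points. -/
lemma low_dom {y : ℝ × ℝ} (hy : y ∈ Ω.Sol T d) (hl : y.2 < Ω.Th) {q : ℕ} (hq : q < Ω.Q)
    (hyq : y.1 = Ω.X q) : q ∈ T ∧ y = Ω.dom q (d q) := by
  rcases Sol_X hT hd hy hq hyq with ⟨s, hs, rfl⟩ | h
  · exfalso
    have := Ω.Ya_gt q hq s hs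
    have h2 : Ω.Ya q s < Ω.Th := hl
    linarith
  · exact h

lemma free_C : Free PatC (Ω.Sol T d) := by
  rintro P hP hPS ⟨h1, h2, h3, h4⟩
  obtain ⟨q, hq, h5⟩ := line_rec hT hd hP hPS h1 0 h2
  have e0 := (low_dom hT hd (hPS _) (low_rec hT hd hP hPS h1 h3) hq (h5 0)).2
  have e1 := (low_dom hT hd (hPS _) (low_rec hT hd hP hPS h1 h4) hq (h5 1)).2
  have := hP (e0.trans e1.symm)
  simp at this

lemma free_B (hlink : ∀ l < Ω.L, Ω.col 0 l ∈ T → Ω.col 1 l ∈ T → Ω.col 2 l ∈ T →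
      dt (Ω.dom (Ω.col 0 l) (d (Ω.col 0 l))) (Ω.dom (Ω.col 1 l) (d (Ω.col 1 l)))
        (Ω.dom (Ω.col 2 l) (d (Ω.col 2 l))) = 0) : Free PatB (Ω.Sol T d) := by
  rintro P hP hPS ⟨h1, h2, h3, h4, h5⟩
  have hq : ∀ t : Fin 3, ∃ q < Ω.Q, ∀ s, (P (Sum.inr (t, s))).1 = Ω.X q :=
    fun t => line_rec hT hd hP hPS h1 t (h2 t)
  choose q hqQ hqX using hq
  have e0 : ∀ t, q t ∈ T ∧ P (Sum.inr (t, 0)) = Ω.dom (q t) (d (q t)) := fun t =>
    low_dom hT hd (hPS _) (low_rec hT hd hP hPS h1 (h3 t)) (hqQ t) (hqX t 0)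
  have hqi : ∀ t t', t ≠ t' → q t ≠ q t' := by
    intro t t' htt hqq
    have e1 := (e0 t).2
    have e2 := (e0 t').2
    rw [← hqq] at e2
    have := hP (e1.trans e2.symm)
    simp at this
    exact htt this
  have e1 : ∀ t, ∃ s < 15, P (Sum.inr (t, 1)) = Ω.anc (q t) s := by
    intro t
    rcases Sol_X hT hd (hPS (Sum.inr (t, 1))) (hqQ t) (hqX t 1) with h | ⟨-, h⟩
    · exact h
    · exfalso
      have := hP (h.trans (e0 t).2.symm)
      simp at this
  choose s hs e1 using e1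
  rw [ori_eq_zero, e1, e1, e1] at h4
  obtain ⟨r1, r2⟩ := Ω.anc_coll _ (hqQ 0) _ (hqQ 1) _ (hqQ 2) (hqi 0 1 (by decide))
    (hqi 0 2 (by decide)) (hqi 1 2 (by decide)) _ (hs 0) _ (hs 1) _ (hs 2) h4
  obtain ⟨hl, ta, hta, ea⟩ := Ω.row_col _ (hqQ 0) _ (hqQ 1) (hqi 0 1 (by decide)) _ (hs 0) _
    (hs 1) r1
  obtain ⟨-, tb, htb, eb⟩ := Ω.row_col _ (hqQ 1) _ (hqQ 0) (hqi 1 0 (by decide)) _ (hs 1) _
    (hs 0) r1.symm
  obtain ⟨-, tc, htc, ec⟩ := Ω.row_col _ (hqQ 2) _ (hqQ 0) (hqi 2 0 (by decide)) _ (hs 2) _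
    (hs 0) r2.symm
  rw [← r1] at eb
  rw [← r2] at ec
  set l := Ω.row (q 0) (s 0) with hldef
  have m1 : ta ≠ tb := fun h => hqi 0 1 (by decide) (ea.trans (h ▸ eb.symm))
  have m2 : ta ≠ tc := fun h => hqi 0 2 (by decide) (ea.trans (h ▸ ec.symm))
  have m3 : tb ≠ tc := fun h => hqi 1 2 (by decide) (eb.trans (h ▸ ec.symm))
  have k0 := (e0 0).1
  have k1 := (e0 1).1
  have k2 := (e0 2).1
  rw [Ne, ori_eq_zero, (e0 0).2, (e0 1).2, (e0 2).2] at h5
  apply h5
  have key := hlink l hl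
  rw [ea] at k0 ⊢
  rw [eb] at k1 ⊢
  rw [ec] at k2 ⊢
  have hperm : (ta = 0 ∧ tb = 1 ∧ tc = 2) ∨ (ta = 0 ∧ tb = 2 ∧ tc = 1) ∨
      (ta = 1 ∧ tb = 0 ∧ tc = 2) ∨ (ta = 1 ∧ tb = 2 ∧ tc = 0) ∨
      (ta = 2 ∧ tb = 0 ∧ tc = 1) ∨ (ta = 2 ∧ tb = 1 ∧ tc = 0) := by omega
  rcases hperm with ⟨ha, hb, hc⟩ | ⟨ha, hb, hc⟩ | ⟨ha, hb, hc⟩ | ⟨ha, hb, hc⟩ |
    ⟨ha, hb, hc⟩ | ⟨ha, hb, hc⟩ <;> rw [ha] at k0 ⊢ <;> rw [hb] at k1 ⊢ <;> rw [hc] at k2 ⊢
  · exact key k0 k1 k2
  · rw [dt_swap23, key k0 k2 k1, neg_zero]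
  · rw [dt_swap12, key k1 k0 k2, neg_zero]
  · rw [← dt_cyc, ← dt_cyc]
    exact key k2 k0 k1
  · rw [← dt_cyc]
    exact key k1 k2 k0
  · rw [dt_swap13, key k2 k1 k0, neg_zero]

end

end Design

end Pool.Agent.Obst
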