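import Pool.Agent.Obst.Num

/-!
# The concrete design attached to a graph
-/

namespace Pool.Agent.Obst

namespace Con

/-- abscissae -/
def XN (k q : ℕ) : ℕ :=
  if q < M k then 4 * (q + 1) + 16
  else if q < 2 * M k then 4 * (M k + 1) * (q - M k + 1) + 18
  else if q < 5 * M k then
    2 * ((q - 2 * M k) % M k + 1) +
      2 * (M k + 1) * (pi k ((q - 2 * M k) / M k) ((q - 2 * M k) % M k) + 1) + 17
  else 4 * (M k + 1) * (M k + 1) + q + 16

/-- rows of the anchors -/
def row (k q s : ℕ) : ℕ :=
  if q < M k ∧ s < 3 then s * M k + q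
  else if M k ≤ q ∧ q < 2 * M k ∧ s < 3 then s * M k + pinv k s (q - M k)
  else if 2 * M k ≤ q ∧ q < 5 * M k ∧ s = 0 then q - 2 * M k
  else 3 * M k + 15 * q + s

/-- heights of the anchors -/
def YaN (n k q s : ℕ) : ℕ := Th n k + 1 + H k (row k q s)

/-- classes of the columns -/
def clsN (k q : ℕ) : ℕ :=
  if q < M k then 0 else if q < 2 * M k then 1 else if q < 5 * M k then 2 + (q - 2 * M k) / M k
  else 0

/-- row used for the domain points -/
def rc (k q : ℕ) : ℕ :=
  if q < M k then q else if q < 2 * M k then q - M k else if q < 5 * M k then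
    pi k ((q - 2 * M k) / M k) ((q - 2 * M k) % M k)
  else q

/-- scale used for the domain points -/
def scale (n k q : ℕ) : ℕ :=
  if q < M k then 2 * N1 n k else if q < 2 * M k then 2 * N3 n k else if q < 5 * M k then N3 n k
  else 2 * N1 n k

/-- allowed domain points of the link columns -/
def val (n k : ℕ) (adj : ℕ → ℕ → Prop) (l d : ℕ) : Prop :=
  (l < M k ∧ l / k ≠ l % k ∧ adj (d / n) (d % n)) ∨ (¬ (l < M k ∧ l / k ≠ l % k) ∧ d = 0)

open Classical in
/-- perturbations of the domain points -/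
noncomputable def eps (n k : ℕ) (adj : ℕ → ℕ → Prop) (q d : ℕ) : ℕ :=
  if q < M k then (if d < n then 8 * vv n d else 8 * d + 1)
  else if q < 2 * M k then (if d < n then 8 * (VV n - vv n d) else 8 * d + 2)
  else if q < 5 * M k then N1 n k * H k ((q - 2 * M k) % M k) +
    (if val n k adj (q - 2 * M k) d then 4 * (VV n + vv n (d / n) - vv n (d % n)) else 4 * d + 2)
  else d

/-- heights of the domain points -/
noncomputable def YdN (n k : ℕ) (adj : ℕ → ℕ → Prop) (q d : ℕ) : ℕ :=
  scale n k q * H k (rc k q) + eps n k adj q d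

variable {n k : ℕ} {adj : ℕ → ℕ → Prop}

lemma M_pos (hk : 3 ≤ k) : 0 < M k := Nat.mul_pos (by omega) (by omega)

lemma Qc_ge (k : ℕ) : 5 * M k ≤ Qc k := by unfold Qc; omega

lemma l_div (hk : 3 ≤ k) {l : ℕ} (hl : l < 3 * M k) : l / M k < 3 :=
  Nat.div_lt_of_lt_mul (by rw [Nat.mul_comm]; exact hl)

lemma l_mod (hk : 3 ≤ k) (l : ℕ) : l % M k < M k := Nat.mod_lt _ (M_pos hk)

lemma l_eq (k l : ℕ) : l / M k * M k + l % M k = l := by
  rw [Nat.mul_comm]; exact Nat.div_add_mod l (M k)

lemma mul_le_aux {a b c : ℕ} (h : b ≤ c) : 4 * (a + 1) * b ≤ 4 * (a + 1) * c :=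
  Nat.mul_le_mul_left _ h

lemma XN_ge (k q : ℕ) : 16 ≤ XN k q := by
  unfold XN; split_ifs <;> omega

lemma XN_le (hk : 3 ≤ k) {q : ℕ} (hq : q < Qc k) : XN k q ≤ W k := by
  have hM := M_pos hk
  unfold XN W
  split_ifs with h1 h2 h3
  · have : 4 * (M k + 1) * 1 ≤ 4 * (M k + 1) * (M k + 1) := mul_le_aux (by omega)
    omega
  · have : 4 * (M k + 1) * (q - M k + 1) ≤ 4 * (M k + 1) * M k := mul_le_aux (by omega)
    have e : 4 * (M k + 1) * (M k + 1) = 4 * (M k + 1) * M k + 4 * (M k + 1) := by ring
    omega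
  · have h4 := l_mod hk (q - 2 * M k)
    have h5 := pi_lt (τ := (q - 2 * M k) / M k) (by omega : 0 < k) h4
    have h6 : 2 * (M k + 1) * (pi k ((q - 2 * M k) / M k) ((q - 2 * M k) % M k) + 1) ≤
        2 * (M k + 1) * M k := Nat.mul_le_mul_left _ (by omega)
    have e : 4 * (M k + 1) * (M k + 1) = 2 * (M k + 1) * M k + (2 * (M k + 1) * M k +
      4 * (M k + 1)) := by ring
    omega
  · omega

lemma XN_inj (hk : 3 ≤ k) {q q' : ℕ} (h : XN k q = XN k q') : q = q' := by
  have hM := M_pos hk
  have hM1 : 0 < M k + 1 := by omega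
  -- D3 part modulo 4
  have e1 : ∀ a, 4 * (M k + 1) * a = 4 * ((M k + 1) * a) := fun a => by ring
  have e2 : ∀ a, 2 * (M k + 1) * a = 2 * ((M k + 1) * a) := fun a => by ring
  have b3 : ∀ j, j < M k → (M k + 1) * (j + 1) ≤ (M k + 1) * M k :=
    fun j hj => Nat.mul_le_mul_left _ (by omega)
  have e3 : (M k + 1) * (M k + 1) = (M k + 1) * M k + (M k + 1) := by ring
  have hlm : ∀ l, l % M k < M k := fun l => l_mod hk l
  have hpi : ∀ l, pi k (l / M k) (l % M k) < M k := fun l => pi_lt (by omega) (hlm l)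
  unfold XN at h
  rw [e1, e1, e1, e2, e2] at h
  by_cases a1 : q < M k
  · rw [if_pos a1] at h
    by_cases b1 : q' < M k
    · rw [if_pos b1] at h; omega
    · rw [if_neg b1] at h
      by_cases b2 : q' < 2 * M k
      · rw [if_pos b2] at h; omega
      · rw [if_neg b2] at h
        by_cases b4 : q' < 5 * M k
        · rw [if_pos b4] at h; omega
        · rw [if_neg b4] at h
          omega
  · rw [if_neg a1] at h
    by_cases a2 : q < 2 * M k
    · rw [if_pos a2] at h
      by_cases b1 : q' < M k
      · rw [if_pos b1] at h; omega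
      · rw [if_neg b1] at h
        by_cases b2 : q' < 2 * M k
        · rw [if_pos b2] at h
          have h5 : (M k + 1) * (q - M k + 1) = (M k + 1) * (q' - M k + 1) := by omega
          have h6 := Nat.eq_of_mul_eq_mul_left hM1 h5
          omega
        · rw [if_neg b2] at h
          by_cases b4 : q' < 5 * M k
          · rw [if_pos b4] at h; omega
          · rw [if_neg b4] at h
            have := b3 (q - M k) (by omega)
            omega
    · rw [if_neg a2] at h
      by_cases a4 : q < 5 * M k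
      · rw [if_pos a4] at h
        by_cases b1 : q' < M k
        · rw [if_pos b1] at h; omega
        · rw [if_neg b1] at h
          by_cases b2 : q' < 2 * M k
          · rw [if_pos b2] at h; omega
          · rw [if_neg b2] at h
            by_cases b4 : q' < 5 * M k
            · rw [if_pos b4] at h
              set l := q - 2 * M k with hl
              set l' := q' - 2 * M k with hl'
              have g1 := hlm l
              have g2 := hlm l'
              have g3 := hpi l
              have g4 := hpi l'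
              set i := l % M k with hi
              set i' := l' % M k with hi'
              set j := pi k (l / M k) i with hj
              set j' := pi k (l' / M k) i' with hj'
              have h5 : (i + 1) + (M k + 1) * (j + 1) = (i' + 1) + (M k + 1) * (j' + 1) := by omega
              have h6 : j = j' := by
                rcases lt_trichotomy j j' with h7 | h7 | h7
                · exfalso
                  have : (M k + 1) * (j + 1 + 1) ≤ (M k + 1) * (j' + 1) :=
                    Nat.mul_le_mul_left _ (by omega)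
                  have e4 : (M k + 1) * (j + 1 + 1) = (M k + 1) * (j + 1) + (M k + 1) := by ring
                  omega
                · exact h7
                · exfalso
                  have : (M k + 1) * (j' + 1 + 1) ≤ (M k + 1) * (j + 1) :=
                    Nat.mul_le_mul_left _ (by omega)
                  have e4 : (M k + 1) * (j' + 1 + 1) = (M k + 1) * (j' + 1) + (M k + 1) := by ring
                  omega
              have h7 : i = i' := by rw [h6] at h5; omega
              have hll : l < 3 * M k := by omega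
              have hll' : l' < 3 * M k := by omega
              have h8 : l / M k = l' / M k := by
                apply pi_ne hk (l_div hk hll) (l_div hk hll') g1
                rw [← hj, h6, hj', h7]
              have h9 := l_eq k l
              have h10 := l_eq k l'
              rw [← hi, h8, h7] at h9
              rw [← hi'] at h10
              omega
            · rw [if_neg b4] at h
              have := b3 _ (hpi (q - 2 * M k))
              have := hlm (q - 2 * M k)
              omega
      · rw [if_neg a4] at h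
        by_cases b1 : q' < M k
        · rw [if_pos b1] at h; omega
        · rw [if_neg b1] at h
          by_cases b2 : q' < 2 * M k
          · rw [if_pos b2] at h
            have := b3 (q' - M k) (by omega)
            omega
          · rw [if_neg b2] at h
            by_cases b4 : q' < 5 * M k
            · rw [if_pos b4] at h
              have := b3 _ (hpi (q' - 2 * M k))
              have := hlm (q' - 2 * M k)
              omega
            · rw [if_neg b4] at h; omega

/-- columns of a link -/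
def col (k t l : ℕ) : ℕ :=
  if t = 0 then l % M k else if t = 1 then M k + pi k (l / M k) (l % M k) else 2 * M k + l

/-- slots of a link -/
def slot (k t l : ℕ) : ℕ := if t = 2 then 0 else l / M k

lemma row_lt (hk : 3 ≤ k) {q s : ℕ} (hq : q < Qc k) (hs : s < 15) : row k q s < R k := by
  have hM := M_pos hk
  unfold row R
  split_ifs with h1 h2 h3
  · have : s * M k ≤ 2 * M k := Nat.mul_le_mul_right _ (by omega)
    omega
  · have : s * M k ≤ 2 * M k := Nat.mul_le_mul_right _ (by omega)
    have := pinv_lt (τ := s) (by omega : 0 < k) (by omega : q - M k < M k)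
    omega
  · omega
  · omega

/-- Rows with small numbers are those of the links. -/
lemma row_cases (hk : 3 ≤ k) (q s : ℕ) : (row k q s < 3 * M k ∧ ∃ t < 3, q = col k t (row k q s) ∧
    s = slot k t (row k q s)) ∨ row k q s = 3 * M k + 15 * q + s := by
  have hM := M_pos hk
  unfold row
  split_ifs with h1 h2 h3
  · left
    have e1 : (s * M k + q) % M k = q := mod_aux h1.1
    have e2 : (s * M k + q) / M k = s := div_aux h1.1
    have : s * M k ≤ 2 * M k := Nat.mul_le_mul_right _ (by omega)
    refine ⟨by omega, 0, by omega, ?_, ?_⟩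
    · simp [col, e1]
    · simp [slot, e2]
  · left
    have h4 := pinv_lt (τ := s) (by omega : 0 < k) (by omega : q - M k < M k)
    have e1 : (s * M k + pinv k s (q - M k)) % M k = pinv k s (q - M k) := mod_aux h4
    have e2 : (s * M k + pinv k s (q - M k)) / M k = s := div_aux h4
    have : s * M k ≤ 2 * M k := Nat.mul_le_mul_right _ (by omega)
    refine ⟨by omega, 1, by omega, ?_, ?_⟩
    · have e3 := pi_pinv hk h2.2.2 (by omega : q - M k < M k)
      simp only [col, e1, e2, e3]
      simp
      omega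
    · simp [slot, e2]
  · left
    refine ⟨by omega, 2, by omega, ?_, ?_⟩
    · simp [col]; omega
    · simp [slot]; omega
  · right; rfl

lemma row_link (hk : 3 ≤ k) {l : ℕ} (hl : l < 3 * M k) {t : ℕ} (ht : t < 3) :
    row k (col k t l) (slot k t l) = l := by
  have hM := M_pos hk
  have h1 := l_mod hk l
  have h2 := l_div hk hl
  have h3 := l_eq k l
  have h4 := pi_lt (τ := l / M k) (by omega : 0 < k) h1
  interval_cases t
  · have e1 : col k 0 l = l % M k := by simp [col]
    have e2 : slot k 0 l = l / M k := by simp [slot]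
    rw [e1, e2]
    unfold row
    rw [if_pos ⟨h1, h2⟩]
    exact h3
  · have e1 : col k 1 l = M k + pi k (l / M k) (l % M k) := by simp [col]
    have e2 : slot k 1 l = l / M k := by simp [slot]
    rw [e1, e2]
    unfold row
    rw [if_neg (by omega), if_pos ⟨by omega, by omega, h2⟩, Nat.add_sub_cancel_left,
      pinv_pi hk h2 h1]
    exact h3
  · have e1 : col k 2 l = 2 * M k + l := by simp [col]
    have e2 : slot k 2 l = 0 := by simp [slot]
    rw [e1, e2]
    unfold row
    rw [if_neg (by omega), if_neg (by omega), if_pos ⟨by omega, by omega, rfl⟩]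
    omega

lemma col_lt (hk : 3 ≤ k) {l : ℕ} (hl : l < 3 * M k) (t : ℕ) : col k t l < Qc k := by
  have hM := M_pos hk
  have h1 := l_mod hk l
  have h4 := pi_lt (τ := l / M k) (by omega : 0 < k) h1
  have h5 := Qc_ge k
  unfold col
  split_ifs <;> omega

lemma col_ne (hk : 3 ≤ k) {l : ℕ} {t t' : ℕ} (ht : t < 3) (ht' : t' < 3) (h : t ≠ t') :
    col k t l ≠ col k t' l := by
  have hM := M_pos hk
  have h1 := l_mod hk l
  have h4 := pi_lt (τ := l / M k) (by omega : 0 < k) h1
  unfold col
  split_ifs <;> omega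

lemma slot_lt (hk : 3 ≤ k) {l : ℕ} (hl : l < 3 * M k) (t : ℕ) : slot k t l < 15 := by
  have := l_div hk hl
  unfold slot
  split_ifs <;> omega

lemma row_inj (hk : 3 ≤ k) {q s s' : ℕ} (h : row k q s = row k q s') : s = s' := by
  rcases row_cases hk q s with ⟨h1, t, ht, h2, h3⟩ | h1 <;>
    rcases row_cases hk q s' with ⟨h1', t', ht', h2', h3'⟩ | h1'
  · rw [h] at h2 h3
    have : t = t' := by
      by_contra hne
      exact col_ne hk ht ht' hne (h2.symm.trans h2')
    subst this
    exact h3.trans h3'.symm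
  · omega
  · omega
  · omega

lemma clsN_lt (hk : 3 ≤ k) (q : ℕ) : clsN k q < 5 := by
  unfold clsN
  split_ifs with h1 h2 h3
  · omega
  · omega
  · have := l_div hk (by omega : q - 2 * M k < 3 * M k)
    omega
  · omega

lemma rc_lt (hk : 3 ≤ k) {q : ℕ} (hq : q < Qc k) : rc k q < R k := by
  have hM := M_pos hk
  unfold rc R
  split_ifs with h1 h2 h3
  · omega
  · omega
  · have := pi_lt (τ := (q - 2 * M k) / M k) (by omega : 0 < k) (l_mod hk (q - 2 * M k))
    omega
  · omega

/-- The four kinds of columns. -/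
lemma kind_cases (n k q : ℕ) :
    (q < M k ∧ clsN k q = 0 ∧ scale n k q = 2 * N1 n k ∧ rc k q = q) ∨
    (M k ≤ q ∧ q < 2 * M k ∧ clsN k q = 1 ∧ scale n k q = 2 * N3 n k ∧ rc k q = q - M k) ∨
    (2 * M k ≤ q ∧ q < 5 * M k ∧ (2 ≤ clsN k q ∧ clsN k q = 2 + (q - 2 * M k) / M k) ∧
      scale n k q = N3 n k ∧ rc k q = pi k ((q - 2 * M k) / M k) ((q - 2 * M k) % M k)) ∨
    (2 * M k ≤ q ∧ 5 * M k ≤ q ∧ clsN k q = 0 ∧ scale n k q = 2 * N1 n k ∧ rc k q = q) := by
  unfold clsN scale rc
  by_cases a1 : q < M k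
  · left
    rw [if_pos a1, if_pos a1, if_pos a1]
    exact ⟨a1, rfl, rfl, rfl⟩
  · by_cases a2 : q < 2 * M k
    · right; left
      rw [if_neg a1, if_neg a1, if_neg a1, if_pos a2, if_pos a2, if_pos a2]
      exact ⟨by omega, a2, rfl, rfl, rfl⟩
    · by_cases a3 : q < 5 * M k
      · right; right; left
        rw [if_neg a1, if_neg a1, if_neg a1, if_neg a2, if_neg a2, if_neg a2, if_pos a3,
          if_pos a3, if_pos a3]
        exact ⟨by omega, a3, ⟨Nat.le_add_right _ _, rfl⟩, rfl, rfl⟩
      · right; right; right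
        rw [if_neg a1, if_neg a1, if_neg a1, if_neg a2, if_neg a2, if_neg a2, if_neg a3,
          if_neg a3, if_neg a3]
        exact ⟨by omega, by omega, rfl, rfl, rfl⟩

/-- scale and perturbation bound of a class -/
lemma class_data (hk : 3 ≤ k) {q q' : ℕ} (h : clsN k q = clsN k q') :
    scale n k q = scale n k q' ∧ (rc k q = rc k q' → q = q') := by
  have hM := M_pos hk
  have hlm : ∀ l, l % M k < M k := fun l => l_mod hk l
  rcases kind_cases n k q with ⟨a1, a3, a4, a5⟩ | ⟨a1, a2, a3, a4, a5⟩ | ⟨a1, a2, a3, a4, a5⟩ |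
    ⟨a1, a2, a3, a4, a5⟩ <;>
  rcases kind_cases n k q' with ⟨b1, b3, b4, b5⟩ | ⟨b1, b2, b3, b4, b5⟩ |
    ⟨b1, b2, b3, b4, b5⟩ | ⟨b1, b2, b3, b4, b5⟩
  · exact ⟨by rw [a4, b4], fun h => by omega⟩
  · omega
  · omega
  · exact ⟨by rw [a4, b4], fun h => by omega⟩
  · omega
  · exact ⟨by rw [a4, b4], fun h => by omega⟩
  · omega
  · omega
  · omega
  · omega
  · refine ⟨by rw [a4, b4], fun h5 => ?_⟩
    rw [a5, b5] at h5
    have h6 : (q - 2 * M k) / M k = (q' - 2 * M k) / M k := by
      have h61 := a3.2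
      have h62 := b3.2
      generalize (q - 2 * M k) / M k = u at h61 ⊢
      generalize (q' - 2 * M k) / M k = u' at h62 ⊢
      omega
    rw [h6] at h5
    have hl' := l_div hk (by omega : q' - 2 * M k < 3 * M k)
    have h7 : (q - 2 * M k) % M k = (q' - 2 * M k) % M k := by
      rw [← pinv_pi hk hl' (hlm (q - 2 * M k)), h5, pinv_pi hk hl' (hlm _)]
    have h9 := l_eq k (q - 2 * M k)
    have h10 := l_eq k (q' - 2 * M k)
    rw [h6, h7] at h9
    omega
  · omega
  · exact ⟨by rw [a4, b4], fun h => by omega⟩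
  · omega
  · omega
  · exact ⟨by rw [a4, b4], fun h => by omega⟩

lemma eps_small_le (hn : 0 < n) {d : ℕ} (hd : d < n * n) :
    8 * (VV n) ≤ E1 n ∧ 8 * d + 2 ≤ E1 n ∧ (4 * (VV n + vv n (d / n) - vv n (d % n)) ≤ E1 n) := by
  unfold E1
  have h1 : d / n < n := Nat.div_lt_of_lt_mul hd
  have h2 := vv_le h1
  omega

/-- Bounds for the perturbations. -/
lemma eps_le (hk : 3 ≤ k) (hn : 0 < n) {q d : ℕ} (hd : d < n * n) :
    ∃ E, eps n k adj q d ≤ E ∧ 2 * W k * E < scale n k q ∧
      E ≤ N1 n k * HM k + E1 n ∧ (∀ q', clsN k q' = clsN k q → ∀ d' < n * n,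
        eps n k adj q' d' ≤ E) := by
  classical
  have hM := M_pos hk
  have key1 : ∀ q, (q < 2 * M k ∨ 5 * M k ≤ q) → ∀ d < n * n, eps n k adj q d ≤ E1 n := by
    intro q hq d hd
    obtain ⟨h1, h2, h3⟩ := eps_small_le hn hd
    unfold eps
    split_ifs with a1 a2 a3 a4 a5
    · have := vv_le a2
      omega
    · omega
    · omega
    · omega
    · omega
    · omega
    · unfold E1
      omega
  have key2 : ∀ q, 2 * M k ≤ q → q < 5 * M k → ∀ d < n * n,
      eps n k adj q d ≤ N1 n k * HM k + E1 n := by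
    intro q hq hq' d hd
    obtain ⟨h1, h2, h3⟩ := eps_small_le hn hd
    have h4 : N1 n k * H k ((q - 2 * M k) % M k) ≤ N1 n k * HM k := by
      apply Nat.mul_le_mul_left
      apply H_le
      have := l_mod hk (q - 2 * M k)
      have := Qc_ge k
      unfold R
      omega
    unfold eps
    rw [if_neg (by omega), if_neg (by omega), if_pos hq']
    split_ifs
    · omega
    · omega
  have hcl : ∀ q q', clsN k q' = clsN k q → (q < 2 * M k ∨ 5 * M k ≤ q) →
      (q' < 2 * M k ∨ 5 * M k ≤ q') := by
    intro q q' h hq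
    rcases kind_cases n k q with ⟨a1, a3, a4, a5⟩ | ⟨a1, a2, a3, a4, a5⟩ |
      ⟨a1, a2, a3, a4, a5⟩ | ⟨a1, a2, a3, a4, a5⟩ <;>
    rcases kind_cases n k q' with ⟨b1, b3, b4, b5⟩ | ⟨b1, b2, b3, b4, b5⟩ |
      ⟨b1, b2, b3, b4, b5⟩ | ⟨b1, b2, b3, b4, b5⟩ <;> omega
  have hcl2 : ∀ q q', clsN k q' = clsN k q → (2 * M k ≤ q ∧ q < 5 * M k) →
      (2 * M k ≤ q' ∧ q' < 5 * M k) := by
    intro q q' h hq
    rcases kind_cases n k q with ⟨a1, a3, a4, a5⟩ | ⟨a1, a2, a3, a4, a5⟩ |
      ⟨a1, a2, a3, a4, a5⟩ | ⟨a1, a2, a3, a4, a5⟩ <;>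
    rcases kind_cases n k q' with ⟨b1, b3, b4, b5⟩ | ⟨b1, b2, b3, b4, b5⟩ |
      ⟨b1, b2, b3, b4, b5⟩ | ⟨b1, b2, b3, b4, b5⟩ <;> omega
  by_cases hq : q < 2 * M k ∨ 5 * M k ≤ q
  · refine ⟨E1 n, key1 q hq d hd, ?_, by omega, ?_⟩
    · unfold scale
      split_ifs with a1 a2 a3
      · unfold N1
        have e : 2 * (W k * E1 n + 1) = 2 * W k * E1 n + 2 := by ring
        omega
      · unfold N3
        have e : 2 * (2 * W k * (N1 n k * HM k + E1 n) + 1) =
          2 * W k * E1 n + (2 * W k * E1 n + 4 * W k * (N1 n k * HM k) + 2) := by ring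
        omega
      · omega
      · unfold N1
        have e : 2 * (W k * E1 n + 1) = 2 * W k * E1 n + 2 := by ring
        omega
    · intro q' hq' d' hd'
      exact key1 q' (hcl q q' hq' hq) d' hd'
  · push Not at hq
    refine ⟨N1 n k * HM k + E1 n, key2 q hq.1 hq.2 d hd, ?_, le_rfl, ?_⟩
    · unfold scale
      rw [if_neg (by omega), if_neg (by omega), if_pos hq.2]
      unfold N3
      omega
    · intro q' hq' d' hd'
      obtain ⟨h1, h2⟩ := hcl2 q q' hq' hq
      exact key2 q' h1 h2 d' hd'

lemma YdN_lt (hk : 3 ≤ k) (hn : 0 < n) {q d : ℕ} (hq : q < Qc k) (hd : d < n * n) :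
    YdN n k adj q d < Th n k := by
  classical
  have hr : H k (rc k q) ≤ HM k := H_le (rc_lt hk hq).le
  obtain ⟨E, h1, -, h2, -⟩ := eps_le (adj := adj) hk hn (q := q) hd
  have h3 : scale n k q * H k (rc k q) + eps n k adj q d ≤
      2 * N1 n k * HM k + 2 * N3 n k * HM k + E1 n := by
    by_cases hmid : 2 * M k ≤ q ∧ q < 5 * M k
    · have e : scale n k q = N3 n k := by
        unfold scale
        rw [if_neg (by omega), if_neg (by omega), if_pos hmid.2]
      rw [e]
      have h4 : N3 n k * H k (rc k q) ≤ N3 n k * HM k := Nat.mul_le_mul_left _ hr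
      have e1 : 2 * N1 n k * HM k = N1 n k * HM k + N1 n k * HM k := by ring
      have e2 : 2 * N3 n k * HM k = N3 n k * HM k + N3 n k * HM k := by ring
      omega
    · have h5 : eps n k adj q d ≤ E1 n := by
        obtain ⟨g1, g2, g3⟩ := eps_small_le hn hd
        unfold eps
        split_ifs with a1 a2 a3 a4 a5
        · have := vv_le a2
          omega
        · omega
        · omega
        · omega
        · omega
        · omega
        · unfold E1
          omega
      have h6 : scale n k q ≤ 2 * N1 n k ∨ scale n k q ≤ 2 * N3 n k := by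
        unfold scale
        split_ifs <;> omega
      rcases h6 with h6 | h6
      · have : scale n k q * H k (rc k q) ≤ 2 * N1 n k * HM k := Nat.mul_le_mul h6 hr
        omega
      · have : scale n k q * H k (rc k q) ≤ 2 * N3 n k * HM k := Nat.mul_le_mul h6 hr
        omega
  unfold YdN Th
  omega

/-- Irreflexivity of the adjacency used. -/
def Irr (n : ℕ) (adj : ℕ → ℕ → Prop) : Prop := ∀ a < n, ¬ adj a a

lemma YdN_inj (hk : 3 ≤ k) (hn : 0 < n) (hirr : Irr n adj) {q d d' : ℕ}
    (hd : d < n * n) (hd' : d' < n * n) (h : YdN n k adj q d = YdN n k adj q d') : d = d' := by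
  classical
  unfold YdN at h
  have h1 : eps n k adj q d = eps n k adj q d' := by omega
  unfold eps at h1
  have hdn : d / n < n := Nat.div_lt_of_lt_mul hd
  have hdn' : d' / n < n := Nat.div_lt_of_lt_mul hd'
  have hdm : d % n < n := Nat.mod_lt _ hn
  have hdm' : d' % n < n := Nat.mod_lt _ hn
  by_cases a1 : q < M k
  · rw [if_pos a1, if_pos a1] at h1
    split_ifs at h1 with a b b
    · exact vv_inj (n := n) (by omega)
    · omega
    · omega
    · omega
  · rw [if_neg a1, if_neg a1] at h1
    by_cases a2 : q < 2 * M k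
    · rw [if_pos a2, if_pos a2] at h1
      split_ifs at h1 with a b b
      · have := vv_le a
        have := vv_le b
        exact vv_inj (n := n) (by omega)
      · omega
      · omega
      · omega
    · rw [if_neg a2, if_neg a2] at h1
      by_cases a3 : q < 5 * M k
      · rw [if_pos a3, if_pos a3] at h1
        split_ifs at h1 with a b b
        · have l1 := vv_le hdn
          have l2 := vv_le hdn'
          have l3 := vv_le hdm
          have l4 := vv_le hdm'
          rcases a with ⟨c1, c2, c3⟩ | ⟨c1, c2⟩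
          · rcases b with ⟨-, -, e3⟩ | ⟨e1, -⟩
            · have hne : d' / n ≠ d' % n := by
                intro hh
                rw [hh] at e3
                exact hirr _ hdm' e3
              obtain ⟨g1, g2⟩ := vv_gol hdn hdm hdn' hdm' hne (by omega)
              rw [← Nat.div_add_mod d n, ← Nat.div_add_mod d' n, g1, g2]
            · exact absurd ⟨c1, c2⟩ e1
          · rcases b with ⟨e1, e2, -⟩ | ⟨-, e2⟩
            · exact absurd ⟨e1, e2⟩ c1
            · rw [c2, e2]
        · omega
        · omega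
        · omega
      · rw [if_neg a3, if_neg a3] at h1
        exact h1

lemma dt_cast (x1 y1 x2 y2 x3 y3 : ℕ) :
    dt ((x1 : ℝ), (y1 : ℝ)) ((x2 : ℝ), (y2 : ℝ)) ((x3 : ℝ), (y3 : ℝ)) =
      ((((x2 : ℤ) - x1) * ((y3 : ℤ) - y1) - ((x3 : ℤ) - x1) * ((y2 : ℤ) - y1) : ℤ) : ℝ) := by
  unfold dt
  push_cast
  ring

lemma X_diff (hk : 3 ≤ k) {q q' : ℕ} (hq : q < Qc k) (hq' : q' < Qc k) (h : q ≠ q') :
    (XN k q' : ℤ) - XN k q ≠ 0 ∧ |(XN k q' : ℤ) - XN k q| ≤ W k := by
  constructor
  · intro h0
    exact h (XN_inj hk (by omega))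
  · exact natd (XN_le hk hq') (XN_le hk hq)

/-- The design. -/
noncomputable def des (n k : ℕ) (adj : ℕ → ℕ → Prop) (hk : 3 ≤ k) (hn : 0 < n)
    (hirr : Irr n adj) : Design where
  Q := Qc k
  D := n * n
  L := 3 * M k
  col := col k
  slot := slot k
  x0 := 15
  Th := Th n k
  X q := XN k q
  Ya q s := YaN n k q s
  Yd q d := YdN n k adj q d
  row := row k
  cls := clsN k
  X_inj := by
    intro q _ q' _ h
    exact XN_inj hk (by exact_mod_cast h)
  X_gt := by
    intro q _
    have := XN_ge k q
    have h2 : (16 : ℝ) ≤ XN k q := by exact_mod_cast this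
    linarith
  Ya_gt := by
    intro q _ s _
    have : Th n k < YaN n k q s := by unfold YaN; omega
    exact_mod_cast this
  Ya_inj := by
    intro q _ s _ s' _ h
    have h1 : YaN n k q s = YaN n k q s' := by exact_mod_cast h
    unfold YaN at h1
    have h2 : H k (row k q s) = H k (row k q s') := by omega
    exact row_inj hk (H_inj h2)
  Yd_lt := by
    intro q hq d hd
    have := YdN_lt (adj := adj) hk hn hq hd
    exact_mod_cast this
  Yd_inj := by
    intro q hq d hd d' hd' h
    exact YdN_inj hk hn hirr hd hd' (by exact_mod_cast h)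
  anc_coll := by
    intro q₁ hq₁ q₂ hq₂ q₃ hq₃ h12 h13 h23 s₁ hs₁ s₂ hs₂ s₃ hs₃ h
    rw [dt_cast, Int.cast_eq_zero] at h
    obtain ⟨hA, hA'⟩ := X_diff hk hq₁ hq₂ h12
    obtain ⟨hB, hB'⟩ := X_diff hk hq₁ hq₃ h13
    obtain ⟨hC, -⟩ := X_diff hk hq₂ hq₃ h23
    have hY : ∀ q s, ((YaN n k q s : ℕ) : ℤ) = Th n k + 1 + H k (row k q s) := by
      intro q s; unfold YaN; push_cast; ring
    rw [hY, hY, hY] at h
    set A : ℤ := (XN k q₂ : ℤ) - XN k q₁ with hAd
    set B : ℤ := (XN k q₃ : ℤ) - XN k q₁ with hBd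
    have h0 : A * ((H k (row k q₃ s₃) : ℤ) - H k (row k q₁ s₁)) -
        B * ((H k (row k q₂ s₂) : ℤ) - H k (row k q₁ s₁)) = 0 := by
      linarith
    have hAB : A - B ≠ 0 := by
      intro h5
      apply hC
      rw [hAd, hBd] at h5
      linarith
    by_cases e1 : row k q₁ s₁ = row k q₂ s₂
    · refine ⟨e1, ?_⟩
      rw [← e1, sub_self, mul_zero, sub_zero] at h0
      rcases mul_eq_zero.1 h0 with h5 | h5
      · exact absurd h5 hA
      · have h6 : H k (row k q₁ s₁) = H k (row k q₃ s₃) := by omega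
        exact H_inj h6
    · exfalso
      by_cases e2 : row k q₂ s₂ = row k q₃ s₃
      · rw [← e2] at h0
        have h6 : (A - B) * ((H k (row k q₂ s₂) : ℤ) - H k (row k q₁ s₁)) = 0 := by linarith
        rcases mul_eq_zero.1 h6 with h5 | h5
        · exact hAB h5
        · have h7 : H k (row k q₁ s₁) = H k (row k q₂ s₂) := by omega
          exact e1 (H_inj h7)
      · exact H_gen (row_lt hk hq₁ hs₁) (row_lt hk hq₂ hs₂) (row_lt hk hq₃ hs₃) e1 e2 hA hB
          hA' hB' h0
  row_col := by
    intro q hq q' hq' hne s hs s' hs' h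
    rcases row_cases hk q s with ⟨h1, t, ht, h2, -⟩ | h1
    · exact ⟨h1, t, ht, h2⟩
    · exfalso
      rcases row_cases hk q' s' with ⟨h1', -⟩ | h1'
      · omega
      · omega
  col_lt := fun l hl t _ => col_lt hk hl t
  col_ne := fun l _ t ht t' ht' h => col_ne hk ht ht' h
  slot_lt := fun l hl t _ => slot_lt hk hl t
  link_coll := by
    intro l hl
    have e : ∀ t < 3, YaN n k (col k t l) (slot k t l) = Th n k + 1 + H k l := by
      intro t ht
      unfold YaN
      rw [row_link hk hl ht]
    rw [e 0 (by omega), e 1 (by omega), e 2 (by omega)]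
    unfold dt
    ring
  cls_lt := fun q _ => clsN_lt hk q
  cls_gen := by
    intro q₁ hq₁ q₂ hq₂ q₃ hq₃ h12 h13 h23 c12 c13 d₁ hd₁ d₂ hd₂ d₃ hd₃ h
    rw [dt_cast, Int.cast_eq_zero] at h
    obtain ⟨hA, hA'⟩ := X_diff hk hq₁ hq₂ h12
    obtain ⟨hB, hB'⟩ := X_diff hk hq₁ hq₃ h13
    obtain ⟨s12, r12⟩ := class_data (n := n) hk c12
    obtain ⟨s13, r13⟩ := class_data (n := n) hk c13
    obtain ⟨-, r23⟩ := class_data (n := n) hk (c12.symm.trans c13)
    obtain ⟨E, hE1, hE2, -, hE3⟩ := eps_le (adj := adj) hk hn (q := q₁) hd₁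
    refine cls_gen (rc_lt hk hq₁) (rc_lt hk hq₂) (rc_lt hk hq₃) (fun h => h12 (r12 h))
      (fun h => h23 (r23 h)) hA hB hA' hB' hE2 hE1 (hE3 q₂ c12.symm d₂ hd₂)
      (hE3 q₃ c13.symm d₃ hd₃) ?_
    have e1 : YdN n k adj q₁ d₁ = scale n k q₁ * H k (rc k q₁) + eps n k adj q₁ d₁ := rfl
    have e2 : YdN n k adj q₂ d₂ = scale n k q₁ * H k (rc k q₂) + eps n k adj q₂ d₂ := by
      rw [s12]; rfl
    have e3 : YdN n k adj q₃ d₃ = scale n k q₁ * H k (rc k q₃) + eps n k adj q₃ d₃ := by
      rw [s13]; rfl
    rw [e1, e2, e3] at h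
    exact h

end Con

end Pool.Agent.Obst
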