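import Mathlib

/-!
# Configurations, instances, obstacles
-/

namespace Pool.Agent.Obst

/-- The orientation of three points of the plane. -/
noncomputable def ori (p₁ p₂ p₃ : ℝ × ℝ) : SignType :=
  - SignType.sign (p₁.1 * p₂.2 - p₁.1 * p₃.2 + p₂.1 * p₃.2 - p₂.1 * p₁.2 + p₃.1 * p₁.2
    - p₃.1 * p₂.2)

/-- A configuration: a finite set of points of the plane. -/
abbrev Config : Type := Finset (ℝ × ℝ)

/-- `T` is a subconfiguration of `S`: there is an instance of `T` in `S`, that is, an injective
map from `T` to `S` which preserves all orientations. -/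
def HasInstance (T S : Config) : Prop :=
  ∃ φ : T → S, Function.Injective φ ∧ ∀ a b c : T, ori (φ a) (φ b) (φ c) = ori a b c

/-- `S` avoids all the obstacles. -/
def Avoids (Obs : Finset Config) (S : Config) : Prop := ∀ C ∈ Obs, ¬ HasInstance C S

open Classical in
/-- `AVOIDS(C₁, …, C_m; S)`: the largest number of points in a subset of `S` that avoids the
obstacles. -/
noncomputable def AVOIDS (Obs : Finset Config) (S : Config) : ℕ :=
  (S.powerset.filter fun S' => Avoids Obs S').sup Finset.card

end Pool.Agent.Obst
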