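import Pool.Agent.Obst.Pattern

/-!
# The three patterns, and abstract designs
-/

namespace Pool.Agent.Obst

open Function

/-- A collinear family of points. -/
def CollFam {κ : Type} (f : κ → ℝ × ℝ) : Prop := ∀ i j l, ori (f i) (f j) (f l) = 0

/-- Index set of a frame: a corner and `15` further points on each of two lines. -/
abbrev IF : Type := Unit ⊕ (Fin 15 ⊕ Fin 15)

/-- Index set of a frame and `g` lines with `16` points. -/
abbrev IP (g : ℕ) : Type := IF ⊕ (Fin g × Fin 16)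

/-- The index of the corner. -/
def iO : IF := Sum.inl ()
/-- The indices on the first line. -/
def iP (t : Fin 15) : IF := Sum.inr (Sum.inl t)
/-- The indices on the second line. -/
def iQ (t : Fin 15) : IF := Sum.inr (Sum.inr t)

/-- The first line of the frame. -/
def fP (F : IF → ℝ × ℝ) : Unit ⊕ Fin 15 → ℝ × ℝ := Sum.elim (fun _ => F iO) (fun t => F (iP t))
/-- The second line of the frame. -/
def fQ (F : IF → ℝ × ℝ) : Unit ⊕ Fin 15 → ℝ × ℝ := Sum.elim (fun _ => F iO) (fun t => F (iQ t))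

/-- The family is a frame. -/
def IsFrame (F : IF → ℝ × ℝ) : Prop :=
  CollFam (fP F) ∧ CollFam (fQ F) ∧ ori (F iO) (F (iP 0)) (F (iQ 0)) = -1

/-- The point is on the low side of the second line of the frame. -/
def Low (F : IF → ℝ × ℝ) (y : ℝ × ℝ) : Prop := ori (F iO) (F (iQ 0)) y = -1

/-- Seventeen collinear points. -/
def PatA (P : Fin 17 → ℝ × ℝ) : Prop := CollFam P

/-- A frame and a line with two low points. -/
def PatC (P : IP 1 → ℝ × ℝ) : Prop :=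
  IsFrame (fun i => P (Sum.inl i)) ∧ CollFam (fun s => P (Sum.inr (0, s))) ∧
    Low (fun i => P (Sum.inl i)) (P (Sum.inr (0, 0))) ∧
    Low (fun i => P (Sum.inl i)) (P (Sum.inr (0, 1)))

/-- A frame and three lines whose points number `0` are low and not collinear, and whose points
number `1` are collinear. -/
def PatB (P : IP 3 → ℝ × ℝ) : Prop :=
  IsFrame (fun i => P (Sum.inl i)) ∧ (∀ t, CollFam (fun s => P (Sum.inr (t, s)))) ∧
    (∀ t, Low (fun i => P (Sum.inl i)) (P (Sum.inr (t, 0)))) ∧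
    ori (P (Sum.inr (0, 1))) (P (Sum.inr (1, 1))) (P (Sum.inr (2, 1))) = 0 ∧
    ori (P (Sum.inr (0, 0))) (P (Sum.inr (1, 0))) (P (Sum.inr (2, 0))) ≠ 0

lemma oriF_apply {ι : Type} {P P' : ι → ℝ × ℝ} (h : oriF P = oriF P') (i j l : ι) :
    ori (P' i) (P' j) (P' l) = ori (P i) (P j) (P l) :=
  (congrFun (congrFun (congrFun h i) j) l).symm

lemma inv_A : OriInv PatA := by
  intro P P' h hP i j l
  rw [oriF_apply h]; exact hP i j l

lemma inv_frame {g : ℕ} {P P' : IP g → ℝ × ℝ} (h : oriF P = oriF P')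
    (hP : IsFrame fun i => P (Sum.inl i)) : IsFrame fun i => P' (Sum.inl i) := by
  obtain ⟨h1, h2, h3⟩ := hP
  refine ⟨?_, ?_, ?_⟩
  · intro i j l
    have := h1 i j l
    rcases i with i | i <;> rcases j with j | j <;> rcases l with l | l <;>
      · simp only [fP, Sum.elim_inl, Sum.elim_inr] at this ⊢
        rw [oriF_apply h]; exact this
  · intro i j l
    have := h2 i j l
    rcases i with i | i <;> rcases j with j | j <;> rcases l with l | l <;>
      · simp only [fQ, Sum.elim_inl, Sum.elim_inr] at this ⊢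
        rw [oriF_apply h]; exact this
  · rw [oriF_apply h]; exact h3

lemma inv_C : OriInv PatC := by
  intro P P' h hP
  obtain ⟨h1, h2, h3, h4⟩ := hP
  refine ⟨inv_frame h h1, ?_, ?_, ?_⟩
  · intro i j l; show ori _ _ _ = 0; rw [oriF_apply h]; exact h2 i j l
  · unfold Low at *; rw [oriF_apply h]; exact h3
  · unfold Low at *; rw [oriF_apply h]; exact h4

lemma inv_B : OriInv PatB := by
  intro P P' h hP
  obtain ⟨h1, h2, h3, h4, h5⟩ := hP
  refine ⟨inv_frame h h1, ?_, ?_, ?_, ?_⟩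
  · intro t i j l; show ori _ _ _ = 0; rw [oriF_apply h]; exact h2 t i j l
  · intro t; have := h3 t; unfold Low at *; rw [oriF_apply h]; exact this
  · rw [oriF_apply h]; exact h4
  · rw [oriF_apply h]; exact h5

/-- The fixed finite set of obstacles. -/
theorem exists_obs : ∃ Obs : Finset Config, ∀ S, Avoids Obs S ↔
    Free PatA S ∧ Free PatB S ∧ Free PatC S := by
  classical
  obtain ⟨O1, h1⟩ := exists_obstacles PatA inv_A
  obtain ⟨O2, h2⟩ := exists_obstacles PatB inv_B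
  obtain ⟨O3, h3⟩ := exists_obstacles PatC inv_C
  refine ⟨O1 ∪ (O2 ∪ O3), ?_⟩
  intro S
  rw [← h1, ← h2, ← h3]
  unfold Avoids
  simp only [Finset.mem_union]
  constructor
  · intro h
    exact ⟨fun C hC => h C (Or.inl hC), fun C hC => h C (Or.inr (Or.inl hC)),
      fun C hC => h C (Or.inr (Or.inr hC))⟩
  · rintro ⟨ha, hb, hc⟩ C (hC | hC | hC)
    · exact ha C hC
    · exact hb C hC
    · exact hc C hC

/-! ### Elementary facts on `dt` -/

lemma dt_swap12 (p q r : ℝ × ℝ) : dt q p r = - dt p q r := by unfold dt; ring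
lemma dt_swap23 (p q r : ℝ × ℝ) : dt p r q = - dt p q r := by unfold dt; ring
lemma dt_swap13 (p q r : ℝ × ℝ) : dt r q p = - dt p q r := by unfold dt; ring
lemma dt_cyc (p q r : ℝ × ℝ) : dt q r p = dt p q r := by unfold dt; ring

lemma dt_same_x {p q r : ℝ × ℝ} {x : ℝ} (h1 : p.1 = x) (h2 : q.1 = x) (h3 : r.1 = x) :
    dt p q r = 0 := by unfold dt; rw [h1, h2, h3]; ring

lemma dt_same_y {p q r : ℝ × ℝ} {y : ℝ} (h1 : p.2 = y) (h2 : q.2 = y) (h3 : r.2 = y) :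
    dt p q r = 0 := by unfold dt; rw [h1, h2, h3]; ring

/-- An abstract design. -/
structure Design where
  /-- number of columns -/
  Q : ℕ
  /-- number of domain points per column -/
  D : ℕ
  /-- number of links -/
  L : ℕ
  /-- the three columns of a link -/
  col : ℕ → ℕ → ℕ
  /-- the slots used by a link -/
  slot : ℕ → ℕ → ℕ
  /-- abscissa of the corner -/
  x0 : ℝ
  /-- height of the corner -/
  Th : ℝ
  /-- abscissae of the columns -/
  X : ℕ → ℝ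
  /-- heights of the anchors -/
  Ya : ℕ → ℕ → ℝ
  /-- heights of the domain points -/
  Yd : ℕ → ℕ → ℝ
  /-- rows of the anchors -/
  row : ℕ → ℕ → ℕ
  /-- classes of the columns -/
  cls : ℕ → ℕ
  X_inj : ∀ q < Q, ∀ q' < Q, X q = X q' → q = q'
  X_gt : ∀ q < Q, x0 < X q
  Ya_gt : ∀ q < Q, ∀ s < 15, Th < Ya q s
  Ya_inj : ∀ q < Q, ∀ s < 15, ∀ s' < 15, Ya q s = Ya q s' → s = s'
  Yd_lt : ∀ q < Q, ∀ d < D, Yd q d < Th
  Yd_inj : ∀ q < Q, ∀ d < D, ∀ d' < D, Yd q d = Yd q d' → d = d'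
  anc_coll : ∀ q₁ < Q, ∀ q₂ < Q, ∀ q₃ < Q, q₁ ≠ q₂ → q₁ ≠ q₃ → q₂ ≠ q₃ →
    ∀ s₁ < 15, ∀ s₂ < 15, ∀ s₃ < 15,
    dt (X q₁, Ya q₁ s₁) (X q₂, Ya q₂ s₂) (X q₃, Ya q₃ s₃) = 0 →
    row q₁ s₁ = row q₂ s₂ ∧ row q₁ s₁ = row q₃ s₃
  row_col : ∀ q < Q, ∀ q' < Q, q ≠ q' → ∀ s < 15, ∀ s' < 15, row q s = row q' s' →
    row q s < L ∧ ∃ t < 3, q = col t (row q s)
  col_lt : ∀ l < L, ∀ t < 3, col t l < Q
  col_ne : ∀ l < L, ∀ t < 3, ∀ t' < 3, t ≠ t' → col t l ≠ col t' l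
  slot_lt : ∀ l < L, ∀ t < 3, slot t l < 15
  link_coll : ∀ l < L, dt (X (col 0 l), Ya (col 0 l) (slot 0 l))
    (X (col 1 l), Ya (col 1 l) (slot 1 l)) (X (col 2 l), Ya (col 2 l) (slot 2 l)) = 0
  cls_lt : ∀ q < Q, cls q < 5
  cls_gen : ∀ q₁ < Q, ∀ q₂ < Q, ∀ q₃ < Q, q₁ ≠ q₂ → q₁ ≠ q₃ → q₂ ≠ q₃ →
    cls q₁ = cls q₂ → cls q₁ = cls q₃ → ∀ d₁ < D, ∀ d₂ < D, ∀ d₃ < D,
    dt (X q₁, Yd q₁ d₁) (X q₂, Yd q₂ d₂) (X q₃, Yd q₃ d₃) ≠ 0

namespace Design

variable (Ω : Design)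

/-- The anchors. -/
def anc (q s : ℕ) : ℝ × ℝ := (Ω.X q, Ω.Ya q s)
/-- The domain points. -/
def dom (q d : ℕ) : ℝ × ℝ := (Ω.X q, Ω.Yd q d)
/-- The corner of the frame. -/
def pO : ℝ × ℝ := (Ω.x0, Ω.Th)
/-- The points above the corner. -/
def pP (t : ℕ) : ℝ × ℝ := (Ω.x0, Ω.Th + (t + 1))
/-- The points to the left of the corner. -/
def pQ (t : ℕ) : ℝ × ℝ := (Ω.x0 - (t + 1), Ω.Th)

/-- The points of the frame. -/
def InF (z : ℝ × ℝ) : Prop := z = Ω.pO ∨ (∃ t < 15, z = Ω.pP t) ∨ (∃ t < 15, z = Ω.pQ t)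

/-- The frame as a family. -/
def frm : IF → ℝ × ℝ := Sum.elim (fun _ => Ω.pO) (Sum.elim (fun t => Ω.pP t) (fun t => Ω.pQ t))

lemma frm_inj : Injective Ω.frm := by
  intro i j h
  rcases i with i | i | i <;> rcases j with j | j | j <;>
    simp only [frm, Sum.elim_inl, Sum.elim_inr, pO, pP, pQ, Prod.mk.injEq] at h
  · rfl
  · have := h.2
    have h2 : (0 : ℝ) ≤ (j : ℕ) := Nat.cast_nonneg _
    linarith
  · have := h.1
    have h2 : (0 : ℝ) ≤ (j : ℕ) := Nat.cast_nonneg _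
    linarith
  · have := h.2
    have h2 : (0 : ℝ) ≤ (i : ℕ) := Nat.cast_nonneg _
    linarith
  · have := h.2
    have h3 : ((i : ℕ) : ℝ) = (j : ℕ) := by linarith
    have h4 : (i : ℕ) = j := by exact_mod_cast h3
    rw [Fin.ext h4]
  · have := h.1
    have h2 : (0 : ℝ) ≤ (j : ℕ) := Nat.cast_nonneg _
    linarith
  · have := h.1
    have h2 : (0 : ℝ) ≤ (i : ℕ) := Nat.cast_nonneg _
    linarith
  · have := h.1
    have h2 : (0 : ℝ) ≤ (i : ℕ) := Nat.cast_nonneg _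
    linarith
  · have := h.1
    have h3 : ((i : ℕ) : ℝ) = (j : ℕ) := by linarith
    have h4 : (i : ℕ) = j := by exact_mod_cast h3
    rw [Fin.ext h4]

open Classical in
/-- The frame as a finite set. -/
noncomputable def FF : Config := Finset.univ.image Ω.frm

lemma card_FF : Ω.FF.card = 31 := by
  classical
  unfold FF
  rw [Finset.card_image_of_injective _ Ω.frm_inj, Finset.card_univ]
  simp

lemma mem_FF {z : ℝ × ℝ} : z ∈ Ω.FF ↔ Ω.InF z := by
  classical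
  unfold FF InF
  rw [Finset.mem_image]
  constructor
  · rintro ⟨i, -, rfl⟩
    rcases i with i | i | i
    · left; rfl
    · right; left; exact ⟨i, i.2, rfl⟩
    · right; right; exact ⟨i, i.2, rfl⟩
  · rintro (rfl | ⟨t, ht, rfl⟩ | ⟨t, ht, rfl⟩)
    · exact ⟨iO, Finset.mem_univ _, rfl⟩
    · exact ⟨iP ⟨t, ht⟩, Finset.mem_univ _, rfl⟩
    · exact ⟨iQ ⟨t, ht⟩, Finset.mem_univ _, rfl⟩

open Classical in
/-- The anchors and the domain points with the given indices. -/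
noncomputable def colset (T : Finset ℕ) (d : ℕ → ℕ) : Config :=
  ((Finset.range Ω.Q) ×ˢ (Finset.range 15)).image (fun e => Ω.anc e.1 e.2) ∪
    T.image (fun q => Ω.dom q (d q))

open Classical in
/-- The whole configuration. -/
noncomputable def S : Config :=
  Ω.FF ∪ (((Finset.range Ω.Q) ×ˢ (Finset.range 15)).image (fun e => Ω.anc e.1 e.2) ∪
    ((Finset.range Ω.Q) ×ˢ (Finset.range Ω.D)).image (fun e => Ω.dom e.1 e.2))

lemma mem_S {z : ℝ × ℝ} : z ∈ Ω.S ↔ Ω.InF z ∨ (∃ q < Ω.Q, ∃ s < 15, z = Ω.anc q s) ∨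
    (∃ q < Ω.Q, ∃ d < Ω.D, z = Ω.dom q d) := by
  classical
  unfold S
  rw [Finset.mem_union, Finset.mem_union, mem_FF, Finset.mem_image, Finset.mem_image]
  constructor
  · rintro (h | ⟨⟨q, s⟩, h1, rfl⟩ | ⟨⟨q, d⟩, h1, rfl⟩)
    · exact Or.inl h
    · rw [Finset.mem_product, Finset.mem_range, Finset.mem_range] at h1
      exact Or.inr (Or.inl ⟨q, h1.1, s, h1.2, rfl⟩)
    · rw [Finset.mem_product, Finset.mem_range, Finset.mem_range] at h1
      exact Or.inr (Or.inr ⟨q, h1.1, d, h1.2, rfl⟩)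
  · rintro (h | ⟨q, hq, s, hs, rfl⟩ | ⟨q, hq, d, hd, rfl⟩)
    · exact Or.inl h
    · exact Or.inr (Or.inl ⟨(q, s), by simp [hq, hs], rfl⟩)
    · exact Or.inr (Or.inr ⟨(q, d), by simp [hq, hd], rfl⟩)

lemma InF.x_le {z : ℝ × ℝ} (h : Ω.InF z) : z.1 ≤ Ω.x0 := by
  rcases h with rfl | ⟨t, ht, rfl⟩ | ⟨t, ht, rfl⟩
  · exact le_rfl
  · exact le_rfl
  · have h2 : (0 : ℝ) ≤ (t : ℕ) := Nat.cast_nonneg _
    show Ω.x0 - (t + 1) ≤ Ω.x0
    linarith

/-- Points of the configuration on a column. -/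
lemma col_cases {z : ℝ × ℝ} (hz : z ∈ Ω.S) {q : ℕ} (hq : q < Ω.Q) (h : z.1 = Ω.X q) :
    (∃ s < 15, z = Ω.anc q s) ∨ (∃ d < Ω.D, z = Ω.dom q d) := by
  rcases Ω.mem_S.1 hz with h1 | ⟨q', hq', s, hs, rfl⟩ | ⟨q', hq', d, hd, rfl⟩
  · have := InF.x_le Ω h1
    have := Ω.X_gt q hq
    linarith
  · have : q' = q := Ω.X_inj q' hq' q hq h
    subst this
    exact Or.inl ⟨s, hs, rfl⟩
  · have : q' = q := Ω.X_inj q' hq' q hq h
    subst this
    exact Or.inr ⟨d, hd, rfl⟩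

end Design

/-- Enumerations of a set with sixteen elements with two prescribed values. -/
lemma exists_enum {α : Type} {T : Finset α} (hT : T.card = 16) {a b : α} (ha : a ∈ T)
    (hb : b ∈ T) (hab : a ≠ b) :
    ∃ x : Fin 16 → α, Injective x ∧ (∀ s, x s ∈ T) ∧ x 0 = a ∧ x 1 = b := by
  classical
  set e := (T.equivFinOfCardEq hT).symm with he
  set y : Fin 16 → T := fun s => e (Equiv.swap 0 (e.symm ⟨a, ha⟩) s) with hy
  have hyinj : Injective y := e.injective.comp (Equiv.swap _ _).injective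
  have hy0 : y 0 = ⟨a, ha⟩ := by
    simp [hy]
  obtain ⟨j, hj⟩ : ∃ j, y j = ⟨b, hb⟩ := by
    refine ⟨Equiv.swap 0 (e.symm ⟨a, ha⟩) (e.symm ⟨b, hb⟩), ?_⟩
    simp [hy]
  have hj0 : j ≠ 0 := by
    rintro rfl
    rw [hy0] at hj
    exact hab (congrArg Subtype.val hj)
  refine ⟨fun s => (y (Equiv.swap 1 j s) : α), ?_, fun s => (y _).2, ?_, ?_⟩
  · intro s t hst
    exact (Equiv.swap _ _).injective (hyinj (Subtype.ext hst))
  · show ((y (Equiv.swap 1 j 0) : T) : α) = a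
    rw [Equiv.swap_apply_of_ne_of_ne (by decide) hj0.symm, hy0]
  · show ((y (Equiv.swap 1 j 1) : T) : α) = b
    rw [Equiv.swap_apply_left, hj]

end Pool.Agent.Obst
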