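import Pool.Agent.Obst.Model
import Pool.Agent.Lib.PolyTime.TMComp

/-!
# Machines, with time bounds that depend on the input
-/

namespace Pool.Agent.Obst

open Turing Function Pool.Agent.PolyTime Pool.Agent.PolyTime.TMComp

lemma Runs.mono {A : TM2ComputableAux Bool Bool} {x y : List Bool} {t t' : ℕ}
    (h : Runs A x y t) (ht : t ≤ t') : Runs A x y t' := by
  obtain ⟨⟨a, b⟩⟩ := h
  exact ⟨⟨a, b.trans ht⟩⟩

/-- The composition of two machines. -/
def compAux (F G : TM2ComputableAux Bool Bool) : TM2ComputableAux Bool Bool where
  tm := comp F.tm G.tm (fun a => G.inputAlphabet.symm (F.outputAlphabet a))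
    (G.inputAlphabet.symm false)
  inputAlphabet := F.inputAlphabet
  outputAlphabet := G.outputAlphabet

lemma Runs.len {F : TM2ComputableAux Bool Bool} {x y : List Bool} {t : ℕ} (hF : Runs F x y t) :
    y.length ≤ x.length + t * npMax F.tm := by
  obtain ⟨⟨⟨n, hn⟩, hnt⟩⟩ := hF
  simp only [Option.map_some] at hn hnt
  set A := F.tm with hA
  have sA : Stp (TM2.step A.m) n (initList A (List.map F.inputAlphabet.invFun x))
      (haltList A (List.map F.outputAlphabet.invFun y)) := hn
  have := stp_len A A.k₁ n _ _ sA
  rw [haltList_eq', initList_eq'] at this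
  simp only [update_self, List.length_map] at this
  have h2 : (update (fun k => ([] : List (A.Γ k))) A.k₀
      (List.map F.inputAlphabet.invFun x) A.k₁).length ≤ x.length := by
    by_cases h : A.k₁ = A.k₀
    · rw [h, update_self, List.length_map]
    · rw [update_of_ne h]; simp
  have h3 : n * npMax A ≤ t * npMax A := Nat.mul_le_mul_right _ hnt
  omega

theorem Runs.comp {F G : TM2ComputableAux Bool Bool} {x y z : List Bool} {t s : ℕ}
    (hF : Runs F x y t) (hG : Runs G y z s) :
    Runs (compAux F G) x z (t + 2 * (y.length + 1) + s) := by
  obtain ⟨⟨⟨n, hn⟩, hnt⟩⟩ := hF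
  obtain ⟨⟨⟨m, hm⟩, hmt⟩⟩ := hG
  simp only [Option.map_some] at hn hnt hm hmt
  set A := F.tm with hA
  set B := G.tm with hB
  let e : A.Γ A.k₁ → B.Γ B.k₀ := fun a => G.inputAlphabet.symm (F.outputAlphabet a)
  let d : B.Γ B.k₀ := G.inputAlphabet.symm false
  have sA : Stp (TM2.step A.m) n (initList A (List.map F.inputAlphabet.invFun x))
      (haltList A (List.map F.outputAlphabet.invFun y)) := hn
  have sB : Stp (TM2.step B.m) m (initList B (List.map G.inputAlphabet.invFun y))
      (haltList B (List.map G.outputAlphabet.invFun z)) := hm
  have t1 := stepsA (e := e) (d := d) (B.initialState, none) (fun _ => []) [] n _ _ sA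
  have t2 := transfer1 (e := e) (d := d) A.initialState B.initialState (fun _ => [])
    (List.map F.outputAlphabet.invFun y)
    (update (fun _ => []) A.k₁ (List.map F.outputAlphabet.invFun y)) [] none
    (update_self _ _ _)
  have t3 := transfer2 (e := e) (d := d) A.initialState B.initialState
    (update (update (fun k => ([] : List (A.Γ k))) A.k₁
      (List.map F.outputAlphabet.invFun y)) A.k₁ [])
    ((List.map e (List.map F.outputAlphabet.invFun y)).reverse ++ []) (fun _ => []) none
  have t4 := stepsB (e := e) (d := d) A.initialState none (fun _ => []) [] m _ _ sB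
  have hfin : ((List.map e (List.map F.outputAlphabet.invFun y)).reverse ++
      ([] : List (B.Γ B.k₀))).reverse ++ [] = List.map G.inputAlphabet.invFun y := by
    rw [List.append_nil, List.append_nil, List.reverse_reverse, List.map_map]
    apply List.map_congr_left
    intro b _
    show G.inputAlphabet.symm (F.outputAlphabet (F.outputAlphabet.symm b)) =
      G.inputAlphabet.symm b
    rw [F.outputAlphabet.apply_symm_apply b]
  have hstk : update (update (fun k => ([] : List (A.Γ k))) A.k₁
      (List.map F.outputAlphabet.invFun y)) A.k₁ [] = fun _ => [] := by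
    rw [update_idem]
    exact update_eq_self A.k₁ (fun k => ([] : List (A.Γ k)))
  have i1 : embA (B := B) (B.initialState, none) (fun _ => []) []
      (initList A (List.map F.inputAlphabet.invFun x)) =
      initList (TMComp.comp A B e d) (List.map F.inputAlphabet.invFun x) := by
    rw [initList_eq', initList_eq']
    unfold embA
    simp only [Option.elim]
    congr 1
    rw [← update_join_inl]
    congr 1
    funext j
    rcases j with j | j | j <;> rfl
  have i4 : embB A.initialState none (fun k => ([] : List (A.Γ k))) []
      (haltList B (List.map G.outputAlphabet.invFun z)) =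
      haltList (TMComp.comp A B e d) (List.map G.outputAlphabet.invFun z) := by
    rw [haltList_eq', haltList_eq']
    unfold embB
    simp only [Option.map_none]
    congr 1
    rw [← update_join_inr]
    congr 1
    funext j
    rcases j with j | j | j <;> rfl
  rw [i1] at t1
  rw [i4] at t4
  have s1 : embA (B := B) (B.initialState, none) (fun _ => []) []
      (haltList A (List.map F.outputAlphabet.invFun y)) =
      ⟨some (Sum.inr (Sum.inr false)), (A.initialState, B.initialState, none),
        join (update (fun _ => []) A.k₁ (List.map F.outputAlphabet.invFun y))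
          (fun _ => []) []⟩ := by
    rw [haltList_eq']
    rfl
  have s4 : embB A.initialState none (fun k => ([] : List (A.Γ k))) []
      (initList B (List.map G.inputAlphabet.invFun y)) =
      ⟨some (Sum.inr (Sum.inl B.main)), (A.initialState, B.initialState, none),
        join (fun _ => []) (update (fun _ => []) B.k₀
          (List.map G.inputAlphabet.invFun y)) []⟩ := by
    rw [initList_eq']
    rfl
  rw [s1] at t1
  rw [s4] at t4
  rw [hstk, hfin] at t3
  rw [hstk] at t2
  have total := t1.trans (t2.trans (t3.trans t4))
  refine ⟨⟨⟨_, total⟩, ?_⟩⟩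
  simp only [List.length_map, List.length_append, List.length_reverse, List.length_nil]
  omega

lemma runs_of_poly {f : List Bool → List Bool}
    (F : TM2ComputableInPolyTime (id : List Bool → List Bool) (id : List Bool → List Bool) f)
    (x : List Bool) : Runs F.toTM2ComputableAux x (f x) (F.time.eval x.length) :=
  ⟨F.outputsFun x⟩

end Pool.Agent.Obst
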