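import Pool.Agent.Obst.Red
import Pool.Agent.Obst.Machine

/-!
# Fixed-parameter tractability
-/

namespace Pool.Agent.Obst

open Turing Function Pool.Agent.PolyTime

/-! ### Polynomials -/

lemma poly_bound (p : Polynomial ℕ) : ∃ C e : ℕ, ∀ m, p.eval m ≤ C * (m + 1) ^ e := by
  induction p using Polynomial.induction_on' with
  | add p q hp hq =>
    obtain ⟨C, e, h⟩ := hp
    obtain ⟨C', e', h'⟩ := hq
    refine ⟨C + C', max e e', fun m => ?_⟩
    rw [Polynomial.eval_add, Nat.add_mul]
    have h1 : (m + 1) ^ e ≤ (m + 1) ^ max e e' := Nat.pow_le_pow_right (by omega) (le_max_left _ _)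
    have h2 : (m + 1) ^ e' ≤ (m + 1) ^ max e e' := Nat.pow_le_pow_right (by omega) (le_max_right _ _)
    exact Nat.add_le_add ((h m).trans (Nat.mul_le_mul_left _ h1))
      ((h' m).trans (Nat.mul_le_mul_left _ h2))
  | monomial n c =>
    refine ⟨c, n, fun m => ?_⟩
    rw [Polynomial.eval_monomial]
    exact Nat.mul_le_mul_left _ (Nat.pow_le_pow_left (Nat.le_succ m) n)

/-! ### Computable bounds -/

lemma computable_sum {f : ℕ → ℕ} (hf : Computable f) :
    Computable (fun m => ∑ j ∈ Finset.range m, f j) := by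
  have h : Computable (fun m : ℕ => Nat.rec (motive := fun _ => ℕ) 0 (fun j s => s + f j) m) := by
    refine Computable.nat_rec (f := fun m : ℕ => m) (g := fun _ => 0)
      (h := fun _ p => p.2 + f p.1) Computable.id (Computable.const 0) ?_
    exact Primrec.nat_add.to_comp.comp (Computable.snd.comp Computable.snd)
      (hf.comp (Computable.fst.comp Computable.snd))
  refine h.of_eq fun m => ?_
  induction m with
  | zero => simp
  | succ m ih => rw [Finset.sum_range_succ, ← ih]

lemma comp_add {f g : ℕ → ℕ} (hf : Computable f) (hg : Computable g) :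
    Computable (fun m => f m + g m) := Primrec.nat_add.to_comp.comp hf hg

lemma comp_mul {f g : ℕ → ℕ} (hf : Computable f) (hg : Computable g) :
    Computable (fun m => f m * g m) := Primrec.nat_mul.to_comp.comp hf hg

lemma comp_pow {f : ℕ → ℕ} (hf : Computable f) (e : ℕ) : Computable (fun m => f m ^ e) := by
  induction e with
  | zero => exact (Computable.const 1).of_eq fun m => by simp
  | succ e ih => exact (comp_mul ih hf).of_eq fun m => by rw [pow_succ]

lemma comp_KK {f : ℕ → ℕ} (hf : Computable f) : Computable (fun m => Con.KK (f m)) := by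
  unfold Con.KK
  exact comp_add (Computable.const _) (comp_mul (Computable.const _)
    (comp_add (comp_mul (Computable.const _) (comp_mul hf hf)) (comp_mul (comp_mul hf hf) hf)))

/-! ### The last step: recognising the values `KK j` -/

open Classical in
/-- Is the length of the input one of the numbers `KK j`? -/
noncomputable def chk (x : List Bool) : List Bool :=
  [decide (∃ j < x.length + 1, x.length = Con.KK j)]

lemma pfBits_chk : PFBits chk := by
  classical
  refine ⟨fun _ => 1, fun x _ => if ∃ j < x.length + 1, x.length = Con.KK j then 1 else 0,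
    PF.const 1, ?_, ?_⟩
  · have h1 : PF (fun (x : List Bool) (q : (Unit × ℕ) × ℕ) => Con.KK q.2) := by
      have h2 : PF (fun (x : List Bool) (q : (Unit × ℕ) × ℕ) => q.2) := PF.snd
      unfold Con.KK
      exact PF.add (PF.const _) (PF.mul (PF.const _) (PF.add (PF.mul (PF.const _)
        (PF.mul h2 h2)) (PF.mul (PF.mul h2 h2) h2)))
    have h3 : PD (fun (x : List Bool) (p : Unit × ℕ) => ∃ j < x.length + 1,
        x.length = Con.KK j) :=
      PD.exists_lt (B := fun x (_ : Unit × ℕ) => x.length + 1)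
        (P := fun x (q : (Unit × ℕ) × ℕ) => x.length = Con.KK q.2)
        (PF.add PF.len (PF.const 1)) (PD.eq PF.len h1)
    exact PF.ite h3 (PF.const 1) (PF.const 0)
  · intro x
    unfold chk
    by_cases h : ∃ j < x.length + 1, x.length = Con.KK j
    · simp only [h]
      simp
    · simp only [h]
      simp

lemma KK_gap {j k : ℕ} (h : j < k) (hk : 3 ≤ k) : Con.KK j + 3 * (k * k) < Con.KK k := by
  obtain ⟨k', rfl⟩ : ∃ k', k = k' + 1 := ⟨k - 1, by omega⟩
  have hj : j ≤ k' := by omega
  have h1 : j * j ≤ k' * k' := Nat.mul_le_mul hj hj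
  have h2 : j * j * j ≤ k' * k' * k' := Nat.mul_le_mul h1 hj
  unfold Con.KK
  have e1 : (k' + 1) * (k' + 1) = k' * k' + 2 * k' + 1 := by ring
  have e2 : (k' + 1) * (k' + 1) * (k' + 1) = k' * k' * k' + 3 * (k' * k') + 3 * k' + 1 := by ring
  rw [e1]
  have e3 : (k' * k' + 2 * k' + 1) * (k' + 1) = k' * k' * k' + 3 * (k' * k') + 3 * k' + 1 := by
    ring
  rw [e3]
  have h3 : 0 ≤ k' * k' := Nat.zero_le _
  omega

lemma KK_ge (k : ℕ) : k ≤ Con.KK k := by
  unfold Con.KK
  have : k ≤ k * k ∨ k = 0 := by
    rcases Nat.eq_zero_or_pos k with h | h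
    · exact Or.inr h
    · exact Or.inl (Nat.le_mul_of_pos_left _ h)
  rcases this with h | h
  · omega
  · omega

/-! ### The main results -/

/-- Facts on the reduction. -/
theorem reduction_facts (Obs : Finset Config) (hObs : ∀ S, Avoids Obs S ↔
    Free PatA S ∧ Free PatB S ∧ Free PatC S) {n : ℕ} (G : SimpleGraph (Fin n)) (k : ℕ) :
    ∃ P : PointList, Con.Rd (encClique G k) = P.enc ∧ AVOIDS Obs P.conf ≤ Con.KK (k + 3) ∧
      Con.KK (k + 3) ≤ AVOIDS Obs P.conf + 3 * ((k + 3) * (k + 3)) ∧
      (AVOIDS Obs P.conf = Con.KK (k + 3) ↔ ¬ G.CliqueFree k) := by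
  refine ⟨_, Con.Rd_eq _, ?_⟩
  rw [Con.PL_conf]
  have h := Con.main_iff (n := Con.n0 (encClique G k) + 3) (k := Con.k0 (encClique G k) + 3)
    (adj := Con.adjX (encClique G k)) Obs hObs (by omega) (by omega) (Con.irr_enc _ _)
  have hk := Con.k0_enc G k
  have hn := Con.n0_enc G k
  have h4 := Con.pad_enc G k
  generalize AVOIDS Obs (Con.des (Con.n0 (encClique G k) + 3) (Con.k0 (encClique G k) + 3)
    (Con.adjX (encClique G k)) _ _ _).S = a at h ⊢
  rw [hk, hn, h4] at h
  exact h

/-- The first bound for the time. -/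
lemma enc_len_le {n : ℕ} (G : SimpleGraph (Fin n)) (k : ℕ) :
    (encClique G k).length + 1 ≤ (n + 1) ^ 2 * (k + 3) := by
  rw [Con.len_enc]
  have e : (n + 1) ^ 2 * (k + 3) = n * n * k + 2 * (n * k) + k + 3 * (n * n) + 6 * n + 3 := by ring
  rw [e]
  have h3 : 0 ≤ n * n * k := Nat.zero_le _
  have h4 : 0 ≤ n * k := Nat.zero_le _
  omega

lemma pl_n_le (P : PointList) : P.n + 1 ≤ P.enc.length := by
  unfold PointList.enc
  rw [List.length_append, List.length_replicate, List.length_cons]
  omega

/-- Fixed-parameter tractability of `AVOIDS` implies that of k-Clique. -/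
theorem clique_of_avoids (Obs : Finset Config) (hObs : ∀ S, Avoids Obs S ↔
    Free PatA S ∧ Free PatB S ∧ Free PatC S) (h : AvoidsFPT Obs) : CliqueFPT := by
  classical
  obtain ⟨A, c, f, hf, hA⟩ := h
  obtain ⟨F⟩ := Con.pfBits_Rd.polyTime
  obtain ⟨Gm⟩ := pfBits_chk.polyTime
  set nF := TMComp.npMax F.tm with hnF
  -- bounds by monomials
  obtain ⟨C1, e1, hC1⟩ := poly_bound (F.time + 2 * (Polynomial.X + F.time * Polynomial.C nF + 1))
  obtain ⟨C2, e2, hC2⟩ := poly_bound ((Polynomial.X + F.time * Polynomial.C nF) ^ c)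
  obtain ⟨C3, e3, hC3⟩ := poly_bound (2 * (Polynomial.X + 1) + Gm.time)
  refine ⟨compAux (compAux F.toTM2ComputableAux A) Gm.toTM2ComputableAux, 2 * (e1 + e2),
    fun k => C1 * (k + 3) ^ e1 + C2 * (k + 3) ^ e2 *
      (∑ j ∈ Finset.range (Con.KK (k + 3) + 1), f j) + C3 * (Con.KK (k + 3) + 1) ^ e3, ?_, ?_⟩
  · have k3 : Computable (fun k : ℕ => k + 3) := comp_add Computable.id (Computable.const 3)
    have kk : Computable (fun k : ℕ => Con.KK (k + 3) + 1) :=
      comp_add (comp_KK k3) (Computable.const 1)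
    exact comp_add (comp_add (comp_mul (Computable.const C1) (comp_pow k3 e1))
      (comp_mul (comp_mul (Computable.const C2) (comp_pow k3 e2))
        ((computable_sum hf).comp kk))) (comp_mul (Computable.const C3) (comp_pow kk e3))
  · rintro ⟨n, G, k⟩
    simp only
    obtain ⟨P, hP, hle, hge, hiff⟩ := reduction_facts Obs hObs G k
    set a := AVOIDS Obs P.conf with ha
    have r1 := runs_of_poly F (encClique G k)
    rw [hP] at r1
    have r2 : Runs A P.enc (List.replicate a true) ((P.n + 1) ^ c * f a) := hA P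
    have r3 := runs_of_poly Gm (List.replicate a true)
    rw [List.length_replicate] at r3
    -- the answer
    have hans : chk (List.replicate a true) =
        [@decide (¬ G.CliqueFree k) (Classical.propDecidable _)] := by
      unfold chk
      congr 1
      rw [decide_eq_decide, List.length_replicate, ← hiff]
      constructor
      · rintro ⟨j, -, hj⟩
        rcases lt_trichotomy j (k + 3) with h1 | h1 | h1
        · have := KK_gap h1 (by omega)
          omega
        · rw [← h1]; exact hj
        · have := KK_gap h1 (by omega)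
          omega
      · intro h
        exact ⟨k + 3, by have := KK_ge (k + 3); omega, h⟩
    rw [hans] at r3
    have hlen := r1.len
    rw [← hnF] at hlen
    have r := (r1.comp r2).comp r3
    refine r.mono ?_
    rw [List.length_replicate]
    set m := (encClique G k).length with hm
    have hm1 : m + 1 ≤ (n + 1) ^ 2 * (k + 3) := enc_len_le G k
    have b1 := hC1 m
    have b2 := hC2 m
    have b3 := hC3 a
    simp only [Polynomial.eval_add, Polynomial.eval_mul, Polynomial.eval_one, Polynomial.eval_X,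
      Polynomial.eval_C, Polynomial.eval_ofNat, Polynomial.eval_pow] at b1 b2 b3
    have hPn : (P.n + 1) ^ c ≤ (m + Polynomial.eval m F.time * nF) ^ c := by
      apply Nat.pow_le_pow_left
      have := pl_n_le P
      omega
    have hfa : f a ≤ ∑ j ∈ Finset.range (Con.KK (k + 3) + 1), f j :=
      Finset.single_le_sum (f := f) (fun _ _ => Nat.zero_le _) (Finset.mem_range.2 (by omega))
    set Fs := ∑ j ∈ Finset.range (Con.KK (k + 3) + 1), f j with hFs
    have q0 : ∀ e, e ≤ e1 + e2 → (m + 1) ^ e ≤ (n + 1) ^ (2 * (e1 + e2)) * (k + 3) ^ e := by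
      intro e he
      calc (m + 1) ^ e ≤ ((n + 1) ^ 2 * (k + 3)) ^ e := Nat.pow_le_pow_left hm1 e
        _ = (n + 1) ^ (2 * e) * (k + 3) ^ e := by rw [mul_pow, ← pow_mul]
        _ ≤ _ := Nat.mul_le_mul_right _ (Nat.pow_le_pow_right (by omega) (by omega))
    have q1 := q0 e1 (by omega)
    have q2 := q0 e2 (by omega)
    set N := (n + 1) ^ (2 * (e1 + e2)) with hN
    have hN1 : 1 ≤ N := Nat.one_le_pow _ _ (by omega)
    -- first part
    have s1 : Polynomial.eval m F.time + 2 * (P.enc.length + 1) ≤ N * (C1 * (k + 3) ^ e1) := by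
      calc Polynomial.eval m F.time + 2 * (P.enc.length + 1)
          ≤ C1 * (m + 1) ^ e1 := by omega
        _ ≤ C1 * (N * (k + 3) ^ e1) := Nat.mul_le_mul_left _ q1
        _ = N * (C1 * (k + 3) ^ e1) := by ring
    have s2 : (P.n + 1) ^ c * f a ≤ N * (C2 * (k + 3) ^ e2 * Fs) := by
      calc (P.n + 1) ^ c * f a ≤ (C2 * (m + 1) ^ e2) * Fs := Nat.mul_le_mul (hPn.trans b2) hfa
        _ ≤ (C2 * (N * (k + 3) ^ e2)) * Fs :=
          Nat.mul_le_mul_right _ (Nat.mul_le_mul_left _ q2)
        _ = N * (C2 * (k + 3) ^ e2 * Fs) := by ring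
    have s3 : 2 * (a + 1) + Polynomial.eval a Gm.time ≤ N * (C3 * (Con.KK (k + 3) + 1) ^ e3) := by
      calc 2 * (a + 1) + Polynomial.eval a Gm.time ≤ C3 * (a + 1) ^ e3 := b3
        _ ≤ C3 * (Con.KK (k + 3) + 1) ^ e3 :=
          Nat.mul_le_mul_left _ (Nat.pow_le_pow_left (by omega) _)
        _ ≤ N * (C3 * (Con.KK (k + 3) + 1) ^ e3) := Nat.le_mul_of_pos_left _ hN1
    have s4 := Nat.add_le_add (Nat.add_le_add s1 s2) s3
    rw [← Nat.mul_add, ← Nat.mul_add] at s4
    refine le_trans (le_of_eq ?_) s4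
    ring

end Pool.Agent.Obst
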