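import Pool.Agent.Obst.Defs

/-!
# The model of computation: orientation tables, machines, fixed-parameter tractability
-/

namespace Pool.Agent.Obst

open Turing Function

/-- A list of distinct points of the plane. -/
structure PointList where
  /-- number of points -/
  n : ℕ
  /-- the points -/
  p : Fin n → ℝ × ℝ
  /-- the points are distinct -/
  inj : Injective p

/-- The configuration formed by a list of points. -/
def PointList.conf (P : PointList) : Config := Finset.univ.map ⟨P.p, P.inj⟩

/-- An orientation as two bits. -/
def oriBits (s : SignType) : List Bool := [decide (s = 1), decide (s = -1)]

/-- What an algorithm is given: the number of points, in unary, and the table of the orientations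
of all triples of points. -/
noncomputable def PointList.enc (P : PointList) : List Bool :=
  List.replicate P.n true ++ false ::
    ((List.finRange P.n).flatMap fun a => (List.finRange P.n).flatMap fun b =>
      (List.finRange P.n).flatMap fun c => oriBits (ori (P.p a) (P.p b) (P.p c)))

/-- The input for k-Clique: the number of vertices and the number `k`, both in unary, and the
adjacency matrix. -/
noncomputable def encClique {n : ℕ} (G : SimpleGraph (Fin n)) (k : ℕ) : List Bool :=
  List.replicate n true ++ false :: (List.replicate k true ++ false ::
    ((List.finRange n).flatMap fun a => (List.finRange n).map fun b =>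
      @decide (G.Adj a b) (Classical.propDecidable _)))

/-- The machine `A` (a `Turing.FinTM2` whose input and output alphabets are identified with
`Bool`) outputs `y` on the input `x` in at most `t` steps. -/
def Runs (A : TM2ComputableAux Bool Bool) (x y : List Bool) (t : ℕ) : Prop :=
  Nonempty (TM2OutputsInTime A.tm (x.map A.inputAlphabet.invFun)
    (some (y.map A.outputAlphabet.invFun)) t)

/-- Fixed-parameter tractability of the computation of `out i` from `enc i`, with respect to the
parameter `par i`: there are a machine, a constant `c` and a computable function `f` such that the
machine outputs `out i` on the input `enc i` in at most `(size i + 1) ^ c * f (par i)` steps, for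
all instances `i`. -/
def FPT {I : Type} (enc : I → List Bool) (size par : I → ℕ) (out : I → List Bool) : Prop :=
  ∃ (A : TM2ComputableAux Bool Bool) (c : ℕ) (f : ℕ → ℕ), Computable f ∧
    ∀ i, Runs A (enc i) (out i) ((size i + 1) ^ c * f (par i))

/-- Computing `AVOIDS(Obs; S)` from `S` is fixed-parameter tractable with respect to its natural
parameter, which is `AVOIDS(Obs; S)` itself; the size is the number of points of `S`, and the
output is written in unary. -/
def AvoidsFPT (Obs : Finset Config) : Prop :=
  FPT PointList.enc PointList.n (fun P => AVOIDS Obs P.conf)
    (fun P => List.replicate (AVOIDS Obs P.conf) true)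

/-- An instance of k-Clique. -/
structure CliqueInstance where
  /-- number of vertices -/
  n : ℕ
  /-- the graph -/
  G : SimpleGraph (Fin n)
  /-- size of the clique -/
  k : ℕ

/-- k-Clique (is there a clique with `k` vertices?) is fixed-parameter tractable with respect to
the parameter `k`. -/
def CliqueFPT : Prop :=
  FPT (fun I : CliqueInstance => encClique I.G I.k) CliqueInstance.n CliqueInstance.k
    (fun I => [@decide (¬ I.G.CliqueFree I.k) (Classical.propDecidable _)])

end Pool.Agent.Obst
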