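import Pool.Agent.Obst.Complete

/-!
# The numbers of the construction
-/

namespace Pool.Agent.Obst

namespace Con

/-- number of pairs -/
def M (k : ℕ) : ℕ := k * k
/-- number of columns -/
def Qc (k : ℕ) : ℕ := 5 * M k + k * k * k
/-- bound for the abscissae -/
def W (k : ℕ) : ℕ := 4 * (M k + 1) * (M k + 1) + Qc k + 16
/-- bound for the rows -/
def R (k : ℕ) : ℕ := 3 * M k + 15 * Qc k + 15
/-- multiplier in the row heights -/
def NN (k : ℕ) : ℕ := 4 * W k * R k + 1
/-- row heights -/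
def H (k r : ℕ) : ℕ := r + NN k * (r * r)
/-- bound for the row heights -/
def HM (k : ℕ) : ℕ := R k + NN k * (R k * R k)
/-- heights of the values -/
def vv (n a : ℕ) : ℕ := a + 2 * n * (a * a)
/-- bound for the heights of the values -/
def VV (n : ℕ) : ℕ := n + 2 * n * (n * n)
/-- bound for the perturbations -/
def E1 (n : ℕ) : ℕ := 8 * VV n + 8 * (n * n) + 8
/-- first scale -/
def N1 (n k : ℕ) : ℕ := W k * E1 n + 1
/-- second scale -/
def N3 (n k : ℕ) : ℕ := 2 * W k * (N1 n k * HM k + E1 n) + 1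
/-- height of the corner -/
def Th (n k : ℕ) : ℕ := 2 * N1 n k * HM k + 2 * N3 n k * HM k + E1 n + 1
/-- the three permutations -/
def pi (k τ i : ℕ) : ℕ := if τ = 0 then i else ((i % k + τ) % k) * k + i / k
/-- their inverses -/
def pinv (k τ j : ℕ) : ℕ := if τ = 0 then j else (j % k) * k + ((j / k + k - τ) % k)

lemma H_le {k r : ℕ} (h : r ≤ R k) : H k r ≤ HM k := by
  unfold H HM
  gcongr

lemma H_inj {k r r' : ℕ} (h : H k r = H k r') : r = r' := by
  unfold H at h
  rcases lt_trichotomy r r' with h1 | h1 | h1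
  · exfalso
    have : NN k * (r * r) ≤ NN k * (r' * r') := by gcongr
    omega
  · exact h1
  · exfalso
    have : NN k * (r' * r') ≤ NN k * (r * r) := by gcongr
    omega

lemma abs_comb_le {A B x y W R : ℤ} (hA : |A| ≤ W) (hB : |B| ≤ W) (hx : |x| ≤ R) (hy : |y| ≤ R) :
    |A * x - B * y| ≤ 2 * W * R := by
  have hW : 0 ≤ W := (abs_nonneg A).trans hA
  have h1 : |A| * |x| ≤ W * R := mul_le_mul hA hx (abs_nonneg _) hW
  have h2 : |B| * |y| ≤ W * R := mul_le_mul hB hy (abs_nonneg _) hW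
  calc |A * x - B * y| ≤ |A * x| + |B * y| := abs_sub _ _
    _ = |A| * |x| + |B| * |y| := by rw [abs_mul, abs_mul]
    _ ≤ 2 * W * R := by linarith

lemma gen_aux {N W R A B a b c : ℤ} (hN : 4 * W * R < N) (hA' : |A| ≤ W) (hB' : |B| ≤ W)
    (hca : |c - a| ≤ R) (hba : |b - a| ≤ R) (hA : A ≠ 0) (hB : B ≠ 0) (hab : a ≠ b) (hbc : b ≠ c)
    (h0 : A * ((c + N * (c * c)) - (a + N * (a * a))) - B * ((b + N * (b * b)) -
      (a + N * (a * a))) = 0) : False := by
  set P : ℤ := A * (c - a) - B * (b - a) with hP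
  set P2 : ℤ := A * (c * c - a * a) - B * (b * b - a * a) with hP2
  have h4 : P + N * P2 = 0 := by rw [hP, hP2]; linarith
  have hPb : |P| ≤ 2 * W * R := abs_comb_le hA' hB' hca hba
  have hWR : 0 ≤ W * R := mul_nonneg ((abs_nonneg A).trans hA') ((abs_nonneg _).trans hca)
  have hN0 : 0 < N := by linarith
  have hP20 : P2 = 0 := by
    by_contra hne
    have h5 : 1 ≤ |P2| := Int.one_le_abs hne
    have h6 : |P| = N * |P2| := by
      have : P = - (N * P2) := by linarith
      rw [this, abs_neg, abs_mul, abs_of_pos hN0]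
    have h7 : N ≤ |P| := by
      rw [h6]
      nlinarith
    linarith
  have hP0 : P = 0 := by rw [hP20, mul_zero, add_zero] at h4; exact h4
  have h8 : A * (c - a) = B * (b - a) := by linarith
  have h9 : B * (b - a) * (c - b) = 0 := by
    have e : P2 = A * (c - a) * (c + a) - B * (b - a) * (b + a) := by
      rw [hP2]; ring
    rw [h8] at e
    rw [hP20] at e
    linarith
  rcases mul_eq_zero.1 h9 with h10 | h10
  · rcases mul_eq_zero.1 h10 with h11 | h11
    · exact hB h11
    · exact hab (by linarith)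
  · exact hbc (by linarith)

lemma natd {r r' R : ℕ} (hr : r ≤ R) (hr' : r' ≤ R) : |(r : ℤ) - r'| ≤ R := by
  rw [abs_le]
  constructor <;> omega

/-- Rows with distinct numbers are in general position. -/
lemma H_gen {k : ℕ} {r₁ r₂ r₃ : ℕ} (h1 : r₁ < R k) (h2 : r₂ < R k) (h3 : r₃ < R k)
    (h12 : r₁ ≠ r₂) (h23 : r₂ ≠ r₃) {A B : ℤ} (hA : A ≠ 0) (hB : B ≠ 0)
    (hA' : |A| ≤ W k) (hB' : |B| ≤ W k) :
    A * ((H k r₃ : ℤ) - H k r₁) - B * ((H k r₂ : ℤ) - H k r₁) ≠ 0 := by
  intro h0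
  have hN : (4 : ℤ) * W k * R k < NN k := by
    have : 4 * W k * R k < NN k := Nat.lt_succ_self _
    exact_mod_cast this
  have hH : ∀ r, (H k r : ℤ) = r + NN k * (r * r) := by
    intro r; unfold H; rw [Nat.cast_add, Nat.cast_mul, Nat.cast_mul]
  rw [hH, hH, hH] at h0
  refine gen_aux hN hA' hB' (natd h3.le h1.le) (natd h2.le h1.le) hA hB ?_ ?_ h0
  · exact fun h => h12 (by exact_mod_cast h)
  · exact fun h => h23 (by exact_mod_cast h)

lemma cls_aux {N W E A B D e₁ e₂ e₃ : ℤ} (hN : 2 * W * E < N) (hA' : |A| ≤ W) (hB' : |B| ≤ W)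
    (h31 : |e₃ - e₁| ≤ E) (h21 : |e₂ - e₁| ≤ E) (hD : D ≠ 0)
    (h0 : N * D + (A * (e₃ - e₁) - B * (e₂ - e₁)) = 0) : False := by
  set F : ℤ := A * (e₃ - e₁) - B * (e₂ - e₁) with hF
  have hFb : |F| ≤ 2 * W * E := abs_comb_le hA' hB' h31 h21
  have hWE : 0 ≤ W * E := mul_nonneg ((abs_nonneg A).trans hA') ((abs_nonneg _).trans h31)
  have hN0 : 0 < N := by linarith
  have h5 : 1 ≤ |D| := Int.one_le_abs hD
  have h6 : |F| = N * |D| := by
    have : F = - (N * D) := by linarith
    rw [this, abs_neg, abs_mul, abs_of_pos hN0]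
  have h7 : N ≤ |F| := by
    rw [h6]
    nlinarith
  linarith

/-- Perturbed rows are in general position. -/
lemma cls_gen {k : ℕ} {r₁ r₂ r₃ : ℕ} (h1 : r₁ < R k) (h2 : r₂ < R k) (h3 : r₃ < R k)
    (h12 : r₁ ≠ r₂) (h23 : r₂ ≠ r₃) {A B : ℤ} (hA : A ≠ 0) (hB : B ≠ 0)
    (hA' : |A| ≤ W k) (hB' : |B| ≤ W k) {N E e₁ e₂ e₃ : ℕ} (hN : 2 * W k * E < N)
    (he1 : e₁ ≤ E) (he2 : e₂ ≤ E) (he3 : e₃ ≤ E) :
    A * (((N * H k r₃ + e₃ : ℕ) : ℤ) - (N * H k r₁ + e₁ : ℕ)) -
      B * (((N * H k r₂ + e₂ : ℕ) : ℤ) - (N * H k r₁ + e₁ : ℕ)) ≠ 0 := by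
  intro h0
  have hg := H_gen h1 h2 h3 h12 h23 hA hB hA' hB'
  have hN' : (2 : ℤ) * W k * E < N := by exact_mod_cast hN
  refine cls_aux hN' hA' hB' (natd he3 he1) (natd he2 he1) hg ?_
  rw [Nat.cast_add, Nat.cast_add, Nat.cast_add, Nat.cast_mul, Nat.cast_mul, Nat.cast_mul] at h0
  linarith

lemma vv_le {n a : ℕ} (h : a < n) : vv n a ≤ VV n := by
  unfold vv VV
  have : a * a ≤ n * n := by nlinarith
  gcongr

lemma vv_inj {n a b : ℕ} (h : vv n a = vv n b) : a = b := by
  unfold vv at h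
  rcases lt_trichotomy a b with h1 | h1 | h1
  · exfalso
    have : 2 * n * (a * a) ≤ 2 * n * (b * b) := by gcongr
    omega
  · exact h1
  · exfalso
    have : 2 * n * (b * b) ≤ 2 * n * (a * a) := by gcongr
    omega

/-- The values form a Golomb ruler. -/
lemma vv_gol {n a b a' b' : ℕ} (ha : a < n) (hb : b < n) (ha' : a' < n) (hb' : b' < n)
    (hne : a' ≠ b') (h : vv n a + vv n b' = vv n a' + vv n b) : a = a' ∧ b = b' := by
  have h1 : ((a : ℤ) - b - (a' - b')) + 2 * n * ((a : ℤ) * a - b * b - (a' * a' - b' * b')) = 0 := by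
    have : ((vv n a : ℕ) : ℤ) + vv n b' = vv n a' + vv n b := by exact_mod_cast h
    unfold vv at this
    push_cast at this
    linarith
  set P : ℤ := (a : ℤ) - b - (a' - b') with hP
  set P2 : ℤ := (a : ℤ) * a - b * b - (a' * a' - b' * b') with hP2
  have hPb : |P| < 2 * n := by
    rw [abs_lt]
    constructor <;> omega
  have hP20 : P2 = 0 := by
    by_contra hne
    have h5 : 1 ≤ |P2| := Int.one_le_abs hne
    have h6 : |P| = 2 * n * |P2| := by
      have : P = - (2 * n * P2) := by linarith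
      rw [this, abs_neg, abs_mul, abs_of_nonneg (by positivity : (0 : ℤ) ≤ 2 * n)]
    nlinarith
  have hP0 : P = 0 := by rw [hP20, mul_zero, add_zero] at h1; exact h1
  have h8 : (a : ℤ) - b = a' - b' := by linarith
  have h9 : ((a' : ℤ) - b') * ((a : ℤ) + b - (a' + b')) = 0 := by
    have : P2 = ((a : ℤ) - b) * (a + b) - ((a' : ℤ) - b') * (a' + b') := by rw [hP2]; ring
    rw [h8, hP20] at this
    linarith
  rcases mul_eq_zero.1 h9 with h10 | h10
  · exfalso; exact hne (by omega)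
  · omega

lemma pi_lt {k τ i : ℕ} (hk : 0 < k) (hi : i < M k) : pi k τ i < M k := by
  unfold pi M at *
  split_ifs with h
  · exact hi
  · have h1 : (i % k + τ) % k < k := Nat.mod_lt _ hk
    have h2 : i / k < k := Nat.div_lt_of_lt_mul hi
    calc _ < ((i % k + τ) % k) * k + k := by omega
      _ = ((i % k + τ) % k + 1) * k := by ring
      _ ≤ k * k := Nat.mul_le_mul_right _ h1

lemma pinv_lt {k τ j : ℕ} (hk : 0 < k) (hj : j < M k) : pinv k τ j < M k := by
  unfold pinv M at *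
  split_ifs with h
  · exact hj
  · have h1 : (j / k + k - τ) % k < k := Nat.mod_lt _ hk
    have h2 : j % k < k := Nat.mod_lt _ hk
    calc _ < (j % k) * k + k := by omega
      _ = (j % k + 1) * k := by ring
      _ ≤ k * k := Nat.mul_le_mul_right _ h2

lemma div_aux {k a b : ℕ} (hb : b < k) : (a * k + b) / k = a := by
  rw [Nat.mul_comm, Nat.mul_add_div (by omega), Nat.div_eq_of_lt hb, add_zero]

lemma mod_aux {k a b : ℕ} (hb : b < k) : (a * k + b) % k = b := by
  rw [Nat.mul_comm, Nat.mul_add_mod, Nat.mod_eq_of_lt hb]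

lemma mod_ge {a k : ℕ} (h : k ≤ a) (h2 : a < 2 * k) : a % k = a - k := by
  rw [Nat.mod_eq_sub_mod h, Nat.mod_eq_of_lt (by omega)]

lemma mod_shift {k a t : ℕ} (ha : a < k) (ht : t < k) :
    (((a + t) % k) + k - t) % k = a := by
  by_cases h : a + t < k
  · rw [Nat.mod_eq_of_lt h, show a + t + k - t = a + k by omega, Nat.add_mod_right,
      Nat.mod_eq_of_lt ha]
  · rw [mod_ge (by omega : k ≤ a + t) (by omega),
      show a + t - k + k - t = a by omega, Nat.mod_eq_of_lt ha]

lemma mod_shift' {k a t : ℕ} (ha : a < k) (ht : t < k) :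
    (((a + k - t) % k) + t) % k = a := by
  by_cases h : t ≤ a
  · rw [mod_ge (by omega : k ≤ a + k - t) (by omega),
      show a + k - t - k + t = a by omega, Nat.mod_eq_of_lt ha]
  · rw [Nat.mod_eq_of_lt (by omega : a + k - t < k), show a + k - t + t = a + k by omega,
      Nat.add_mod_right, Nat.mod_eq_of_lt ha]

lemma pinv_pi {k τ i : ℕ} (hk : 3 ≤ k) (hτ : τ < 3) (hi : i < M k) :
    pinv k τ (pi k τ i) = i := by
  unfold pi pinv M at *
  by_cases h : τ = 0
  · simp [h]
  · rw [if_neg h, if_neg h]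
    have h2 : i / k < k := Nat.div_lt_of_lt_mul hi
    have h3 : i % k < k := Nat.mod_lt _ (by omega)
    rw [div_aux h2, mod_aux h2, mod_shift h3 (by omega), Nat.mul_comm]
    exact Nat.div_add_mod i k

lemma pi_pinv {k τ j : ℕ} (hk : 3 ≤ k) (hτ : τ < 3) (hj : j < M k) :
    pi k τ (pinv k τ j) = j := by
  unfold pi pinv M at *
  by_cases h : τ = 0
  · simp [h]
  · rw [if_neg h, if_neg h]
    have h2 : j / k < k := Nat.div_lt_of_lt_mul hj
    have h3 : (j / k + k - τ) % k < k := Nat.mod_lt _ (by omega)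
    rw [div_aux h3, mod_aux h3, mod_shift' h2 (by omega), Nat.mul_comm]
    exact Nat.div_add_mod j k

lemma pi_ne {k τ τ' i : ℕ} (hk : 3 ≤ k) (hτ : τ < 3) (hτ' : τ' < 3) (hi : i < M k)
    (h : pi k τ i = pi k τ' i) : τ = τ' := by
  have h2 : i / k < k := Nat.div_lt_of_lt_mul hi
  have h3 : i % k < k := Nat.mod_lt _ (by omega)
  have hie : i = (i / k) * k + i % k := by
    rw [Nat.mul_comm]; exact (Nat.div_add_mod i k).symm
  have key : ∀ t, t ≠ 0 → t < 3 → i ≠ pi k t i := by
    intro t ht ht3 he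
    unfold pi at he
    rw [if_neg ht] at he
    have e1 : i / k = (i % k + t) % k := by
      conv_lhs => rw [he]
      rw [div_aux h2]
    have e2 : i % k = i / k := by
      conv_lhs => rw [he]
      rw [mod_aux h2]
    rw [← e2] at e1
    by_cases h4 : i % k + t < k
    · rw [Nat.mod_eq_of_lt h4] at e1; omega
    · rw [mod_ge (by omega : k ≤ i % k + t) (by omega)] at e1
      omega
  by_cases h4 : τ = 0
  · by_cases h5 : τ' = 0
    · omega
    · exfalso
      rw [h4] at h
      have : pi k 0 i = i := by simp [pi]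
      rw [this] at h
      exact key τ' h5 hτ' h
  · by_cases h5 : τ' = 0
    · exfalso
      rw [h5] at h
      have : pi k 0 i = i := by simp [pi]
      rw [this] at h
      exact key τ h4 hτ h.symm
    · unfold pi at h
      rw [if_neg h4, if_neg h5] at h
      have e1 : (i % k + τ) % k = (i % k + τ') % k := by
        have := congrArg (· / k) h
        simp only [div_aux h2] at this
        exact this
      by_cases h6 : i % k + τ < k <;> by_cases h7 : i % k + τ' < k
      · rw [Nat.mod_eq_of_lt h6, Nat.mod_eq_of_lt h7] at e1; omega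
      · rw [Nat.mod_eq_of_lt h6, mod_ge (by omega : k ≤ i % k + τ') (by omega)] at e1; omega
      · rw [Nat.mod_eq_of_lt h7, mod_ge (by omega : k ≤ i % k + τ) (by omega)] at e1; omega
      · rw [mod_ge (by omega : k ≤ i % k + τ) (by omega),
          mod_ge (by omega : k ≤ i % k + τ') (by omega)] at e1
        omega

end Con

end Pool.Agent.Obst
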