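import Pool.Agent.Obst.Points

/-!
# Adding three universal vertices
-/

namespace Pool.Agent.Obst

namespace Con

/-- Three further vertices adjacent to all vertices. -/
def padj (n0 : ℕ) (adj : ℕ → ℕ → Prop) (a b : ℕ) : Prop :=
  a ≠ b ∧ (n0 ≤ a ∨ n0 ≤ b ∨ adj a b)

lemma padj_irr (n n0 : ℕ) (adj : ℕ → ℕ → Prop) : Irr n (padj n0 adj) := fun _ _ h => h.1 rfl

lemma pad_iff {n0 k0 : ℕ} (G : SimpleGraph (Fin n0)) (adj : ℕ → ℕ → Prop)
    (hadj : ∀ a b : Fin n0, adj a b ↔ G.Adj a b) :
    (∃ x, IsClq (n0 + 3) (k0 + 3) (padj n0 adj) x) ↔ ¬ G.CliqueFree k0 := by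
  classical
  constructor
  · rintro ⟨x, hx1, hx2⟩ hfree
    have hinj : Set.InjOn x (Finset.range (k0 + 3)) := by
      intro u hu v hv huv
      by_contra hne
      have hu' : u < k0 + 3 := by simpa using hu
      have hv' : v < k0 + 3 := by simpa using hv
      exact (hx2 u hu' v hv' hne).1 huv
    set s := (Finset.range (k0 + 3)).image x with hs
    have hsc : s.card = k0 + 3 := by
      rw [hs, Finset.card_image_of_injOn hinj, Finset.card_range]
    have hB : (s.filter (fun a => ¬ a < n0)).card ≤ 3 := by
      have hsub : s.filter (fun a => ¬ a < n0) ⊆ Finset.Ico n0 (n0 + 3) := by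
        intro a ha
        rw [Finset.mem_filter, hs, Finset.mem_image] at ha
        obtain ⟨⟨u, hu, rfl⟩, ha2⟩ := ha
        have := hx1 u (Finset.mem_range.1 hu)
        rw [Finset.mem_Ico]
        omega
      have := Finset.card_le_card hsub
      rw [Nat.card_Ico] at this
      omega
    have hA : k0 ≤ (s.filter (fun a => a < n0)).card := by
      have := Finset.card_filter_add_card_filter_not (s := s) (fun a => a < n0)
      omega
    set t : Finset (Fin n0) := Finset.univ.filter (fun i => (i : ℕ) ∈ s) with ht
    have htc : t.card = (s.filter (fun a => a < n0)).card := by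
      rw [← Finset.card_image_of_injective t Fin.val_injective]
      congr 1
      ext a
      rw [Finset.mem_image, Finset.mem_filter]
      constructor
      · rintro ⟨i, hi, rfl⟩
        rw [ht, Finset.mem_filter] at hi
        exact ⟨hi.2, i.2⟩
      · rintro ⟨h1, h2⟩
        exact ⟨⟨a, h2⟩, by rw [ht, Finset.mem_filter]; exact ⟨Finset.mem_univ _, h1⟩, rfl⟩
    have htcl : G.IsClique (t : Set (Fin n0)) := by
      intro i hi j hj hij
      rw [Finset.mem_coe, ht, Finset.mem_filter, hs, Finset.mem_image] at hi hj
      obtain ⟨-, u, hu, hui⟩ := hi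
      obtain ⟨-, v, hv, hvj⟩ := hj
      have huv : u ≠ v := by
        rintro rfl
        exact hij (Fin.ext (hui.symm.trans hvj))
      have h := hx2 u (Finset.mem_range.1 hu) v (Finset.mem_range.1 hv) huv
      rw [hui, hvj] at h
      have h1 := i.2
      have h2 := j.2
      rcases h.2 with h3 | h3 | h3
      · omega
      · omega
      · exact (hadj i j).1 h3
    obtain ⟨t', ht', hc'⟩ := Finset.exists_subset_card_eq (hA.trans htc.ge)
    exact hfree t' ⟨htcl.subset (by exact_mod_cast ht'), hc'⟩
  · intro h
    unfold SimpleGraph.CliqueFree at h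
    push Not at h
    obtain ⟨s, hs, hc⟩ := h
    set e := (s.equivFinOfCardEq hc).symm with he
    refine ⟨fun u => if h : u < k0 then ((e ⟨u, h⟩ : Fin n0) : ℕ) else n0 + (u - k0), ?_, ?_⟩
    · intro u hu
      by_cases h1 : u < k0
      · simp only [h1, dif_pos]
        have := (e ⟨u, h1⟩ : Fin n0).2
        omega
      · simp only [h1, dif_neg, not_false_eq_true]
        omega
    · intro u hu v hv huv
      by_cases h1 : u < k0
      · by_cases h2 : v < k0
        · simp only [h1, h2, dif_pos]
          have hne : (e ⟨u, h1⟩ : Fin n0) ≠ (e ⟨v, h2⟩ : Fin n0) := by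
            intro hh
            have := e.injective (Subtype.ext hh)
            simp at this
            exact huv this
          refine ⟨fun hh => hne (Fin.ext hh), Or.inr (Or.inr ?_)⟩
          rw [hadj]
          exact hs (e ⟨u, h1⟩).2 (e ⟨v, h2⟩).2 hne
        · simp only [h1, h2, dif_pos, dif_neg, not_false_eq_true]
          have := (e ⟨u, h1⟩ : Fin n0).2
          exact ⟨by omega, Or.inr (Or.inl (by omega))⟩
      · by_cases h2 : v < k0
        · simp only [h1, h2, dif_pos, dif_neg, not_false_eq_true]
          have := (e ⟨v, h2⟩ : Fin n0).2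
          exact ⟨by omega, Or.inl (by omega)⟩
        · simp only [h1, h2, dif_neg, not_false_eq_true]
          exact ⟨by omega, Or.inl (by omega)⟩

end Con

end Pool.Agent.Obst
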