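import Pool.Agent.Obst.Defs

/-!
# Patterns are given by finitely many obstacles
-/

namespace Pool.Agent.Obst

open Function

/-- The determinant whose sign is the orientation up to sign. -/
def dt (p q r : ℝ × ℝ) : ℝ := (q.1 - p.1) * (r.2 - p.2) - (r.1 - p.1) * (q.2 - p.2)

lemma ori_eq (p q r : ℝ × ℝ) : ori p q r = - SignType.sign (dt p q r) := by
  unfold ori dt
  congr 2
  ring

lemma ori_eq_zero {p q r : ℝ × ℝ} : ori p q r = 0 ↔ dt p q r = 0 := by
  rw [ori_eq]
  constructor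
  · intro h
    have h1 := congrArg Neg.neg h
    rw [neg_neg] at h1
    exact sign_eq_zero_iff.1 (by simpa using h1)
  · intro h; rw [h]; simp

lemma ori_eq_neg_one {p q r : ℝ × ℝ} : ori p q r = -1 ↔ 0 < dt p q r := by
  rw [ori_eq]
  constructor
  · intro h
    have h1 := congrArg Neg.neg h
    rw [neg_neg, neg_neg] at h1
    exact sign_eq_one_iff.1 h1
  · intro h; rw [sign_pos h]

lemma ori_eq_one {p q r : ℝ × ℝ} : ori p q r = 1 ↔ dt p q r < 0 := by
  rw [ori_eq]
  constructor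
  · intro h
    have h1 := congrArg Neg.neg h
    rw [neg_neg] at h1
    exact sign_eq_neg_one_iff.1 h1
  · intro h; rw [sign_neg h]; rfl

/-- The orientation function of a family of points. -/
noncomputable def oriF {ι : Type} (P : ι → ℝ × ℝ) : ι → ι → ι → SignType :=
  fun i j l => ori (P i) (P j) (P l)

/-- The property `Φ` of families of points depends on the orientations only. -/
def OriInv {ι : Type} (Φ : (ι → ℝ × ℝ) → Prop) : Prop :=
  ∀ P P', oriF P = oriF P' → (Φ P → Φ P')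

/-- `S` contains no injective family with the property `Φ`. -/
def Free {ι : Type} (Φ : (ι → ℝ × ℝ) → Prop) (S : Config) : Prop :=
  ∀ P : ι → ℝ × ℝ, Injective P → (∀ i, P i ∈ S) → ¬ Φ P

theorem exists_obstacles {ι : Type} [Fintype ι] [DecidableEq ι] (Φ : (ι → ℝ × ℝ) → Prop)
    (hΦ : OriInv Φ) : ∃ Obs : Finset Config, ∀ S, Avoids Obs S ↔ Free Φ S := by
  classical
  set O : Set (ι → ι → ι → SignType) :=
    {o | ∃ P : ι → ℝ × ℝ, Injective P ∧ Φ P ∧ oriF P = o} with hO
  have hfin : O.Finite := Set.toFinite O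
  have hch : ∀ o : ι → ι → ι → SignType, ∃ P : ι → ℝ × ℝ,
      o ∈ O → Injective P ∧ Φ P ∧ oriF P = o := by
    intro o
    by_cases h : o ∈ O
    · obtain ⟨P, hP⟩ := h
      exact ⟨P, fun _ => hP⟩
    · exact ⟨fun _ => 0, fun h' => absurd h' h⟩
  choose R hR using hch
  refine ⟨hfin.toFinset.image fun o => Finset.univ.image (R o), ?_⟩
  intro S
  constructor
  · intro hav P hinj hPS hP
    have ho : oriF P ∈ O := ⟨P, hinj, hP, rfl⟩
    obtain ⟨h1, h2, h3⟩ := hR _ ho
    refine hav (Finset.univ.image (R (oriF P)))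
      (Finset.mem_image.2 ⟨_, hfin.mem_toFinset.2 ho, rfl⟩) ?_
    have hsurj : ∀ a : {x // x ∈ Finset.univ.image (R (oriF P))}, ∃ i, R (oriF P) i = a := by
      rintro ⟨a, ha⟩
      obtain ⟨i, -, hi⟩ := Finset.mem_image.1 ha
      exact ⟨i, hi⟩
    choose g hg using hsurj
    refine ⟨fun a => ⟨P (g a), hPS _⟩, ?_, ?_⟩
    · intro a b hab
      have h4 : P (g a) = P (g b) := congrArg Subtype.val hab
      have h5 := hinj h4
      apply Subtype.ext
      rw [← hg a, ← hg b, h5]
    · intro a b c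
      show ori (P (g a)) (P (g b)) (P (g c)) = ori a b c
      rw [← hg a, ← hg b, ← hg c]
      have := congrFun (congrFun (congrFun h3 (g a)) (g b)) (g c)
      exact this.symm
  · intro hfree C hC hinst
    obtain ⟨o, ho, rfl⟩ := Finset.mem_image.1 hC
    obtain ⟨h1, h2, h3⟩ := hR o (hfin.mem_toFinset.1 ho)
    obtain ⟨φ, hφ, hφo⟩ := hinst
    have hmem : ∀ i, R o i ∈ Finset.univ.image (R o) := fun i =>
      Finset.mem_image.2 ⟨i, Finset.mem_univ _, rfl⟩
    refine hfree (fun i => (φ ⟨R o i, hmem i⟩ : ℝ × ℝ)) ?_ (fun i => (φ _).2) ?_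
    · intro i j hij
      have := hφ (Subtype.ext hij)
      exact h1 (congrArg Subtype.val this)
    · refine hΦ (R o) _ ?_ h2
      funext i j l
      exact (hφo ⟨R o i, hmem i⟩ ⟨R o j, hmem j⟩ ⟨R o l, hmem l⟩).symm

lemma le_AVOIDS {Obs : Finset Config} {S S' : Config} (h : S' ⊆ S) (h' : Avoids Obs S') :
    S'.card ≤ AVOIDS Obs S := by
  classical
  unfold AVOIDS
  exact Finset.le_sup (f := Finset.card) (Finset.mem_filter.2 ⟨Finset.mem_powerset.2 h, h'⟩)

lemma AVOIDS_le {Obs : Finset Config} {S : Config} {K : ℕ}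
    (h : ∀ S' ⊆ S, Avoids Obs S' → S'.card ≤ K) : AVOIDS Obs S ≤ K := by
  classical
  unfold AVOIDS
  apply Finset.sup_le
  intro S' hS'
  rw [Finset.mem_filter, Finset.mem_powerset] at hS'
  exact h S' hS'.1 hS'.2

lemma exists_of_le_AVOIDS {Obs : Finset Config} {S : Config} {K : ℕ} (hK : 0 < K)
    (h : K ≤ AVOIDS Obs S) : ∃ S' ⊆ S, Avoids Obs S' ∧ K ≤ S'.card := by
  classical
  unfold AVOIDS at h
  rw [Finset.le_sup_iff (by simpa using hK)] at h
  obtain ⟨S', hS', hc⟩ := h
  rw [Finset.mem_filter, Finset.mem_powerset] at hS'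
  exact ⟨S', hS'.1, hS'.2, hc⟩

end Pool.Agent.Obst
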