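import Pool.Agent.Obst.Clique
import Pool.Agent.Obst.Model

/-!
# The list of the points of the concrete design
-/

namespace Pool.Agent.Obst

open Function

lemma PointList.card_conf (P : PointList) : P.conf.card = P.n := by
  unfold PointList.conf
  rw [Finset.card_map, Finset.card_univ, Fintype.card_fin]

lemma PointList.mem_conf (P : PointList) {z : ℝ × ℝ} : z ∈ P.conf ↔ ∃ i, P.p i = z := by
  unfold PointList.conf
  simp

namespace Con

/-- number of points -/
def NP (n k : ℕ) : ℕ := 31 + Qc k * (15 + n * n)

/-- abscissae of the points -/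
def PX (n k t : ℕ) : ℕ :=
  if t < 16 then 15 else if t < 31 then 30 - t else XN k ((t - 31) / (15 + n * n))

/-- ordinates of the points -/
noncomputable def PY (n k : ℕ) (adj : ℕ → ℕ → Prop) (t : ℕ) : ℕ :=
  if t < 16 then Th n k + t else if t < 31 then Th n k else
    if (t - 31) % (15 + n * n) < 15 then
      YaN n k ((t - 31) / (15 + n * n)) ((t - 31) % (15 + n * n))
    else YdN n k adj ((t - 31) / (15 + n * n)) ((t - 31) % (15 + n * n) - 15)

variable {n k : ℕ} {adj : ℕ → ℕ → Prop}

/-- The points. -/
noncomputable def PP (n k : ℕ) (adj : ℕ → ℕ → Prop) (t : ℕ) : ℝ × ℝ :=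
  ((PX n k t : ℝ), (PY n k adj t : ℝ))

lemma t_div {t : ℕ} (ht : t < NP n k) : (t - 31) / (15 + n * n) < Qc k ∨ t < 31 := by
  unfold NP at ht
  by_cases h : t < 31
  · exact Or.inr h
  · left
    apply Nat.div_lt_of_lt_mul
    rw [Nat.mul_comm]
    omega

lemma t_mod (t : ℕ) : (t - 31) % (15 + n * n) < 15 + n * n := Nat.mod_lt _ (by omega)

lemma PP_inj (hk : 3 ≤ k) (hn : 0 < n) (hirr : Irr n adj) {t t' : ℕ} (ht : t < NP n k)
    (ht' : t' < NP n k) (h : PP n k adj t = PP n k adj t') : t = t' := by
  have hX : PX n k t = PX n k t' := by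
    have h1 : ((PX n k t : ℕ) : ℝ) = PX n k t' := congrArg Prod.fst h
    exact_mod_cast h1
  have hY : PY n k adj t = PY n k adj t' := by
    have h1 : ((PY n k adj t : ℕ) : ℝ) = PY n k adj t' := congrArg Prod.snd h
    exact_mod_cast h1
  have g1 := t_div ht
  have g2 := t_div ht'
  have m1 := t_mod (n := n) t
  have m2 := t_mod (n := n) t'
  have e1 := Nat.div_add_mod (t - 31) (15 + n * n)
  have e2 := Nat.div_add_mod (t' - 31) (15 + n * n)
  unfold PX at hX
  unfold PY at hY
  by_cases a1 : t < 16
  · rw [if_pos a1] at hX hY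
    by_cases b1 : t' < 16
    · rw [if_pos b1] at hX hY
      omega
    · rw [if_neg b1] at hX hY
      by_cases b2 : t' < 31
      · rw [if_pos b2] at hX hY
        omega
      · rw [if_neg b2] at hX
        have := XN_ge k ((t' - 31) / (15 + n * n))
        omega
  · rw [if_neg a1] at hX hY
    by_cases a2 : t < 31
    · rw [if_pos a2] at hX hY
      by_cases b1 : t' < 16
      · rw [if_pos b1] at hX hY
        omega
      · rw [if_neg b1] at hX hY
        by_cases b2 : t' < 31
        · rw [if_pos b2] at hX hY
          omega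
        · rw [if_neg b2] at hX
          have := XN_ge k ((t' - 31) / (15 + n * n))
          omega
    · rw [if_neg a2] at hX hY
      by_cases b1 : t' < 16
      · rw [if_pos b1] at hX hY
        have := XN_ge k ((t - 31) / (15 + n * n))
        omega
      · rw [if_neg b1] at hX hY
        by_cases b2 : t' < 31
        · rw [if_pos b2] at hX
          have := XN_ge k ((t - 31) / (15 + n * n))
          omega
        · rw [if_neg b2] at hX hY
          have hq := XN_inj hk hX
          rw [← hq] at hY e2
          have hqQ : (t - 31) / (15 + n * n) < Qc k := by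
            rcases g1 with g1 | g1
            · exact g1
            · exact absurd g1 a2
          have hmm : (t - 31) % (15 + n * n) = (t' - 31) % (15 + n * n) := by
            by_cases c1 : (t - 31) % (15 + n * n) < 15
            · rw [if_pos c1] at hY
              by_cases c2 : (t' - 31) % (15 + n * n) < 15
              · rw [if_pos c2] at hY
                unfold YaN at hY
                have h2 : H k (row k ((t - 31) / (15 + n * n)) ((t - 31) % (15 + n * n))) =
                  H k (row k ((t - 31) / (15 + n * n)) ((t' - 31) % (15 + n * n))) := by omega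
                exact row_inj hk (H_inj h2)
              · exfalso
                rw [if_neg c2] at hY
                have h2 := YdN_lt (adj := adj) hk hn hqQ
                  (by omega : (t' - 31) % (15 + n * n) - 15 < n * n)
                rw [← hY] at h2
                unfold YaN at h2
                omega
            · rw [if_neg c1] at hY
              by_cases c2 : (t' - 31) % (15 + n * n) < 15
              · exfalso
                rw [if_pos c2] at hY
                have h2 := YdN_lt (adj := adj) hk hn hqQ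
                  (by omega : (t - 31) % (15 + n * n) - 15 < n * n)
                rw [hY] at h2
                unfold YaN at h2
                omega
              · rw [if_neg c2] at hY
                have h2 := YdN_inj hk hn hirr
                  (by omega : (t - 31) % (15 + n * n) - 15 < n * n)
                  (by omega : (t' - 31) % (15 + n * n) - 15 < n * n) hY
                omega
          rw [hmm] at e1
          omega

lemma PP_mem (hk : 3 ≤ k) (hn : 0 < n) (hirr : Irr n adj) {t : ℕ} (ht : t < NP n k) :
    PP n k adj t ∈ (des n k adj hk hn hirr).S := by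
  rw [Design.mem_S]
  have g1 := t_div ht
  have m1 := t_mod (n := n) t
  by_cases a1 : t < 16
  · left
    by_cases a0 : t = 0
    · left
      subst a0
      unfold PP PX PY
      rw [if_pos (by omega), if_pos (by omega)]
      show _ = ((15 : ℝ), (Th n k : ℝ))
      push_cast
      simp
    · right; left
      refine ⟨t - 1, by omega, ?_⟩
      unfold PP PX PY
      rw [if_pos (by omega), if_pos (by omega)]
      show _ = ((15 : ℝ), (Th n k : ℝ) + (((t - 1 : ℕ) : ℝ) + 1))
      have : ((t - 1 : ℕ) : ℝ) = (t : ℝ) - 1 := by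
        rw [Nat.cast_sub (by omega), Nat.cast_one]
      rw [this]
      push_cast
      simp
  · by_cases a2 : t < 31
    · left; right; right
      refine ⟨t - 16, by omega, ?_⟩
      unfold PP PX PY
      rw [if_neg a1, if_neg a1, if_pos a2, if_pos a2]
      show _ = ((15 : ℝ) - (((t - 16 : ℕ) : ℝ) + 1), (Th n k : ℝ))
      have e1 : ((t - 16 : ℕ) : ℝ) = (t : ℝ) - 16 := by
        rw [Nat.cast_sub (by omega)]; norm_num
      have e2 : ((30 - t : ℕ) : ℝ) = 30 - (t : ℝ) := by
        rw [Nat.cast_sub (by omega)]; norm_num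
      rw [e1, e2]
      congr 1
      ring
    · right
      have hqQ : (t - 31) / (15 + n * n) < Qc k := by
        rcases g1 with g1 | g1
        · exact g1
        · exact absurd g1 a2
      by_cases c1 : (t - 31) % (15 + n * n) < 15
      · left
        refine ⟨(t - 31) / (15 + n * n), hqQ, (t - 31) % (15 + n * n), c1, ?_⟩
        unfold PP PX PY
        rw [if_neg a1, if_neg a1, if_neg a2, if_neg a2, if_pos c1]
        rfl
      · right
        refine ⟨(t - 31) / (15 + n * n), hqQ, (t - 31) % (15 + n * n) - 15, ?_, ?_⟩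
        · show _ < n * n
          omega
        · unfold PP PX PY
          rw [if_neg a1, if_neg a1, if_neg a2, if_neg a2, if_neg c1]
          rfl

lemma PP_surj (hk : 3 ≤ k) (hn : 0 < n) (hirr : Irr n adj) {z : ℝ × ℝ}
    (hz : z ∈ (des n k adj hk hn hirr).S) : ∃ t < NP n k, PP n k adj t = z := by
  rw [Design.mem_S] at hz
  have hcol : ∀ q < Qc k, ∀ m < 15 + n * n, 31 + (q * (15 + n * n) + m) < NP n k ∧
      ¬ (31 + (q * (15 + n * n) + m) < 16) ∧ ¬ (31 + (q * (15 + n * n) + m) < 31) ∧
      (31 + (q * (15 + n * n) + m) - 31) / (15 + n * n) = q ∧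
      (31 + (q * (15 + n * n) + m) - 31) % (15 + n * n) = m := by
    intro q hq m hm
    refine ⟨?_, by omega, by omega, ?_, ?_⟩
    · unfold NP
      have : (q + 1) * (15 + n * n) ≤ Qc k * (15 + n * n) := Nat.mul_le_mul_right _ hq
      have e : (q + 1) * (15 + n * n) = q * (15 + n * n) + (15 + n * n) := by ring
      omega
    · rw [Nat.add_sub_cancel_left]; exact div_aux hm
    · rw [Nat.add_sub_cancel_left]; exact mod_aux hm
  have h31 : 31 ≤ NP n k := by unfold NP; omega
  rcases hz with (rfl | ⟨t, ht, rfl⟩ | ⟨t, ht, rfl⟩) | ⟨q, hq, s, hs, rfl⟩ | ⟨q, hq, d, hd, rfl⟩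
  · refine ⟨0, by omega, ?_⟩
    unfold PP PX PY
    rw [if_pos (by omega), if_pos (by omega)]
    show _ = ((15 : ℝ), (Th n k : ℝ))
    push_cast
    simp
  · refine ⟨t + 1, by omega, ?_⟩
    unfold PP PX PY
    rw [if_pos (by omega), if_pos (by omega)]
    show _ = ((15 : ℝ), (Th n k : ℝ) + (((t : ℕ) : ℝ) + 1))
    push_cast
    rfl
  · refine ⟨t + 16, by omega, ?_⟩
    unfold PP PX PY
    have a1 : ¬ (t + 16 < 16) := by omega
    have a2 : t + 16 < 31 := by omega
    rw [if_neg a1, if_neg a1, if_pos a2, if_pos a2]
    show _ = ((15 : ℝ) - (((t : ℕ) : ℝ) + 1), (Th n k : ℝ))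
    have e2 : ((30 - (t + 16) : ℕ) : ℝ) = 30 - ((t : ℝ) + 16) := by
      rw [Nat.cast_sub (by omega)]; push_cast; ring
    rw [e2]
    congr 1
    ring
  · obtain ⟨h1, h2, h3, h4, h5⟩ := hcol q hq s (by omega)
    refine ⟨31 + (q * (15 + n * n) + s), h1, ?_⟩
    unfold PP PX PY
    rw [if_neg h2, if_neg h2, if_neg h3, if_neg h3, h4, h5, if_pos hs]
    rfl
  · have hd' : d < n * n := hd
    obtain ⟨h1, h2, h3, h4, h5⟩ := hcol q hq (15 + d) (by omega)
    refine ⟨31 + (q * (15 + n * n) + (15 + d)), h1, ?_⟩
    unfold PP PX PY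
    rw [if_neg h2, if_neg h2, if_neg h3, if_neg h3, h4, h5, if_neg (by omega),
      Nat.add_sub_cancel_left]
    rfl

/-- The list of the points. -/
noncomputable def PL (n k : ℕ) (adj : ℕ → ℕ → Prop) (hk : 3 ≤ k) (hn : 0 < n)
    (hirr : Irr n adj) : PointList where
  n := NP n k
  p t := PP n k adj t
  inj := fun t t' h => Fin.ext (PP_inj hk hn hirr t.2 t'.2 h)

lemma PL_conf (hk : 3 ≤ k) (hn : 0 < n) (hirr : Irr n adj) :
    (PL n k adj hk hn hirr).conf = (des n k adj hk hn hirr).S := by
  ext z
  rw [PointList.mem_conf]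
  constructor
  · rintro ⟨i, rfl⟩
    exact PP_mem hk hn hirr i.2
  · intro hz
    obtain ⟨t, ht, h⟩ := PP_surj hk hn hirr hz
    exact ⟨⟨t, ht⟩, h⟩

end Con

end Pool.Agent.Obst
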