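import Pool.Agent.Obst.RedPF

/-!
# The reduction from k-Clique
-/

namespace Pool.Agent.Obst

open Function Pool.Agent.PolyTime

namespace Con

open Classical in
/-- number of consecutive `true`s from the position `s` on -/
noncomputable def lead (x : List Bool) (s : ℕ) : ℕ :=
  ((Finset.range x.length).filter (fun i => ∀ j < i + 1, x.getD (s + j) false = true)).card

lemma lead_eq {x : List Bool} {s m : ℕ} (hm : m ≤ x.length)
    (h1 : ∀ j < m, x.getD (s + j) false = true) (h2 : x.getD (s + m) false = false) :
    lead x s = m := by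
  classical
  unfold lead
  have : (Finset.range x.length).filter (fun i => ∀ j < i + 1, x.getD (s + j) false = true) =
      Finset.range m := by
    ext i
    rw [Finset.mem_filter, Finset.mem_range, Finset.mem_range]
    constructor
    · rintro ⟨-, h⟩
      by_contra hcon
      have := h m (by omega)
      rw [h2] at this
      exact Bool.false_ne_true this
    · intro hi
      exact ⟨by omega, fun j hj => h1 j (by omega)⟩
  rw [this, Finset.card_range]

/-- number of vertices -/
noncomputable def n0 (x : List Bool) : ℕ := lead x 0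
/-- size of the clique -/
noncomputable def k0 (x : List Bool) : ℕ := lead x (n0 x + 1)
/-- adjacency -/
def adjB (x : List Bool) (m s a b : ℕ) : Prop := x.getD (s + (a * m + b)) false = true
/-- adjacency -/
noncomputable def adjX (x : List Bool) : ℕ → ℕ → Prop :=
  padj (n0 x) (adjB x (n0 x) (n0 x + 1 + (k0 x + 1)))

/-- number of points -/
noncomputable def NX (x : List Bool) : ℕ := NP (n0 x + 3) (k0 x + 3)

/-- positive part of the determinant -/
def lhs (X Y : ℕ → ℕ) (a b c : ℕ) : ℕ := X b * Y c + X c * Y a + X a * Y b
/-- negative part of the determinant -/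
def rhs (X Y : ℕ → ℕ) (a b c : ℕ) : ℕ := X b * Y a + X a * Y c + X c * Y b

/-- The two bits of an orientation -/
def obit (X Y : ℕ → ℕ) (a b c e : ℕ) : ℕ :=
  if e = 0 then (if lhs X Y a b c < rhs X Y a b c then 1 else 0)
  else (if rhs X Y a b c < lhs X Y a b c then 1 else 0)

/-- bits of the table -/
noncomputable def tbit (x : List Bool) (u : ℕ) : ℕ :=
  obit (PX (n0 x + 3) (k0 x + 3)) (PY (n0 x + 3) (k0 x + 3) (adjX x))
    (u / (NX x * (NX x * 2))) (u % (NX x * (NX x * 2)) / (NX x * 2))
    (u % (NX x * (NX x * 2)) % (NX x * 2) / 2) (u % (NX x * (NX x * 2)) % (NX x * 2) % 2)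

/-- bits of the output -/
noncomputable def rbit (x : List Bool) (i : ℕ) : ℕ :=
  if i < NX x then 1 else if i = NX x then 0 else tbit x (i - NX x - 1)

/-- length of the output -/
noncomputable def rlen (x : List Bool) : ℕ := NX x + 1 + NX x * (NX x * (NX x * 2))

/-- The reduction. -/
noncomputable def Rd (x : List Bool) : List Bool :=
  (List.range (rlen x)).map (fun i => decide (rbit x i ≠ 0))

section

variable {α : Type} [Ctx α]

lemma pf_lead {F : List Bool → α → ℕ} (hF : PF F) : PF (fun x a => lead x (F x a)) := by
  classical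
  have h1 : PD (fun (x : List Bool) (q : (α × ℕ) × ℕ) => x.getD (F x q.1.1 + q.2) false = true) :=
    PD.bit (PF.add hF.fst.fst PF.snd)
  have h2 : PD (fun (x : List Bool) (p : α × ℕ) => ∀ j < p.2 + 1,
      x.getD (F x p.1 + j) false = true) :=
    PD.forall_lt (B := fun x (p : α × ℕ) => p.2 + 1) (PF.add PF.snd (PF.const 1)) h1
  have h3 := PF.count (P := fun (x : List Bool) (p : α × ℕ) => ∀ j < p.2 + 1,
      x.getD (F x p.1 + j) false = true) (B := fun x (_ : α) => x.length) PF.len h2
  refine h3.congr fun x a => ?_
  unfold lead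
  congr 1

lemma pf_n0 : PF (fun x (_ : α) => n0 x) := pf_lead (PF.const 0)

lemma pf_k0 : PF (fun x (_ : α) => k0 x) := pf_lead (PF.add pf_n0 (PF.const 1))

lemma pd_adjX (F G : List Bool → α → ℕ) (hF : PF F) (hG : PF G) :
    PD (fun x a => adjX x (F x a) (G x a)) := by
  have h1 : PF (fun x (_ : α) => n0 x) := pf_n0
  have h2 : PF (fun x (_ : α) => k0 x) := pf_k0
  have h3 : PF (fun x a => n0 x + 1 + (k0 x + 1) + (F x a * n0 x + G x a)) := by
      repeat (with_reducible first
        | assumption | exact PF.const _ | apply PF.ite | apply PF.add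
        | apply PF.sub | apply PF.mul | apply PF.div | apply PF.mod | apply PD.and | apply PD.or
        | apply PD.lt | apply PD.le | apply PD.eq | apply PD.not)
  have h4 : PD (fun x a => x.getD (n0 x + 1 + (k0 x + 1) + (F x a * n0 x + G x a)) false = true) :=
    PD.bit h3
  exact (PD.not (PD.eq hF hG)).and ((PD.le h1 hF).or ((PD.le h1 hG).or h4))

lemma pf_NX : PF (fun x (_ : α) => NX x) := by
  have h1 : PF (fun x (_ : α) => n0 x) := pf_n0
  have h2 : PF (fun x (_ : α) => k0 x) := pf_k0
  exact pf_NP (PF.add h1 (PF.const 3)) (PF.add h2 (PF.const 3))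

lemma pf_obit {X Y : List Bool → ℕ → ℕ} (hX : ∀ F : List Bool → α → ℕ, PF F →
      PF (fun x a => X x (F x a))) (hY : ∀ F : List Bool → α → ℕ, PF F →
      PF (fun x a => Y x (F x a))) {A B C E : List Bool → α → ℕ} (hA : PF A) (hB : PF B)
    (hC : PF C) (hE : PF E) :
    PF (fun x a => obit (X x) (Y x) (A x a) (B x a) (C x a) (E x a)) := by
  have a1 := hX _ hA
  have a2 := hX _ hB
  have a3 := hX _ hC
  have b1 := hY _ hA
  have b2 := hY _ hB
  have b3 := hY _ hC
  have h1 : PF (fun x a => lhs (X x) (Y x) (A x a) (B x a) (C x a)) := by 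
    unfold lhs
    repeat (with_reducible first
      | assumption | exact PF.const _ | apply PF.ite | apply PF.add
      | apply PF.sub | apply PF.mul | apply PF.div | apply PF.mod | apply PD.and | apply PD.or
      | apply PD.lt | apply PD.le | apply PD.eq | apply PD.not)
  have h2 : PF (fun x a => rhs (X x) (Y x) (A x a) (B x a) (C x a)) := by 
    unfold rhs
    repeat (with_reducible first
      | assumption | exact PF.const _ | apply PF.ite | apply PF.add
      | apply PF.sub | apply PF.mul | apply PF.div | apply PF.mod | apply PD.and | apply PD.or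
      | apply PD.lt | apply PD.le | apply PD.eq | apply PD.not)
  unfold obit
  repeat (with_reducible first
    | assumption | exact PF.const _ | apply PF.ite | apply PF.add
    | apply PF.sub | apply PF.mul | apply PF.div | apply PF.mod | apply PD.and | apply PD.or
    | apply PD.lt | apply PD.le | apply PD.eq | apply PD.not)

lemma pf_tbit {F : List Bool → α → ℕ} (hF : PF F) : PF (fun x a => tbit x (F x a)) := by
  have h1 : PF (fun x (_ : α) => n0 x + 3) := PF.add pf_n0 (PF.const 3)
  have h2 : PF (fun x (_ : α) => k0 x + 3) := PF.add pf_k0 (PF.const 3)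
  have h3 : PF (fun x (_ : α) => NX x) := pf_NX
  have hX : ∀ F : List Bool → α → ℕ, PF F → PF (fun x a => PX (n0 x + 3) (k0 x + 3) (F x a)) :=
    fun F hF => pf_PX (D := fun x _ => n0 x + 3) (F := fun x _ => k0 x + 3) h1 h2 hF
  have hY : ∀ F : List Bool → α → ℕ, PF F →
      PF (fun x a => PY (n0 x + 3) (k0 x + 3) (adjX x) (F x a)) :=
    fun F hF => pf_PY (adj := adjX) (D := fun x _ => n0 x + 3) (F := fun x _ => k0 x + 3)
      pd_adjX h1 h2 hF
  have i1 : PF (fun x a => F x a / (NX x * (NX x * 2))) := by
      repeat (with_reducible first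
        | assumption | exact PF.const _ | apply PF.ite | apply PF.add
        | apply PF.sub | apply PF.mul | apply PF.div | apply PF.mod | apply PD.and | apply PD.or
        | apply PD.lt | apply PD.le | apply PD.eq | apply PD.not)
  have i2 : PF (fun x a => F x a % (NX x * (NX x * 2)) / (NX x * 2)) := by
      repeat (with_reducible first
        | assumption | exact PF.const _ | apply PF.ite | apply PF.add
        | apply PF.sub | apply PF.mul | apply PF.div | apply PF.mod | apply PD.and | apply PD.or
        | apply PD.lt | apply PD.le | apply PD.eq | apply PD.not)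
  have i3 : PF (fun x a => F x a % (NX x * (NX x * 2)) % (NX x * 2) / 2) := by
      repeat (with_reducible first
        | assumption | exact PF.const _ | apply PF.ite | apply PF.add
        | apply PF.sub | apply PF.mul | apply PF.div | apply PF.mod | apply PD.and | apply PD.or
        | apply PD.lt | apply PD.le | apply PD.eq | apply PD.not)
  have i4 : PF (fun x a => F x a % (NX x * (NX x * 2)) % (NX x * 2) % 2) := by
      repeat (with_reducible first
        | assumption | exact PF.const _ | apply PF.ite | apply PF.add
        | apply PF.sub | apply PF.mul | apply PF.div | apply PF.mod | apply PD.and | apply PD.or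
        | apply PD.lt | apply PD.le | apply PD.eq | apply PD.not)
  exact pf_obit (X := fun x => PX (n0 x + 3) (k0 x + 3))
    (Y := fun x => PY (n0 x + 3) (k0 x + 3) (adjX x)) hX hY i1 i2 i3 i4

lemma pf_rbit {F : List Bool → α → ℕ} (hF : PF F) : PF (fun x a => rbit x (F x a)) := by
  have h3 : PF (fun x (_ : α) => NX x) := pf_NX
  have h4 : PF (fun x a => tbit x (F x a - NX x - 1)) := pf_tbit (by
      repeat (with_reducible first
        | assumption | exact PF.const _ | apply PF.ite | apply PF.add
        | apply PF.sub | apply PF.mul | apply PF.div | apply PF.mod | apply PD.and | apply PD.or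
        | apply PD.lt | apply PD.le | apply PD.eq | apply PD.not))
  unfold rbit
  repeat (with_reducible first
    | assumption | exact PF.const _ | apply PF.ite | apply PF.add
    | apply PF.sub | apply PF.mul | apply PF.div | apply PF.mod | apply PD.and | apply PD.or
    | apply PD.lt | apply PD.le | apply PD.eq | apply PD.not)

end

lemma pfBits_Rd : PFBits Rd := by
  refine ⟨rlen, rbit, ?_, ?_, fun x => rfl⟩
  · have h3 : PF (fun x (_ : Unit) => NX x) := pf_NX
    unfold rlen
    repeat (with_reducible first
      | assumption | exact PF.const _ | apply PF.ite | apply PF.add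
      | apply PF.sub | apply PF.mul | apply PF.div | apply PF.mod | apply PD.and | apply PD.or
      | apply PD.lt | apply PD.le | apply PD.eq | apply PD.not)
  · exact pf_rbit PF.snd

/-! ### Lists -/

lemma flat_map_range {β : Type} (a b : ℕ) (f : ℕ → ℕ → β) (hb : 0 < b) :
    ((List.range a).flatMap fun i => (List.range b).map fun j => f i j) =
      (List.range (a * b)).map fun t => f (t / b) (t % b) := by
  induction a with
  | zero => simp
  | succ a ih =>
    rw [List.range_succ, List.flatMap_append, ih, Nat.add_mul, one_mul, List.range_add,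
      List.map_append]
    congr 1
    simp only [List.flatMap_cons, List.flatMap_nil, List.append_nil, List.map_map]
    apply List.map_congr_left
    intro j hj
    have hj' : j < b := List.mem_range.1 hj
    simp only [comp]
    rw [div_aux hj', mod_aux hj']

lemma finRange_flatMap {β : Type} (n : ℕ) (f : ℕ → List β) :
    ((List.finRange n).flatMap fun i : Fin n => f (i : ℕ)) = (List.range n).flatMap f := by
  rw [← List.map_coe_finRange_eq_range, List.flatMap_map]

lemma finRange_map {β : Type} (n : ℕ) (f : ℕ → β) :
    ((List.finRange n).map fun i : Fin n => f (i : ℕ)) = (List.range n).map f := by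
  rw [← List.map_coe_finRange_eq_range, List.map_map]
  rfl

lemma table_eq (N : ℕ) (g : ℕ → ℕ → ℕ → ℕ → Bool) :
    ((List.range N).flatMap fun a => (List.range N).flatMap fun b => (List.range N).flatMap
      fun c => [g a b c 0, g a b c 1]) =
    (List.range (N * (N * (N * 2)))).map fun u => g (u / (N * (N * 2)))
      (u % (N * (N * 2)) / (N * 2)) (u % (N * (N * 2)) % (N * 2) / 2)
      (u % (N * (N * 2)) % (N * 2) % 2) := by
  rcases Nat.eq_zero_or_pos N with rfl | hN
  · simp
  have h1 : ∀ a b, ((List.range N).flatMap fun c => [g a b c 0, g a b c 1]) =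
      (List.range (N * 2)).map fun t => g a b (t / 2) (t % 2) := by
    intro a b
    rw [← flat_map_range N 2 (fun c e => g a b c e) (by omega)]
    rfl
  have h2 : ∀ a, ((List.range N).flatMap fun b => (List.range N).flatMap
      fun c => [g a b c 0, g a b c 1]) =
      (List.range (N * (N * 2))).map fun t => g a (t / (N * 2)) (t % (N * 2) / 2)
        (t % (N * 2) % 2) := by
    intro a
    rw [← flat_map_range N (N * 2) (fun b t => g a b (t / 2) (t % 2)) (by omega)]
    simp only [h1]
  rw [← flat_map_range N (N * (N * 2)) (fun a t => g a (t / (N * 2)) (t % (N * 2) / 2)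
        (t % (N * 2) % 2)) (by positivity)]
  simp only [h2]

lemma obit_eq (X Y : ℕ → ℕ) (a b c : ℕ) :
    [decide (obit X Y a b c 0 ≠ 0), decide (obit X Y a b c 1 ≠ 0)] =
      oriBits (ori ((X a : ℝ), (Y a : ℝ)) ((X b : ℝ), (Y b : ℝ)) ((X c : ℝ), (Y c : ℝ))) := by
  have hdt : dt ((X a : ℝ), (Y a : ℝ)) ((X b : ℝ), (Y b : ℝ)) ((X c : ℝ), (Y c : ℝ)) =
      (lhs X Y a b c : ℝ) - rhs X Y a b c := by
    unfold dt lhs rhs
    push_cast
    ring
  unfold oriBits obit
  simp only [ori_eq_one, ori_eq_neg_one, hdt]
  have e1 : ((lhs X Y a b c : ℝ) - rhs X Y a b c < 0) ↔ lhs X Y a b c < rhs X Y a b c := by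
    rw [sub_neg, Nat.cast_lt]
  have e2 : (0 < (lhs X Y a b c : ℝ) - rhs X Y a b c) ↔ rhs X Y a b c < lhs X Y a b c := by
    rw [sub_pos, Nat.cast_lt]
  by_cases h : lhs X Y a b c < rhs X Y a b c <;>
    by_cases h' : rhs X Y a b c < lhs X Y a b c <;> simp [h, h', e1, e2]

/-! ### Correctness on encoded graphs -/

lemma getD_replicate_append {m j : ℕ} {l : List Bool} (h : j < m) :
    (List.replicate m true ++ l).getD j false = true := by
  rw [List.getD_append _ _ _ _ (by simpa using h)]
  rw [List.getD_eq_getElem _ _ (by simpa using h), List.getElem_replicate]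

lemma getD_replicate_append' {m j : ℕ} {l : List Bool} :
    (List.replicate m true ++ l).getD (m + j) false = l.getD j false := by
  rw [List.getD_append_right _ _ _ _ (by simp)]
  simp

lemma getD_cons_succ' {b : Bool} {l : List Bool} {j : ℕ} :
    (b :: l).getD (j + 1) false = l.getD j false := by simp

section Enc

variable {n : ℕ} (G : SimpleGraph (Fin n)) (k : ℕ)

/-- The adjacency matrix. -/
noncomputable def mat : List Bool := (List.finRange n).flatMap fun a => (List.finRange n).map fun b =>
      @decide (G.Adj a b) (Classical.propDecidable _)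

lemma enc_eq : encClique G k = List.replicate n true ++ false :: (List.replicate k true ++
    false :: mat G) := rfl

lemma len_enc : (encClique G k).length = n + (1 + (k + (1 + n * n))) := by
  rw [enc_eq]
  unfold mat
  simp
  omega

lemma n0_enc : n0 (encClique G k) = n := by
  apply lead_eq
  · rw [len_enc]; omega
  · intro j hj
    rw [zero_add, enc_eq]
    exact getD_replicate_append hj
  · rw [zero_add, enc_eq]
    have := getD_replicate_append' (m := n) (j := 0) (l := false :: (List.replicate k true ++
      false :: mat G))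
    rw [add_zero] at this
    rw [this]
    rfl

lemma getD_enc (j : ℕ) : (encClique G k).getD (n + 1 + j) false =
    (List.replicate k true ++ false :: mat G).getD j false := by
  rw [enc_eq, add_assoc, getD_replicate_append', add_comm 1 j, getD_cons_succ']

lemma k0_enc : k0 (encClique G k) = k := by
  unfold k0
  rw [n0_enc]
  apply lead_eq
  · rw [len_enc]; omega
  · intro j hj
    rw [getD_enc]
    exact getD_replicate_append hj
  · rw [getD_enc]
    have := getD_replicate_append' (m := k) (j := 0) (l := false :: mat G)
    rw [add_zero] at this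
    rw [this]
    rfl

lemma adj_enc (a b : Fin n) : adjB (encClique G k) n (n + 1 + (k + 1)) a b ↔ G.Adj a b := by
  classical
  unfold adjB
  have e1 : n + 1 + (k + 1) + ((a : ℕ) * n + b) = n + 1 + (k + ((a : ℕ) * n + b + 1)) := by ring
  rw [e1, getD_enc, getD_replicate_append', getD_cons_succ']
  have hlt : (a : ℕ) * n + b < n * n := by
    calc (a : ℕ) * n + b < a * n + n := by have := b.2; omega
      _ = (a + 1) * n := by ring
      _ ≤ n * n := Nat.mul_le_mul_right _ a.2
  -- the matrix as a list indexed by natural numbers
  set g : ℕ → ℕ → Bool := fun u v => decide (∃ (hu : u < n) (hv : v < n), G.Adj ⟨u, hu⟩ ⟨v, hv⟩)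
    with hg
  have hm : mat G = (List.range (n * n)).map fun t => g (t / n) (t % n) := by
    rw [← flat_map_range n n (fun u v => g u v) (by have := a.2; omega)]
    unfold mat
    rw [← finRange_flatMap]
    apply List.flatMap_congr
    intro u _
    rw [← finRange_map]
    apply List.map_congr_left
    intro v _
    rw [hg, decide_eq_decide]
    constructor
    · intro h; exact ⟨u.2, v.2, h⟩
    · rintro ⟨_, _, h⟩; exact h
  rw [hm, List.getD_eq_getElem _ _ (by simpa using hlt), List.getElem_map, List.getElem_range,
    div_aux b.2, mod_aux b.2, hg, decide_eq_true_eq]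
  constructor
  · rintro ⟨_, _, h⟩; exact h
  · intro h; exact ⟨a.2, b.2, h⟩

lemma pad_enc : (∃ x, IsClq (n + 3) (k + 3) (adjX (encClique G k)) x) ↔ ¬ G.CliqueFree k := by
  unfold adjX
  rw [n0_enc, k0_enc]
  exact pad_iff G _ (adj_enc G k)

lemma irr_enc (x : List Bool) (m : ℕ) : Irr m (adjX x) := padj_irr _ _ _

end Enc

/-- The output of the reduction is the encoding of a list of points. -/
lemma Rd_eq (x : List Bool) :
    Rd x = (PL (n0 x + 3) (k0 x + 3) (adjX x) (by omega) (by omega) (irr_enc x _)).enc := by
  have hNX : NX x = NP (n0 x + 3) (k0 x + 3) := rfl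
  unfold Rd rlen
  rw [List.range_add, List.range_add, List.map_append, List.map_append]
  unfold PointList.enc
  have e1 : (List.map (fun i => decide (rbit x i ≠ 0)) (List.range (NX x))) =
      List.replicate (NX x) true := by
    rw [List.eq_replicate_iff]
    refine ⟨by simp, ?_⟩
    intro b hb
    obtain ⟨i, hi, rfl⟩ := List.mem_map.1 hb
    have hi' := List.mem_range.1 hi
    unfold rbit
    rw [if_pos hi']
    rfl
  have e2 : List.map (fun i => decide (rbit x i ≠ 0))
      (List.map (fun i => NX x + i) (List.range 1)) = [false] := by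
    simp [rbit]
  rw [e1, e2]
  show _ = List.replicate (NX x) true ++ _
  rw [List.append_assoc]
  congr 1
  rw [List.singleton_append]
  congr 1
  rw [List.map_map]
  set X := PX (n0 x + 3) (k0 x + 3) with hX
  set Y := PY (n0 x + 3) (k0 x + 3) (adjX x) with hY
  have e3 : ∀ a b c : ℕ, oriBits (ori (PP (n0 x + 3) (k0 x + 3) (adjX x) a)
      (PP (n0 x + 3) (k0 x + 3) (adjX x) b) (PP (n0 x + 3) (k0 x + 3) (adjX x) c)) =
      [decide (obit X Y a b c 0 ≠ 0), decide (obit X Y a b c 1 ≠ 0)] := fun a b c =>
    (obit_eq X Y a b c).symm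
  have e4 : ((List.finRange (NX x)).flatMap fun a : Fin (NX x) =>
      (List.finRange (NX x)).flatMap fun b : Fin (NX x) =>
      (List.finRange (NX x)).flatMap fun c : Fin (NX x) =>
        oriBits (ori (PP (n0 x + 3) (k0 x + 3) (adjX x) a)
          (PP (n0 x + 3) (k0 x + 3) (adjX x) b) (PP (n0 x + 3) (k0 x + 3) (adjX x) c))) =
      ((List.range (NX x)).flatMap fun a => (List.range (NX x)).flatMap fun b =>
        (List.range (NX x)).flatMap fun c =>
          [decide (obit X Y a b c 0 ≠ 0), decide (obit X Y a b c 1 ≠ 0)]) := by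
    rw [← finRange_flatMap]
    apply List.flatMap_congr
    intro a _
    rw [← finRange_flatMap]
    apply List.flatMap_congr
    intro b _
    rw [← finRange_flatMap]
    apply List.flatMap_congr
    intro c _
    exact e3 a b c
  refine Eq.trans ?_ e4.symm
  rw [table_eq (NX x) (fun a b c e => decide (obit X Y a b c e ≠ 0))]
  apply List.map_congr_left
  intro u _
  show decide (rbit x (NX x + 1 + u) ≠ 0) = _
  congr 2
  unfold rbit
  rw [if_neg (by omega), if_neg (by omega)]
  have : NX x + 1 + u - NX x - 1 = u := by omega
  rw [this]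
  rfl

end Con

end Pool.Agent.Obst
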