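import Pool.Agent.Obst.Pad
import Pool.Agent.Lib.PolyTime.PF

/-!
# The reduction is computable in polynomial time
-/

namespace Pool.Agent.Obst

namespace Con

open Pool.Agent.PolyTime

section Calc

variable {α : Type} [Ctx α]

variable {F G E D : List Bool → α → ℕ}

lemma pf_M (hF : PF F) : PF (fun x a => M (F x a)) := by
  unfold M
  repeat (with_reducible first
    | assumption | exact PF.const _ | apply PF.ite | apply PF.add
    | apply PF.sub | apply PF.mul | apply PF.div | apply PF.mod | apply PD.and | apply PD.or
    | apply PD.lt | apply PD.le | apply PD.eq | apply PD.not)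

lemma pf_Qc (hF : PF F) : PF (fun x a => Qc (F x a)) := by
  have := pf_M hF
  unfold Qc
  repeat (with_reducible first
    | assumption | exact PF.const _ | apply PF.ite | apply PF.add
    | apply PF.sub | apply PF.mul | apply PF.div | apply PF.mod | apply PD.and | apply PD.or
    | apply PD.lt | apply PD.le | apply PD.eq | apply PD.not)

lemma pf_W (hF : PF F) : PF (fun x a => W (F x a)) := by
  have := pf_M hF
  have := pf_Qc hF
  unfold W
  repeat (with_reducible first
    | assumption | exact PF.const _ | apply PF.ite | apply PF.add
    | apply PF.sub | apply PF.mul | apply PF.div | apply PF.mod | apply PD.and | apply PD.or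
    | apply PD.lt | apply PD.le | apply PD.eq | apply PD.not)

lemma pf_R (hF : PF F) : PF (fun x a => R (F x a)) := by
  have := pf_M hF
  have := pf_Qc hF
  unfold R
  repeat (with_reducible first
    | assumption | exact PF.const _ | apply PF.ite | apply PF.add
    | apply PF.sub | apply PF.mul | apply PF.div | apply PF.mod | apply PD.and | apply PD.or
    | apply PD.lt | apply PD.le | apply PD.eq | apply PD.not)

lemma pf_NN (hF : PF F) : PF (fun x a => NN (F x a)) := by
  have := pf_W hF
  have := pf_R hF
  unfold NN
  repeat (with_reducible first
    | assumption | exact PF.const _ | apply PF.ite | apply PF.add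
    | apply PF.sub | apply PF.mul | apply PF.div | apply PF.mod | apply PD.and | apply PD.or
    | apply PD.lt | apply PD.le | apply PD.eq | apply PD.not)

lemma pf_H (hF : PF F) (hG : PF G) : PF (fun x a => H (F x a) (G x a)) := by
  have := pf_NN hF
  unfold H
  repeat (with_reducible first
    | assumption | exact PF.const _ | apply PF.ite | apply PF.add
    | apply PF.sub | apply PF.mul | apply PF.div | apply PF.mod | apply PD.and | apply PD.or
    | apply PD.lt | apply PD.le | apply PD.eq | apply PD.not)

lemma pf_HM (hF : PF F) : PF (fun x a => HM (F x a)) := by
  have := pf_NN hF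
  have := pf_R hF
  unfold HM
  repeat (with_reducible first
    | assumption | exact PF.const _ | apply PF.ite | apply PF.add
    | apply PF.sub | apply PF.mul | apply PF.div | apply PF.mod | apply PD.and | apply PD.or
    | apply PD.lt | apply PD.le | apply PD.eq | apply PD.not)

lemma pf_vv (hF : PF F) (hG : PF G) : PF (fun x a => vv (F x a) (G x a)) := by
  unfold vv
  repeat (with_reducible first
    | assumption | exact PF.const _ | apply PF.ite | apply PF.add
    | apply PF.sub | apply PF.mul | apply PF.div | apply PF.mod | apply PD.and | apply PD.or
    | apply PD.lt | apply PD.le | apply PD.eq | apply PD.not)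

lemma pf_VV (hF : PF F) : PF (fun x a => VV (F x a)) := by
  unfold VV
  repeat (with_reducible first
    | assumption | exact PF.const _ | apply PF.ite | apply PF.add
    | apply PF.sub | apply PF.mul | apply PF.div | apply PF.mod | apply PD.and | apply PD.or
    | apply PD.lt | apply PD.le | apply PD.eq | apply PD.not)

lemma pf_E1 (hF : PF F) : PF (fun x a => E1 (F x a)) := by
  have := pf_VV hF
  unfold E1
  repeat (with_reducible first
    | assumption | exact PF.const _ | apply PF.ite | apply PF.add
    | apply PF.sub | apply PF.mul | apply PF.div | apply PF.mod | apply PD.and | apply PD.or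
    | apply PD.lt | apply PD.le | apply PD.eq | apply PD.not)

lemma pf_N1 (hF : PF F) (hG : PF G) : PF (fun x a => N1 (F x a) (G x a)) := by
  have := pf_E1 hF
  have := pf_W hG
  unfold N1
  repeat (with_reducible first
    | assumption | exact PF.const _ | apply PF.ite | apply PF.add
    | apply PF.sub | apply PF.mul | apply PF.div | apply PF.mod | apply PD.and | apply PD.or
    | apply PD.lt | apply PD.le | apply PD.eq | apply PD.not)

lemma pf_N3 (hF : PF F) (hG : PF G) : PF (fun x a => N3 (F x a) (G x a)) := by
  have := pf_E1 hF
  have := pf_W hG
  have := pf_N1 hF hG
  have := pf_HM hG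
  unfold N3
  repeat (with_reducible first
    | assumption | exact PF.const _ | apply PF.ite | apply PF.add
    | apply PF.sub | apply PF.mul | apply PF.div | apply PF.mod | apply PD.and | apply PD.or
    | apply PD.lt | apply PD.le | apply PD.eq | apply PD.not)

lemma pf_Th (hF : PF F) (hG : PF G) : PF (fun x a => Th (F x a) (G x a)) := by
  have := pf_E1 hF
  have := pf_N1 hF hG
  have := pf_N3 hF hG
  have := pf_HM hG
  unfold Th
  repeat (with_reducible first
    | assumption | exact PF.const _ | apply PF.ite | apply PF.add
    | apply PF.sub | apply PF.mul | apply PF.div | apply PF.mod | apply PD.and | apply PD.or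
    | apply PD.lt | apply PD.le | apply PD.eq | apply PD.not)

lemma pf_pi (hF : PF F) (hG : PF G) (hE : PF E) :
    PF (fun x a => pi (F x a) (G x a) (E x a)) := by
  unfold pi
  repeat (with_reducible first
    | assumption | exact PF.const _ | apply PF.ite | apply PF.add
    | apply PF.sub | apply PF.mul | apply PF.div | apply PF.mod | apply PD.and | apply PD.or
    | apply PD.lt | apply PD.le | apply PD.eq | apply PD.not)

lemma pf_pinv (hF : PF F) (hG : PF G) (hE : PF E) :
    PF (fun x a => pinv (F x a) (G x a) (E x a)) := by
  unfold pinv
  repeat (with_reducible first
    | assumption | exact PF.const _ | apply PF.ite | apply PF.add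
    | apply PF.sub | apply PF.mul | apply PF.div | apply PF.mod | apply PD.and | apply PD.or
    | apply PD.lt | apply PD.le | apply PD.eq | apply PD.not)

lemma pf_XN (hF : PF F) (hG : PF G) : PF (fun x a => XN (F x a) (G x a)) := by
  have h1 := pf_M hF
  have h2 : PF (fun x a => pi (F x a) ((G x a - 2 * M (F x a)) / M (F x a))
    ((G x a - 2 * M (F x a)) % M (F x a))) := pf_pi hF (by
      repeat (with_reducible first
        | assumption | exact PF.const _ | apply PF.ite | apply PF.add
        | apply PF.sub | apply PF.mul | apply PF.div | apply PF.mod | apply PD.and | apply PD.or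
        | apply PD.lt | apply PD.le | apply PD.eq | apply PD.not)) (by
      repeat (with_reducible first
        | assumption | exact PF.const _ | apply PF.ite | apply PF.add
        | apply PF.sub | apply PF.mul | apply PF.div | apply PF.mod | apply PD.and | apply PD.or
        | apply PD.lt | apply PD.le | apply PD.eq | apply PD.not))
  unfold XN
  repeat (with_reducible first
    | assumption | exact PF.const _ | apply PF.ite | apply PF.add
    | apply PF.sub | apply PF.mul | apply PF.div | apply PF.mod | apply PD.and | apply PD.or
    | apply PD.lt | apply PD.le | apply PD.eq | apply PD.not)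

lemma pf_row (hF : PF F) (hG : PF G) (hE : PF E) :
    PF (fun x a => row (F x a) (G x a) (E x a)) := by
  have h1 := pf_M hF
  have h2 : PF (fun x a => pinv (F x a) (E x a) (G x a - M (F x a))) := pf_pinv hF hE (by
      repeat (with_reducible first
        | assumption | exact PF.const _ | apply PF.ite | apply PF.add
        | apply PF.sub | apply PF.mul | apply PF.div | apply PF.mod | apply PD.and | apply PD.or
        | apply PD.lt | apply PD.le | apply PD.eq | apply PD.not))
  unfold row
  repeat (with_reducible first
    | assumption | exact PF.const _ | apply PF.ite | apply PF.add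
    | apply PF.sub | apply PF.mul | apply PF.div | apply PF.mod | apply PD.and | apply PD.or
    | apply PD.lt | apply PD.le | apply PD.eq | apply PD.not)

lemma pf_YaN (hD : PF D) (hF : PF F) (hG : PF G) (hE : PF E) :
    PF (fun x a => YaN (D x a) (F x a) (G x a) (E x a)) := by
  have h1 := pf_H hF (pf_row hF hG hE)
  have h2 := pf_Th hD hF
  unfold YaN
  repeat (with_reducible first
    | assumption | exact PF.const _ | apply PF.ite | apply PF.add
    | apply PF.sub | apply PF.mul | apply PF.div | apply PF.mod | apply PD.and | apply PD.or
    | apply PD.lt | apply PD.le | apply PD.eq | apply PD.not)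

lemma pf_rc (hF : PF F) (hG : PF G) : PF (fun x a => rc (F x a) (G x a)) := by
  have h1 := pf_M hF
  have h2 : PF (fun x a => pi (F x a) ((G x a - 2 * M (F x a)) / M (F x a))
    ((G x a - 2 * M (F x a)) % M (F x a))) := pf_pi hF (by
      repeat (with_reducible first
        | assumption | exact PF.const _ | apply PF.ite | apply PF.add
        | apply PF.sub | apply PF.mul | apply PF.div | apply PF.mod | apply PD.and | apply PD.or
        | apply PD.lt | apply PD.le | apply PD.eq | apply PD.not)) (by
      repeat (with_reducible first
        | assumption | exact PF.const _ | apply PF.ite | apply PF.add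
        | apply PF.sub | apply PF.mul | apply PF.div | apply PF.mod | apply PD.and | apply PD.or
        | apply PD.lt | apply PD.le | apply PD.eq | apply PD.not))
  unfold rc
  repeat (with_reducible first
    | assumption | exact PF.const _ | apply PF.ite | apply PF.add
    | apply PF.sub | apply PF.mul | apply PF.div | apply PF.mod | apply PD.and | apply PD.or
    | apply PD.lt | apply PD.le | apply PD.eq | apply PD.not)

lemma pf_scale (hD : PF D) (hF : PF F) (hG : PF G) :
    PF (fun x a => scale (D x a) (F x a) (G x a)) := by
  have h1 := pf_M hF
  have h2 := pf_N1 hD hF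
  have h3 := pf_N3 hD hF
  unfold scale
  repeat (with_reducible first
    | assumption | exact PF.const _ | apply PF.ite | apply PF.add
    | apply PF.sub | apply PF.mul | apply PF.div | apply PF.mod | apply PD.and | apply PD.or
    | apply PD.lt | apply PD.le | apply PD.eq | apply PD.not)

variable {adj : List Bool → ℕ → ℕ → Prop}

lemma pd_val (hadj : ∀ F G : List Bool → α → ℕ, PF F → PF G →
      PD (fun x a => adj x (F x a) (G x a))) (hD : PF D) (hF : PF F) (hG : PF G) (hE : PF E) :
    PD (fun x a => val (D x a) (F x a) (adj x) (G x a) (E x a)) := by
  have h1 := pf_M hF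
  have h2 := hadj (fun x a => E x a / D x a) (fun x a => E x a % D x a) (by
      repeat (with_reducible first
        | assumption | exact PF.const _ | apply PF.ite | apply PF.add
        | apply PF.sub | apply PF.mul | apply PF.div | apply PF.mod | apply PD.and | apply PD.or
        | apply PD.lt | apply PD.le | apply PD.eq | apply PD.not)) (by
      repeat (with_reducible first
        | assumption | exact PF.const _ | apply PF.ite | apply PF.add
        | apply PF.sub | apply PF.mul | apply PF.div | apply PF.mod | apply PD.and | apply PD.or
        | apply PD.lt | apply PD.le | apply PD.eq | apply PD.not))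
  unfold val
  repeat (with_reducible first
    | assumption | exact PF.const _ | apply PF.ite | apply PF.add
    | apply PF.sub | apply PF.mul | apply PF.div | apply PF.mod | apply PD.and | apply PD.or
    | apply PD.lt | apply PD.le | apply PD.eq | apply PD.not)

lemma pf_eps (hadj : ∀ F G : List Bool → α → ℕ, PF F → PF G →
      PD (fun x a => adj x (F x a) (G x a))) (hD : PF D) (hF : PF F) (hG : PF G) (hE : PF E) :
    PF (fun x a => eps (D x a) (F x a) (adj x) (G x a) (E x a)) := by
  have h1 := pf_M hF
  have h2 := pf_vv hD hE
  have h3 := pf_VV hD
  have h4 := pf_N1 hD hF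
  have h5 : PF (fun x a => H (F x a) ((G x a - 2 * M (F x a)) % M (F x a))) := pf_H hF (by
      repeat (with_reducible first
        | assumption | exact PF.const _ | apply PF.ite | apply PF.add
        | apply PF.sub | apply PF.mul | apply PF.div | apply PF.mod | apply PD.and | apply PD.or
        | apply PD.lt | apply PD.le | apply PD.eq | apply PD.not))
  have h6 : PF (fun x a => vv (D x a) (E x a / D x a)) := pf_vv hD (by
      repeat (with_reducible first
        | assumption | exact PF.const _ | apply PF.ite | apply PF.add
        | apply PF.sub | apply PF.mul | apply PF.div | apply PF.mod | apply PD.and | apply PD.or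
        | apply PD.lt | apply PD.le | apply PD.eq | apply PD.not))
  have h7 : PF (fun x a => vv (D x a) (E x a % D x a)) := pf_vv hD (by
      repeat (with_reducible first
        | assumption | exact PF.const _ | apply PF.ite | apply PF.add
        | apply PF.sub | apply PF.mul | apply PF.div | apply PF.mod | apply PD.and | apply PD.or
        | apply PD.lt | apply PD.le | apply PD.eq | apply PD.not))
  have h8 : PD (fun x a => val (D x a) (F x a) (adj x) (G x a - 2 * M (F x a)) (E x a)) :=
    pd_val hadj hD hF (by
      repeat (with_reducible first
        | assumption | exact PF.const _ | apply PF.ite | apply PF.add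
        | apply PF.sub | apply PF.mul | apply PF.div | apply PF.mod | apply PD.and | apply PD.or
        | apply PD.lt | apply PD.le | apply PD.eq | apply PD.not)) hE
  have h9 : PF (fun x a => 4 * (VV (D x a) + vv (D x a) (E x a / D x a) -
    vv (D x a) (E x a % D x a))) := by
      repeat (with_reducible first
        | assumption | exact PF.const _ | apply PF.ite | apply PF.add
        | apply PF.sub | apply PF.mul | apply PF.div | apply PF.mod | apply PD.and | apply PD.or
        | apply PD.lt | apply PD.le | apply PD.eq | apply PD.not)
  have h10 : PF (fun x a => 4 * E x a + 2) := by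
      repeat (with_reducible first
        | assumption | exact PF.const _ | apply PF.ite | apply PF.add
        | apply PF.sub | apply PF.mul | apply PF.div | apply PF.mod | apply PD.and | apply PD.or
        | apply PD.lt | apply PD.le | apply PD.eq | apply PD.not)
  have h11 := @PF.ite _ _ _ (fun x a => Classical.propDecidable _) _ _ h8 h9 h10
  unfold eps
  repeat (with_reducible first
    | assumption | exact PF.const _ | apply PF.ite | apply PF.add
    | apply PF.sub | apply PF.mul | apply PF.div | apply PF.mod | apply PD.and | apply PD.or
    | apply PD.lt | apply PD.le | apply PD.eq | apply PD.not)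

lemma pf_YdN (hadj : ∀ F G : List Bool → α → ℕ, PF F → PF G →
      PD (fun x a => adj x (F x a) (G x a))) (hD : PF D) (hF : PF F) (hG : PF G) (hE : PF E) :
    PF (fun x a => YdN (D x a) (F x a) (adj x) (G x a) (E x a)) := by
  have h1 := pf_eps hadj hD hF hG hE
  have h2 := pf_scale hD hF hG
  have h3 := pf_H hF (pf_rc hF hG)
  unfold YdN
  repeat (with_reducible first
    | assumption | exact PF.const _ | apply PF.ite | apply PF.add
    | apply PF.sub | apply PF.mul | apply PF.div | apply PF.mod | apply PD.and | apply PD.or
    | apply PD.lt | apply PD.le | apply PD.eq | apply PD.not)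

lemma pf_NP (hD : PF D) (hF : PF F) : PF (fun x a => NP (D x a) (F x a)) := by
  have h1 := pf_Qc hF
  unfold NP
  repeat (with_reducible first
    | assumption | exact PF.const _ | apply PF.ite | apply PF.add
    | apply PF.sub | apply PF.mul | apply PF.div | apply PF.mod | apply PD.and | apply PD.or
    | apply PD.lt | apply PD.le | apply PD.eq | apply PD.not)

lemma pf_PX (hD : PF D) (hF : PF F) (hG : PF G) :
    PF (fun x a => PX (D x a) (F x a) (G x a)) := by
  have h1 : PF (fun x a => XN (F x a) ((G x a - 31) / (15 + D x a * D x a))) :=
    pf_XN hF (by
      repeat (with_reducible first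
        | assumption | exact PF.const _ | apply PF.ite | apply PF.add
        | apply PF.sub | apply PF.mul | apply PF.div | apply PF.mod | apply PD.and | apply PD.or
        | apply PD.lt | apply PD.le | apply PD.eq | apply PD.not))
  unfold PX
  repeat (with_reducible first
    | assumption | exact PF.const _ | apply PF.ite | apply PF.add
    | apply PF.sub | apply PF.mul | apply PF.div | apply PF.mod | apply PD.and | apply PD.or
    | apply PD.lt | apply PD.le | apply PD.eq | apply PD.not)

lemma pf_PY (hadj : ∀ F G : List Bool → α → ℕ, PF F → PF G →
      PD (fun x a => adj x (F x a) (G x a))) (hD : PF D) (hF : PF F) (hG : PF G) :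
    PF (fun x a => PY (D x a) (F x a) (adj x) (G x a)) := by
  have h1 := pf_Th hD hF
  have h2 : PF (fun x a => YaN (D x a) (F x a) ((G x a - 31) / (15 + D x a * D x a))
    ((G x a - 31) % (15 + D x a * D x a))) := pf_YaN hD hF (by
      repeat (with_reducible first
        | assumption | exact PF.const _ | apply PF.ite | apply PF.add
        | apply PF.sub | apply PF.mul | apply PF.div | apply PF.mod | apply PD.and | apply PD.or
        | apply PD.lt | apply PD.le | apply PD.eq | apply PD.not)) (by
      repeat (with_reducible first
        | assumption | exact PF.const _ | apply PF.ite | apply PF.add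
        | apply PF.sub | apply PF.mul | apply PF.div | apply PF.mod | apply PD.and | apply PD.or
        | apply PD.lt | apply PD.le | apply PD.eq | apply PD.not))
  have h3 : PF (fun x a => YdN (D x a) (F x a) (adj x) ((G x a - 31) / (15 + D x a * D x a))
    ((G x a - 31) % (15 + D x a * D x a) - 15)) := pf_YdN hadj hD hF (by
      repeat (with_reducible first
        | assumption | exact PF.const _ | apply PF.ite | apply PF.add
        | apply PF.sub | apply PF.mul | apply PF.div | apply PF.mod | apply PD.and | apply PD.or
        | apply PD.lt | apply PD.le | apply PD.eq | apply PD.not)) (by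
      repeat (with_reducible first
        | assumption | exact PF.const _ | apply PF.ite | apply PF.add
        | apply PF.sub | apply PF.mul | apply PF.div | apply PF.mod | apply PD.and | apply PD.or
        | apply PD.lt | apply PD.le | apply PD.eq | apply PD.not))
  unfold PY
  repeat (with_reducible first
    | assumption | exact PF.const _ | apply PF.ite | apply PF.add
    | apply PF.sub | apply PF.mul | apply PF.div | apply PF.mod | apply PD.and | apply PD.or
    | apply PD.lt | apply PD.le | apply PD.eq | apply PD.not)

end Calc

end Con

end Pool.Agent.Obst
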