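import Pool.Agent.Obst.Design

/-!
# Upper bound for avoiding subsets of a design, and what equality means
-/

namespace Pool.Agent.Obst

open Function

namespace Design

variable (Ω : Design)

lemma frm_frame : IsFrame Ω.frm := by
  refine ⟨?_, ?_, ?_⟩
  · intro i j l
    rw [ori_eq_zero]
    apply dt_same_x (x := Ω.x0)
    · rcases i with i | i <;> rfl
    · rcases j with i | i <;> rfl
    · rcases l with i | i <;> rfl
  · intro i j l
    rw [ori_eq_zero]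
    apply dt_same_y (y := Ω.Th)
    · rcases i with i | i <;> rfl
    · rcases j with i | i <;> rfl
    · rcases l with i | i <;> rfl
  · rw [ori_eq_neg_one]
    show 0 < dt Ω.pO (Ω.pP ((0 : Fin 15) : ℕ)) (Ω.pQ ((0 : Fin 15) : ℕ))
    unfold dt pO pP pQ
    simp

lemma low_frm {y : ℝ × ℝ} (hy : y.2 < Ω.Th) : Low Ω.frm y := by
  unfold Low
  rw [ori_eq_neg_one]
  show 0 < dt Ω.pO (Ω.pQ ((0 : Fin 15) : ℕ)) y
  unfold dt pO pQ
  simp
  linarith

lemma anc_ne_dom {q s q' d : ℕ} (hq : q < Ω.Q) (hs : s < 15) (hq' : q' < Ω.Q) (hd : d < Ω.D) :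
    Ω.anc q s ≠ Ω.dom q' d := by
  intro h
  have h1 := Ω.Ya_gt q hq s hs
  have h2 := Ω.Yd_lt q' hq' d hd
  have h3 : Ω.Ya q s = Ω.Yd q' d := congrArg Prod.snd h
  linarith

open Classical in
/-- The part of a set on a column. -/
noncomputable def C (S' : Config) (q : ℕ) : Config := S'.filter fun z => z.1 = Ω.X q

lemma mem_C {S' : Config} {q : ℕ} {z : ℝ × ℝ} : z ∈ Ω.C S' q ↔ z ∈ S' ∧ z.1 = Ω.X q := by
  classical
  unfold C
  rw [Finset.mem_filter]

/-- A combination of the frame and lines. -/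
def cmb (g : ℕ) (x : Fin g → Fin 16 → ℝ × ℝ) : IP g → ℝ × ℝ :=
  Sum.elim Ω.frm fun e => x e.1 e.2

lemma cmb_inj {g : ℕ} {x : Fin g → Fin 16 → ℝ × ℝ} {q : Fin g → ℕ} (hq : ∀ t, q t < Ω.Q)
    (hqi : Injective q) (hx : ∀ t, Injective (x t)) (hxq : ∀ t s, (x t s).1 = Ω.X (q t)) :
    Injective (Ω.cmb g x) := by
  intro i j h
  rcases i with i | ⟨t, s⟩ <;> rcases j with j | ⟨t', s'⟩ <;>
    simp only [cmb, Sum.elim_inl, Sum.elim_inr] at h
  · rw [Ω.frm_inj h]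
  · exfalso
    have h1 := InF.x_le Ω (Ω.mem_FF.1 (by
      classical
      exact Finset.mem_image_of_mem Ω.frm (Finset.mem_univ i)))
    rw [h, hxq] at h1
    have := Ω.X_gt _ (hq t')
    linarith
  · exfalso
    have h1 := InF.x_le Ω (Ω.mem_FF.1 (by
      classical
      exact Finset.mem_image_of_mem Ω.frm (Finset.mem_univ j)))
    rw [← h, hxq] at h1
    have := Ω.X_gt _ (hq t)
    linarith
  · have h1 : Ω.X (q t) = Ω.X (q t') := by rw [← hxq t s, ← hxq t' s', h]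
    have h2 := hqi (Ω.X_inj _ (hq t) _ (hq t') h1)
    subst h2
    rw [hx t h]

variable {Ω}

lemma card_C_le {S' : Config} (hA : Free PatA S') (q : ℕ) : (Ω.C S' q).card ≤ 16 := by
  classical
  by_contra hcon
  push Not at hcon
  obtain ⟨T, hT, hTc⟩ := Finset.exists_subset_card_eq (show 17 ≤ (Ω.C S' q).card by omega)
  set e := (T.equivFinOfCardEq hTc).symm with he
  refine hA (fun s => (e s : ℝ × ℝ)) ?_ ?_ ?_
  · intro s t h
    exact e.injective (Subtype.ext h)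
  · intro s
    exact (Ω.mem_C.1 (hT (e s).2)).1
  · intro i j l
    rw [ori_eq_zero]
    exact dt_same_x (Ω.mem_C.1 (hT (e i).2)).2 (Ω.mem_C.1 (hT (e j).2)).2
      (Ω.mem_C.1 (hT (e l).2)).2

lemma subset_union {S' : Config} (hS : S' ⊆ Ω.S) [DecidableEq (ℝ × ℝ)] :
    S' ⊆ (S' ∩ Ω.FF) ∪ (Finset.range Ω.Q).biUnion (Ω.C S') := by
  intro z hz
  rw [Finset.mem_union, Finset.mem_inter, Finset.mem_biUnion]
  rcases Ω.mem_S.1 (hS hz) with h1 | ⟨q, hq, s, hs, rfl⟩ | ⟨q, hq, d, hd, rfl⟩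
  · exact Or.inl ⟨hz, Ω.mem_FF.2 h1⟩
  · exact Or.inr ⟨q, Finset.mem_range.2 hq, Ω.mem_C.2 ⟨hz, rfl⟩⟩
  · exact Or.inr ⟨q, Finset.mem_range.2 hq, Ω.mem_C.2 ⟨hz, rfl⟩⟩

theorem card_le {S' : Config} (hS : S' ⊆ Ω.S) (hA : Free PatA S') :
    S'.card ≤ 31 + 16 * Ω.Q := by
  classical
  calc S'.card ≤ ((S' ∩ Ω.FF) ∪ (Finset.range Ω.Q).biUnion (Ω.C S')).card :=
        Finset.card_le_card (subset_union hS)
    _ ≤ (S' ∩ Ω.FF).card + ((Finset.range Ω.Q).biUnion (Ω.C S')).card :=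
        Finset.card_union_le _ _
    _ ≤ 31 + ∑ q ∈ Finset.range Ω.Q, (Ω.C S' q).card := by
        apply Nat.add_le_add
        · rw [← Ω.card_FF]
          exact Finset.card_le_card Finset.inter_subset_right
        · exact Finset.card_biUnion_le
    _ ≤ 31 + ∑ q ∈ Finset.range Ω.Q, 16 := by
        apply Nat.add_le_add_left
        exact Finset.sum_le_sum fun q _ => card_C_le hA q
    _ = 31 + 16 * Ω.Q := by
        rw [Finset.sum_const, Finset.card_range, smul_eq_mul, mul_comm]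

lemma full_of_card {S' : Config} (hS : S' ⊆ Ω.S) (hA : Free PatA S')
    (hK : 31 + 16 * Ω.Q ≤ S'.card) : Ω.FF ⊆ S' ∧ ∀ q < Ω.Q, (Ω.C S' q).card = 16 := by
  classical
  have h1 : S'.card ≤ (S' ∩ Ω.FF).card + ∑ q ∈ Finset.range Ω.Q, (Ω.C S' q).card :=
    calc S'.card ≤ ((S' ∩ Ω.FF) ∪ (Finset.range Ω.Q).biUnion (Ω.C S')).card :=
        Finset.card_le_card (subset_union hS)
    _ ≤ (S' ∩ Ω.FF).card + ((Finset.range Ω.Q).biUnion (Ω.C S')).card :=
        Finset.card_union_le _ _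
    _ ≤ _ := Nat.add_le_add_left Finset.card_biUnion_le _
  have h2 : (S' ∩ Ω.FF).card ≤ 31 := by
    rw [← Ω.card_FF]
    exact Finset.card_le_card Finset.inter_subset_right
  have h3 : ∑ q ∈ Finset.range Ω.Q, (Ω.C S' q).card ≤ 16 * Ω.Q := by
    calc _ ≤ ∑ q ∈ Finset.range Ω.Q, 16 := Finset.sum_le_sum fun q _ => card_C_le hA q
      _ = 16 * Ω.Q := by rw [Finset.sum_const, Finset.card_range, smul_eq_mul, mul_comm]
  constructor
  · have h4 : (S' ∩ Ω.FF).card = Ω.FF.card := by rw [Ω.card_FF]; omega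
    have h5 : S' ∩ Ω.FF = Ω.FF :=
      Finset.eq_of_subset_of_card_le Finset.inter_subset_right h4.ge
    rw [← h5]
    exact Finset.inter_subset_left
  · intro q hq
    by_contra hne
    have hlt : (Ω.C S' q).card < 16 := lt_of_le_of_ne (card_C_le hA q) hne
    have h4 : ∑ q ∈ Finset.range Ω.Q, (Ω.C S' q).card < ∑ q ∈ Finset.range Ω.Q, 16 :=
      Finset.sum_lt_sum (fun q _ => card_C_le hA q) ⟨q, Finset.mem_range.2 hq, hlt⟩
    rw [Finset.sum_const, Finset.card_range, smul_eq_mul, mul_comm] at h4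
    omega

/-- Equality in the upper bound: a choice of one domain point in each column which satisfies all
the links. -/
theorem sound {S' : Config} (hS : S' ⊆ Ω.S) (hA : Free PatA S') (hB : Free PatB S')
    (hC : Free PatC S') (hK : 31 + 16 * Ω.Q ≤ S'.card) :
    ∃ d : ℕ → ℕ, (∀ q < Ω.Q, d q < Ω.D) ∧ ∀ l < Ω.L,
      dt (Ω.dom (Ω.col 0 l) (d (Ω.col 0 l))) (Ω.dom (Ω.col 1 l) (d (Ω.col 1 l)))
        (Ω.dom (Ω.col 2 l) (d (Ω.col 2 l))) = 0 := by
  classical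
  obtain ⟨hF, hfull⟩ := full_of_card hS hA hK
  have hfrm : ∀ i, Ω.frm i ∈ S' := fun i => hF (Finset.mem_image_of_mem _ (Finset.mem_univ i))
  -- at most one domain point per column
  have hone : ∀ q < Ω.Q, ∀ a ∈ Ω.C S' q, ∀ b ∈ Ω.C S' q, a.2 < Ω.Th → b.2 < Ω.Th → a = b := by
    intro q hq a ha b hb hal hbl
    by_contra hab
    obtain ⟨x, hx, hxT, hx0, hx1⟩ := exists_enum (hfull q hq) ha hb hab
    refine hC (Ω.cmb 1 fun _ => x) (Ω.cmb_inj (q := fun _ => q) (fun _ => hq)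
      (fun i j _ => Subsingleton.elim _ _) (fun _ => hx)
      fun _ s => (Ω.mem_C.1 (hxT s)).2) ?_ ⟨Ω.frm_frame, ?_, ?_, ?_⟩
    · rintro (i | ⟨t, s⟩)
      · exact hfrm i
      · exact (Ω.mem_C.1 (hxT s)).1
    · intro i j l
      rw [ori_eq_zero]
      exact dt_same_x (Ω.mem_C.1 (hxT i)).2 (Ω.mem_C.1 (hxT j)).2 (Ω.mem_C.1 (hxT l)).2
    · show Low Ω.frm (x 0)
      rw [hx0]; exact Ω.low_frm hal
    · show Low Ω.frm (x 1)
      rw [hx1]; exact Ω.low_frm hbl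
  -- all anchors are present and one domain point too
  have hstr : ∀ q < Ω.Q, (∀ s < 15, Ω.anc q s ∈ Ω.C S' q) ∧
      ∃ d < Ω.D, Ω.dom q d ∈ Ω.C S' q := by
    intro q hq
    set Aq : Config := (Finset.range 15).image (Ω.anc q) with hAq
    have hAc : Aq.card = 15 := by
      rw [hAq, Finset.card_image_of_injOn, Finset.card_range]
      intro s hs s' hs' h
      exact Ω.Ya_inj q hq s (Finset.mem_range.1 hs) s' (Finset.mem_range.1 hs')
        (congrArg Prod.snd h)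
    set Dq : Config := (Ω.C S' q).filter (fun z => z.2 < Ω.Th) with hDq
    have hDc : Dq.card ≤ 1 := by
      rw [Finset.card_le_one]
      intro a ha b hb
      rw [hDq, Finset.mem_filter] at ha hb
      exact hone q hq a ha.1 b hb.1 ha.2 hb.2
    have hcov : Ω.C S' q ⊆ (Ω.C S' q ∩ Aq) ∪ Dq := by
      intro z hz
      have hz' := Ω.mem_C.1 hz
      rcases Ω.col_cases (hS hz'.1) hq hz'.2 with ⟨s, hs, rfl⟩ | ⟨d, hd, rfl⟩
      · exact Finset.mem_union_left _ (Finset.mem_inter.2 ⟨hz,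
          Finset.mem_image_of_mem _ (Finset.mem_range.2 hs)⟩)
      · exact Finset.mem_union_right _ (Finset.mem_filter.2 ⟨hz, Ω.Yd_lt q hq d hd⟩)
    have h1 : 16 ≤ (Ω.C S' q ∩ Aq).card + Dq.card := by
      rw [← hfull q hq]
      exact (Finset.card_le_card hcov).trans (Finset.card_union_le _ _)
    have h2 : (Ω.C S' q ∩ Aq).card ≤ 15 := by
      rw [← hAc]; exact Finset.card_le_card Finset.inter_subset_right
    constructor
    · have h3 : Ω.C S' q ∩ Aq = Aq :=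
        Finset.eq_of_subset_of_card_le Finset.inter_subset_right (by rw [hAc]; omega)
      intro s hs
      have h4 : Ω.anc q s ∈ Aq := Finset.mem_image_of_mem _ (Finset.mem_range.2 hs)
      rw [← h3] at h4
      exact (Finset.mem_inter.1 h4).1
    · have h3 : 0 < Dq.card := by omega
      obtain ⟨z, hz⟩ := Finset.card_pos.1 h3
      rw [hDq, Finset.mem_filter] at hz
      have hz' := Ω.mem_C.1 hz.1
      rcases Ω.col_cases (hS hz'.1) hq hz'.2 with ⟨s, hs, rfl⟩ | ⟨d, hd, rfl⟩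
      · exfalso
        have := Ω.Ya_gt q hq s hs
        have h5 : Ω.Ya q s < Ω.Th := hz.2
        linarith
      · exact ⟨d, hd, hz.1⟩
  have hch : ∀ q, ∃ d, q < Ω.Q → d < Ω.D ∧ Ω.dom q d ∈ Ω.C S' q := by
    intro q
    by_cases hq : q < Ω.Q
    · obtain ⟨d, hd, h⟩ := (hstr q hq).2
      exact ⟨d, fun _ => ⟨hd, h⟩⟩
    · exact ⟨0, fun h => absurd h hq⟩
  choose d hd using hch
  refine ⟨d, fun q hq => (hd q hq).1, ?_⟩
  intro l hl
  by_contra hne
  -- the three columns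
  have hcol : ∀ t : Fin 3, Ω.col t l < Ω.Q := fun t => Ω.col_lt l hl t t.2
  have henum : ∀ t : Fin 3, ∃ x : Fin 16 → ℝ × ℝ, Injective x ∧
      (∀ s, x s ∈ Ω.C S' (Ω.col t l)) ∧ x 0 = Ω.dom (Ω.col t l) (d (Ω.col t l)) ∧
      x 1 = Ω.anc (Ω.col t l) (Ω.slot t l) := by
    intro t
    have hs := Ω.slot_lt l hl t t.2
    refine exists_enum (hfull _ (hcol t)) (hd _ (hcol t)).2 ((hstr _ (hcol t)).1 _ hs) ?_
    exact (Ω.anc_ne_dom (hcol t) hs (hcol t) (hd _ (hcol t)).1).symm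
  choose x hx hxT hx0 hx1 using henum
  refine hB (Ω.cmb 3 x) (Ω.cmb_inj (q := fun t => Ω.col t l) hcol ?_ hx
    fun t s => (Ω.mem_C.1 (hxT t s)).2) ?_ ⟨Ω.frm_frame, ?_, ?_, ?_, ?_⟩
  · intro t t' h
    by_contra htt
    exact Ω.col_ne l hl t t.2 t' t'.2 (fun hh => htt (Fin.ext hh)) h
  · rintro (i | ⟨t, s⟩)
    · exact hfrm i
    · exact (Ω.mem_C.1 (hxT t s)).1
  · intro t i j l'
    rw [ori_eq_zero]
    exact dt_same_x (Ω.mem_C.1 (hxT t i)).2 (Ω.mem_C.1 (hxT t j)).2 (Ω.mem_C.1 (hxT t l')).2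
  · intro t
    show Low Ω.frm (x t 0)
    rw [hx0]
    exact Ω.low_frm (Ω.Yd_lt _ (hcol t) _ (hd _ (hcol t)).1)
  · show ori (x 0 1) (x 1 1) (x 2 1) = 0
    rw [ori_eq_zero, hx1, hx1, hx1]
    exact Ω.link_coll l hl
  · show ori (x 0 0) (x 1 0) (x 2 0) ≠ 0
    rw [Ne, ori_eq_zero, hx0, hx0, hx0]
    exact hne

end Design

end Pool.Agent.Obst
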